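import Pool.Agent.Helper3.PF.Zero

/-!
Project PF, block B6: zero is a weight and the short roots are pairwise orthogonal or opposite.
-/

set_option linter.unusedSectionVars false
set_option linter.unusedVariables false

open Module

namespace PF

variable {E : Type*} [NormedAddCommGroup E] [InnerProductSpace ℝ E] {Φ X : Finset E}

/-- The short roots are pairwise orthogonal or opposite. -/
structure ORS (Φ : Finset E) : Prop extends NRS Φ where
  nb : ∀ g ∈ Psi Φ, Nb Φ g = ∅

namespace ORS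

variable (h : ORS Φ)
include h

theorem inner_cases {a b : E} (ha : a ∈ Psi Φ) (hb : b ∈ Psi Φ) : a = b ∨ a = -b ∨ inner ℝ a b = (0 : ℝ) := by
  by_cases e1 : a = b
  · exact Or.inl e1
  by_cases e2 : a = -b
  · exact Or.inr (Or.inl e2)
  refine Or.inr (Or.inr ?_)
  rcases h.toNRS.inner_Psi ha hb e1 e2 with h1 | h1 | h1
  · exact h1
  · have h2 : a ∈ Nb Φ b := mem_Nb.2 ⟨ha, h1⟩
    rw [h.nb b hb] at h2
    exact absurd h2 (Finset.notMem_empty _)
  · have h2 : -a ∈ Nb Φ b := mem_Nb.2 ⟨h.toNRS.neg_Psi ha, by rw [inner_neg_left, h1]; norm_num⟩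
    rw [h.nb b hb] at h2
    exact absurd h2 (Finset.notMem_empty _)

theorem no_six {b : E} (hb : b ∈ Φ) : inner ℝ b b ≠ (6 : ℝ) := by
  intro h6
  obtain ⟨-, g, hg, hn⟩ := h.toNRS.nb_six hb h6
  rw [h.nb g hg] at hn
  exact Finset.not_nonempty_empty hn

/-- a long root is a sum of two orthogonal short roots -/
theorem long {b : E} (hb : b ∈ Φ) (hbP : b ∉ Psi Φ) :
    inner ℝ b b = (4 : ℝ) ∧ ∃ g ∈ Psi Φ, ∃ g' ∈ Psi Φ, inner ℝ g g' = (0 : ℝ) ∧ b = g + g' := by
  have h4 : inner ℝ b b = (4 : ℝ) := by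
    rcases h.toNRS.length hb with hl | hl | hl
    · exact absurd (mem_Psi.2 ⟨hb, hl⟩) hbP
    · exact hl
    · exact absurd hl (h.no_six hb)
  refine ⟨h4, ?_⟩
  obtain ⟨g, hg, hbg⟩ := h.toNRS.exists_short hb
  have h3 : inner ℝ b g = (2 : ℝ) := by
    rcases h.toNRS.four hb h4 hg with h3 | h3 | h3
    · rw [h3] at hbg; norm_num at hbg
    · exact h3
    · rw [h3] at hbg; norm_num at hbg
  obtain ⟨h5, h6⟩ := h.toNRS.four_sub hb h4 hg h3
  exact ⟨g, hg, b - g, h5, by rw [real_inner_comm]; exact h6, by abel⟩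

/-- sums of orthogonal short roots are roots -/
theorem add_root {g g' : E} (hg : g ∈ Psi Φ) (hg' : g' ∈ Psi Φ) (hgg : inner ℝ g g' = (0 : ℝ)) : g + g' ∈ Φ := by
  classical
  -- the class of `g`
  set C : Set E := {c | c ∈ Psi Φ ∧ (c = g ∨ c = -g ∨ g + c ∈ Φ)} with hC
  have htr : ∀ c ∈ C, ∀ c' ∈ Psi Φ, inner ℝ c c' = (0 : ℝ) → c + c' ∈ Φ → c' ∈ C := by
    rintro c ⟨hc, hcc⟩ c' hc' horth hsum
    refine ⟨hc', ?_⟩
    by_cases e1 : c' = g
    · exact Or.inl e1
    by_cases e2 : c' = -g
    · exact Or.inr (Or.inl e2)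
    right; right
    have hc'g : inner ℝ c' g = (0 : ℝ) := by
      rcases h.inner_cases hc' hg with h1 | h1 | h1
      · exact absurd h1 e1
      · exact absurd h1 e2
      · exact h1
    rcases hcc with rfl | rfl | hcc
    · exact hsum
    · have h1 := h.refl g (mem_Psi.1 hg).1 _ hsum
      rw [co_Psi hg, inner_add_left, inner_neg_left, hc'g, (mem_Psi.1 hg).2] at h1
      have h2 : g + c' = -g + c' - (-2 + 0 : ℝ) • g := by
        rw [add_zero, neg_smul, two_smul]
        abel
      rw [h2]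
      exact h1
    · by_cases e3 : c = g
      · rw [← e3]; exact hsum
      by_cases e4 : c = -g
      · have h1 := h.refl g (mem_Psi.1 hg).1 _ hsum
        rw [e4, co_Psi hg, inner_add_left, inner_neg_left, hc'g, (mem_Psi.1 hg).2] at h1
        have h2 : g + c' = -g + c' - (-2 + 0 : ℝ) • g := by
          rw [add_zero, neg_smul, two_smul]
          abel
        rw [h2]
        exact h1
      have hcg : inner ℝ c g = (0 : ℝ) := by
        rcases h.inner_cases hc hg with h1 | h1 | h1
        · exact absurd h1 e3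
        · exact absurd h1 e4
        · exact h1
      have hgc : inner ℝ g c = (0 : ℝ) := by rw [real_inner_comm]; exact hcg
      have h1 : g - c ∈ Φ := by
        have h1 := h.refl c (mem_Psi.1 hc).1 _ hcc
        rw [co_Psi hc, inner_add_left, hgc, (mem_Psi.1 hc).2, zero_add, two_smul] at h1
        have h2 : g - c = g + c - (c + c) := by abel
        rw [h2]
        exact h1
      have h2 : inner ℝ (g - c) (c + c') = (-2 : ℝ) := by
        rw [inner_sub_left, inner_add_right, inner_add_right, hgc, horth, (mem_Psi.1 hc).2, real_inner_comm, hc'g]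
        norm_num
      have h3 := h.toRS.add_mem h1 hsum (by rw [h2]; norm_num) (by
        intro hn
        apply e2
        have h4 : g + c' = 0 := by
          have : g + c' = (g - c) + (c + c') := by abel
          rw [this, hn]
          abel
        have h5 : c' = -g + (g + c') := by abel
        rw [h5, h4, add_zero])
      have h4 : g + c' = g - c + (c + c') := by abel
      rw [h4]
      exact h3
  have hnegC : ∀ c ∈ C, -c ∈ C := by
    rintro c ⟨hc, hcc⟩
    refine ⟨h.toNRS.neg_Psi hc, ?_⟩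
    rcases hcc with rfl | rfl | hcc
    · right; left; rfl
    · left; rw [neg_neg]
    · by_cases e3 : c = g
      · right; left; rw [e3]
      by_cases e4 : c = -g
      · left; rw [e4, neg_neg]
      have hgc : inner ℝ g c = (0 : ℝ) := by
        rcases h.inner_cases hc hg with h1 | h1 | h1
        · exact absurd h1 e3
        · exact absurd h1 e4
        · rw [real_inner_comm]; exact h1
      right; right
      have h1 := h.refl c (mem_Psi.1 hc).1 _ hcc
      rw [co_Psi hc, inner_add_left, hgc, (mem_Psi.1 hc).2, zero_add, two_smul] at h1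
      have h2 : g + -c = g + c - (c + c) := by abel
      rw [h2]
      exact h1
  have hgC : g ∈ C := ⟨hg, Or.inl rfl⟩
  have hall := h.irr (Φ.filter fun b => ∃ c ∈ C, inner ℝ b c ≠ (0 : ℝ)) (Finset.filter_subset _ _)
    ⟨g, Finset.mem_filter.2 ⟨(mem_Psi.1 hg).1, g, hgC, by rw [(mem_Psi.1 hg).2]; norm_num⟩⟩ ?_
  · have h1 : g' ∈ Φ.filter fun b => ∃ c ∈ C, inner ℝ b c ≠ (0 : ℝ) := by
      rw [hall]
      exact (mem_Psi.1 hg').1
    obtain ⟨-, c, hc, h2⟩ := Finset.mem_filter.1 h1
    have h3 : g' ∈ C := by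
      rcases h.inner_cases hg' hc.1 with h3 | h3 | h3
      · rw [h3]; exact hc
      · rw [h3]; exact hnegC c hc
      · exact absurd h3 h2
    rcases h3.2 with h4 | h4 | h4
    · rw [h4, (mem_Psi.1 hg).2] at hgg
      norm_num at hgg
    · rw [h4, inner_neg_right, (mem_Psi.1 hg).2] at hgg
      norm_num at hgg
    · exact h4
  · intro b hb d hd hdn
    rw [Finset.mem_filter] at hb hdn
    push Not at hdn
    have hd0 := hdn hd
    have hd0' : ∀ c ∈ C, inner ℝ c d = (0 : ℝ) := fun c hc => by rw [real_inner_comm]; exact hd0 c hc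
    obtain ⟨hb1, c, hc, hbc⟩ := hb
    by_cases hbP : b ∈ Psi Φ
    · rcases h.inner_cases hbP hc.1 with h3 | h3 | h3
      · rw [h3]; exact hd0' c hc
      · rw [h3, inner_neg_left, hd0' c hc, neg_zero]
      · exact absurd h3 hbc
    · obtain ⟨h4, -⟩ := h.long hb1 hbP
      have key : ∀ c ∈ C, inner ℝ b c = (2 : ℝ) → inner ℝ b d = (0 : ℝ) := by
        intro c hc h3
        obtain ⟨h5, h6⟩ := h.toNRS.four_sub hb1 h4 hc.1 h3
        have h7 : b - c ∈ C := htr c hc (b - c) h5 (by rw [real_inner_comm]; exact h6) (by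
          have : c + (b - c) = b := by abel
          rw [this]; exact hb1)
        have h8 : b = c + (b - c) := by abel
        rw [h8, inner_add_left, hd0' c hc, hd0' _ h7, add_zero]
      rcases h.toNRS.four hb1 h4 hc.1 with h3 | h3 | h3
      · exact absurd h3 hbc
      · exact key c hc h3
      · exact key (-c) (hnegC c hc) (by rw [inner_neg_right, h3]; norm_num)

theorem sub_root {g g' : E} (hg : g ∈ Psi Φ) (hg' : g' ∈ Psi Φ) (hgg : inner ℝ g g' = (0 : ℝ)) : g - g' ∈ Φ := by
  rw [sub_eq_add_neg]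
  exact h.add_root hg (h.toNRS.neg_Psi hg') (by rw [inner_neg_right, hgg, neg_zero])

/-- the elements of the root lattice have even pairings with the short roots -/
theorem even {x : E} (hx : x ∈ AddSubgroup.closure (Φ : Set E)) {g : E} (hg : g ∈ Psi Φ) :
    ∃ k : ℤ, inner ℝ x g = 2 * (k : ℝ) := by
  have hx' := h.toNRS.closure_le hx
  induction hx' using AddSubgroup.closure_induction with
  | mem a ha =>
    rcases h.inner_cases ha hg with h1 | h1 | h1
    · exact ⟨1, by rw [h1, (mem_Psi.1 hg).2]; norm_num⟩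
    · exact ⟨-1, by rw [h1, inner_neg_left, (mem_Psi.1 hg).2]; norm_num⟩
    · exact ⟨0, by rw [h1]; norm_num⟩
  | zero => exact ⟨0, by rw [inner_zero_left]; norm_num⟩
  | add a b ha' hb' iha ihb =>
    have hsub : AddSubgroup.closure (Psi Φ : Set E) ≤ AddSubgroup.closure (Φ : Set E) :=
      AddSubgroup.closure_mono (fun c hc => (mem_Psi.1 hc).1)
    obtain ⟨k, hk⟩ := iha (hsub ha')
    obtain ⟨l, hl⟩ := ihb (hsub hb')
    exact ⟨k + l, by rw [inner_add_left, hk, hl]; push_cast; ring⟩
  | neg a ha' iha =>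
    have hsub : AddSubgroup.closure (Psi Φ : Set E) ≤ AddSubgroup.closure (Φ : Set E) :=
      AddSubgroup.closure_mono (fun c hc => (mem_Psi.1 hc).1)
    obtain ⟨k, hk⟩ := iha (hsub ha')
    exact ⟨-k, by rw [inner_neg_left, hk]; push_cast; ring⟩

/-- the long roots that touch `g` -/
theorem card_L4_eq {g : E} (hg : g ∈ Psi Φ) : (L4 Φ g).card + 2 = (Psi Φ).card := by
  classical
  have h1 := (h.toNRS.SL hg).card_split hg
  rw [h.nb g hg, Finset.card_empty] at h1
  have h2 : (L4 Φ g).card = ((Psi Φ).filter fun d => inner ℝ d g = (0 : ℝ)).card := by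
    refine Finset.card_nbij' (fun b => b - g) (fun d => d + g) ?_ ?_ (fun b _ => sub_add_cancel b g)
      (fun d _ => add_sub_cancel_right d g)
    · intro b hb
      have hb' := mem_L4.1 (Finset.mem_coe.1 hb)
      obtain ⟨h3, h4⟩ := h.toNRS.four_sub hb'.1 hb'.2.1 hg hb'.2.2
      exact Finset.mem_coe.2 (Finset.mem_filter.2 ⟨h3, h4⟩)
    · intro d hd
      have hd' := Finset.mem_filter.1 (Finset.mem_coe.1 hd)
      have hgd : inner ℝ g d = (0 : ℝ) := by rw [real_inner_comm]; exact hd'.2
      refine Finset.mem_coe.2 (mem_L4.2 ⟨h.add_root hd'.1 hg hd'.2, ?_, ?_⟩)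
      · rw [inner_add_left, inner_add_right, inner_add_right, hd'.2, hgd, (mem_Psi.1 hg).2, (mem_Psi.1 hd'.1).2]
        norm_num
      · rw [inner_add_left, hd'.2, (mem_Psi.1 hg).2]
        norm_num
  rw [h2, h1]
  ring

theorem qs_bound {a : E} (ha : a ∈ Φ) : qs Φ a ≤ ((Psi Φ).card : ℝ) - 1 := by
  have hs : ∀ d ∈ Psi Φ, qs Φ d ≤ ((Psi Φ).card : ℝ) - 1 := by
    intro d hd
    have h1 := h.toNRS.qs_short hd
    have h3 : L6 Φ d = ∅ := by
      rw [Finset.eq_empty_iff_forall_notMem]
      intro b hb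
      rw [mem_L6] at hb
      exact h.no_six hb.1 hb.2.1
    have h4 : ((L4 Φ d).card : ℝ) + 2 = (Psi Φ).card := by exact_mod_cast h.card_L4_eq hd
    rw [h3, h.nb d hd, Finset.card_empty] at h1
    push_cast at h1
    linarith
  rcases h.length ha with hl | hl | hl
  · exact hs a (mem_Psi.2 ⟨ha, hl⟩)
  · obtain ⟨d, hd, had⟩ := h.toNRS.exists_short ha
    have h3 : inner ℝ a d = (2 : ℝ) := by
      rcases h.toNRS.four ha hl hd with h3 | h3 | h3
      · rw [h3] at had; norm_num at had
      · exact h3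
      · rw [h3] at had; norm_num at had
    have h5 := (h.toNRS.four_sub ha hl hd h3).1
    have h7 := h.toNRS.qs_four ha hl hd h5
    have h8 := hs d hd
    have h9 := hs _ h5
    linarith
  · exact absurd hl (h.no_six ha)

/-- the number of long roots -/
theorem card_long : (Psi Φ).card * ((Psi Φ).card - 2) ≤
    2 * (Φ.filter fun b => inner ℝ b b = (4 : ℝ)).card := by
  classical
  set R : Finset (E × E) := (Psi Φ ×ˢ Φ).filter fun q => inner ℝ q.2 q.2 = (4 : ℝ) ∧ inner ℝ q.2 q.1 = (2 : ℝ)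
    with hR
  have h1 : R.card = ∑ g ∈ Psi Φ, (L4 Φ g).card := by
    rw [hR, Finset.card_filter, Finset.sum_product]
    refine Finset.sum_congr rfl fun g _ => ?_
    rw [L4, Finset.card_filter]
  have h2 : ∀ g ∈ Psi Φ, (L4 Φ g).card = (Psi Φ).card - 2 := fun g hg => by
    have := h.card_L4_eq hg
    omega
  rw [Finset.sum_congr rfl h2, Finset.sum_const, smul_eq_mul] at h1
  rw [← h1]
  refine Finset.card_le_mul_card_image_of_maps_to (f := fun q : E × E => q.2) ?_ 2 ?_
  · intro q hq
    rw [hR, Finset.mem_filter, Finset.mem_product] at hq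
    exact Finset.mem_filter.2 ⟨hq.1.2, hq.2.1⟩
  · intro b hb
    rw [Finset.mem_filter] at hb
    obtain ⟨-, g, hg, g', hg', hgg, hbg⟩ := h.long hb.1 (fun hbP => by
      have := (mem_Psi.1 hbP).2
      rw [hb.2] at this
      norm_num at this)
    refine (Finset.card_le_card (t := {(g, b), (g', b)}) ?_).trans Finset.card_le_two
    rintro ⟨q, q'⟩ hq
    rw [Finset.mem_filter, hR, Finset.mem_filter, Finset.mem_product] at hq
    obtain ⟨⟨⟨hq1, -⟩, -, hq2⟩, hq3⟩ := hq
    simp only at hq1 hq2 hq3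
    subst hq3
    rw [Finset.mem_insert, Finset.mem_singleton]
    rcases h.inner_cases hq1 hg with e | e | e
    · left; rw [e]
    · exfalso
      rw [hbg, e, inner_neg_right, inner_add_left, (mem_Psi.1 hg).2, real_inner_comm, hgg] at hq2
      norm_num at hq2
    · rcases h.inner_cases hq1 hg' with e' | e' | e'
      · right; rw [e']
      · exfalso
        rw [hbg, e', inner_neg_right, inner_add_left, (mem_Psi.1 hg').2, hgg] at hq2
        norm_num at hq2
      · exfalso
        rw [hbg, inner_add_left, real_inner_comm, e, real_inner_comm, e'] at hq2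
        norm_num at hq2

/-! ### The weights -/

/-- two large pairings -/
theorem two_big (hX : Sat Φ X) (h0 : (0 : E) ∈ X) {x g g' : E} (hx : x ∈ X) (hg : g ∈ Psi Φ) (hg' : g' ∈ Psi Φ)
    (hgg : inner ℝ g g' = (0 : ℝ)) (h1 : (2 : ℝ) ≤ inner ℝ x g) (h2 : (2 : ℝ) ≤ inner ℝ x g') : g + g' ∈ X := by
  classical
  have hg2 := (mem_Psi.1 hg).2
  have hg2' := (mem_Psi.1 hg').2
  have hgg' : inner ℝ g' g = (0 : ℝ) := by rw [real_inner_comm]; exact hgg
  obtain ⟨y, hy, hmin⟩ := Finset.exists_min_image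
    (X.filter fun x => (2 : ℝ) ≤ inner ℝ x g ∧ (2 : ℝ) ≤ inner ℝ x g') (fun x => (inner ℝ x x : ℝ))
    ⟨x, Finset.mem_filter.2 ⟨hx, h1, h2⟩⟩
  rw [Finset.mem_filter] at hy
  obtain ⟨hyX, hy1, hy2⟩ := hy
  have hyc : y ∈ AddSubgroup.closure (Φ : Set E) := by
    have := hX.coset y hyX 0 h0
    rwa [sub_zero] at this
  have hstr : ∀ c ∈ Psi Φ, (2 : ℝ) ≤ inner ℝ y c → y - c ∈ X := by
    intro c hc h3
    have := hX.str c (mem_Psi.1 hc).1 y hyX 1 (by rw [co_Psi hc]; push_cast; linarith)
    rwa [Nat.cast_one, one_smul] at this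
  have hnorm : ∀ c ∈ Psi Φ, inner ℝ (y - c) (y - c) = (inner ℝ y y : ℝ) - 2 * inner ℝ y c + 2 := by
    intro c hc
    rw [inner_sub_left, inner_sub_right, inner_sub_right, real_inner_comm y c, (mem_Psi.1 hc).2]
    ring
  have hc0 : ∀ c ∈ Psi Φ, inner ℝ c g = (0 : ℝ) → inner ℝ c g' = (0 : ℝ) → inner ℝ y c < (2 : ℝ) := by
    intro c hc hcg hcg'
    by_contra hcon
    push Not at hcon
    have h3 := hmin (y - c) (Finset.mem_filter.2 ⟨hstr c hc hcon, by
      rw [inner_sub_left, hcg, sub_zero]; exact hy1, by rw [inner_sub_left, hcg', sub_zero]; exact hy2⟩)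
    rw [hnorm c hc] at h3
    linarith
  have hyg : inner ℝ y g = (2 : ℝ) := by
    obtain ⟨k, hk⟩ := h.even hyc hg
    by_contra hne
    have h3 : (4 : ℝ) ≤ inner ℝ y g := by
      have h4 : (1 : ℝ) ≤ k := by linarith
      have h5 : 1 ≤ k := by exact_mod_cast h4
      have h6 : k ≠ 1 := by
        rintro rfl
        exact hne (by rw [hk]; norm_num)
      have h7 : 2 ≤ k := by omega
      have h8 : (2 : ℝ) ≤ k := by exact_mod_cast h7
      linarith
    have h4 := hmin (y - g) (Finset.mem_filter.2 ⟨hstr g hg hy1, by rw [inner_sub_left, hg2]; linarith, by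
      rw [inner_sub_left, hgg, sub_zero]; exact hy2⟩)
    rw [hnorm g hg] at h4
    linarith
  have hyg' : inner ℝ y g' = (2 : ℝ) := by
    obtain ⟨k, hk⟩ := h.even hyc hg'
    by_contra hne
    have h3 : (4 : ℝ) ≤ inner ℝ y g' := by
      have h4 : (1 : ℝ) ≤ k := by linarith
      have h5 : 1 ≤ k := by exact_mod_cast h4
      have h6 : k ≠ 1 := by
        rintro rfl
        exact hne (by rw [hk]; norm_num)
      have h7 : 2 ≤ k := by omega
      have h8 : (2 : ℝ) ≤ k := by exact_mod_cast h7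
      linarith
    have h4 := hmin (y - g') (Finset.mem_filter.2 ⟨hstr g' hg' hy2, by
      rw [inner_sub_left, hgg', sub_zero]; exact hy1, by rw [inner_sub_left, hg2']; linarith⟩)
    rw [hnorm g' hg'] at h4
    linarith
  have hz : y - (g + g') = 0 := by
    by_contra hz
    obtain ⟨c, hc, h3⟩ := h.toNRS.exists_two_le (x := y - (g + g')) (AddSubgroup.sub_mem _ hyc
      (AddSubgroup.add_mem _ (AddSubgroup.subset_closure (mem_Psi.1 hg).1)
        (AddSubgroup.subset_closure (mem_Psi.1 hg').1))) hz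
    have e1 : inner ℝ (y - (g + g')) g = (0 : ℝ) := by
      rw [inner_sub_left, inner_add_left, hyg, hg2, hgg']; norm_num
    have e2 : inner ℝ (y - (g + g')) g' = (0 : ℝ) := by
      rw [inner_sub_left, inner_add_left, hyg', hg2', hgg]; norm_num
    rcases h.inner_cases hc hg with e | e | e
    · rw [e, e1] at h3; norm_num at h3
    · rw [e, inner_neg_right, e1] at h3; norm_num at h3
    · rcases h.inner_cases hc hg' with e' | e' | e'
      · rw [e', e2] at h3; norm_num at h3
      · rw [e', inner_neg_right, e2] at h3; norm_num at h3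
      · have h4 := hc0 c hc e e'
        rw [inner_sub_left, inner_add_left, real_inner_comm, real_inner_comm c g', e', real_inner_comm c g, e] at h3
        rw [real_inner_comm] at h4
        linarith
  rw [← sub_eq_zero.1 hz]
  exact hyX

/-- a weight that is neither zero nor a short root forces a long root among the weights -/
theorem exists_long (hX : Sat Φ X) (h0 : (0 : E) ∈ X) {p p' : E} (hp : p ∈ Psi Φ) (hp' : p' ∈ Psi Φ)
    (hpp : inner ℝ p p' = (0 : ℝ)) {x : E} (hx : x ∈ X) (hx0 : x ≠ 0) (hxP : x ∉ Psi Φ) :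
    ∃ g ∈ Psi Φ, ∃ g' ∈ Psi Φ, inner ℝ g g' = (0 : ℝ) ∧ g + g' ∈ X := by
  have hxc : x ∈ AddSubgroup.closure (Φ : Set E) := by
    have := hX.coset x hx 0 h0
    rwa [sub_zero] at this
  obtain ⟨g, hg, h1⟩ := h.toNRS.exists_two_le hxc hx0
  have hg2 := (mem_Psi.1 hg).2
  by_cases hall : ∀ c ∈ Psi Φ, inner ℝ g c = (0 : ℝ) → inner ℝ x c = (0 : ℝ)
  · obtain ⟨k, hk⟩ := h.even hxc hg
    have hk1 : 1 ≤ k := by
      have : (1 : ℝ) ≤ k := by linarith
      exact_mod_cast this
    have hk2 : k ≠ 1 := by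
      rintro rfl
      apply hxP
      have hz : x - g = 0 := by
        by_contra hz
        obtain ⟨c, hc, h3⟩ := h.toNRS.exists_two_le (x := x - g) (AddSubgroup.sub_mem _ hxc
          (AddSubgroup.subset_closure (mem_Psi.1 hg).1)) hz
        have e1 : inner ℝ (x - g) g = (0 : ℝ) := by
          rw [inner_sub_left, hk, hg2]; norm_num
        rcases h.inner_cases hc hg with e | e | e
        · rw [e, e1] at h3; norm_num at h3
        · rw [e, inner_neg_right, e1] at h3; norm_num at h3
        · have e' : inner ℝ g c = (0 : ℝ) := by rw [real_inner_comm]; exact e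
          rw [inner_sub_left, hall c hc e', e'] at h3
          norm_num at h3
      rw [sub_eq_zero.1 hz]
      exact hg
    have hk3 : (2 : ℝ) ≤ k := by
      have : 2 ≤ k := by omega
      exact_mod_cast this
    obtain ⟨g', hg', hgg⟩ : ∃ g' ∈ Psi Φ, inner ℝ g g' = (0 : ℝ) := by
      rcases h.inner_cases hg hp with e | e | e
      · exact ⟨p', hp', by rw [e]; exact hpp⟩
      · exact ⟨p', hp', by rw [e, inner_neg_left, hpp, neg_zero]⟩
      · exact ⟨p, hp, e⟩
    have hg2' := (mem_Psi.1 hg').2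
    have hgg' : inner ℝ g' g = (0 : ℝ) := by rw [real_inner_comm]; exact hgg
    have hb : g - g' ∈ Φ := h.sub_root hg hg' hgg
    have hbb : inner ℝ (g - g') (g - g') = (4 : ℝ) := by
      rw [inner_sub_left, inner_sub_right, inner_sub_right, hgg, hgg', hg2, hg2']
      norm_num
    have hxg' := hall g' hg' hgg
    have h3 : x - (g - g') ∈ X := by
      have := hX.str _ hb x hx 1 (by
        unfold co
        rw [hbb, inner_sub_right, hk, hxg']
        push_cast
        linarith)
      rwa [Nat.cast_one, one_smul] at this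
    refine ⟨g, hg, g', hg', hgg, h.two_big hX h0 h3 hg hg' hgg ?_ ?_⟩
    · rw [inner_sub_left, inner_sub_left, hk, hg2, hgg']
      linarith
    · rw [inner_sub_left, inner_sub_left, hxg', hgg, hg2']
      norm_num
  · push Not at hall
    obtain ⟨c, hc, hgc, hxc0⟩ := hall
    obtain ⟨k, hk⟩ := h.even hxc hc
    have hk0 : k ≠ 0 := by
      rintro rfl
      exact hxc0 (by rw [hk]; norm_num)
    rcases lt_or_gt_of_ne hk0 with h3 | h3
    · have h4 : (k : ℝ) ≤ -1 := by
        have : k ≤ -1 := by omega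
        exact_mod_cast this
      have hgc' : inner ℝ g (-c) = (0 : ℝ) := by rw [inner_neg_right, hgc, neg_zero]
      exact ⟨g, hg, -c, h.toNRS.neg_Psi hc, hgc', h.two_big hX h0 hx hg (h.toNRS.neg_Psi hc) hgc' h1
        (by rw [inner_neg_right, hk]; linarith)⟩
    · have h4 : (1 : ℝ) ≤ k := by
        have : 1 ≤ k := by omega
        exact_mod_cast this
      exact ⟨g, hg, c, hc, hgc, h.two_big hX h0 hx hg hc hgc h1 (by rw [hk]; linarith)⟩

/-- one long weight gives all of them -/
theorem all_long (hX : Sat Φ X) {p p' : E} (hp : p ∈ Psi Φ) (hp' : p' ∈ Psi Φ) (hpp : inner ℝ p p' = (0 : ℝ))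
    (hsum : p + p' ∈ X) {b : E} (hb : b ∈ Φ) (h4 : inner ℝ b b = (4 : ℝ)) : b ∈ X := by
  have hlin : ∀ a x y : E, (x + y) - co a (x + y) • a = (x - co a x • a) + (y - co a y • a) := by
    intro a x y
    have h1 : co a (x + y) = co a x + co a y := by
      unfold co
      rw [inner_add_left]
      ring
    rw [h1, add_smul]
    abel
  have hinv : ∀ a ∈ Φ, ∀ x : E, (x - co a x • a) - co a (x - co a x • a) • a = x := by
    intro a ha x
    have h1 : co a (x - co a x • a) = -co a x := by
      have h2 := h.toRS.co_self ha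
      have h0 := (h.toRS.inner_pos ha).ne'
      unfold co at h2 ⊢
      rw [inner_sub_left, inner_smul_left]
      simp only [conj_trivial]
      field_simp
      ring
    rw [h1, neg_smul]
    abel
  have hpP : ∀ c ∈ Psi Φ, inner ℝ p c = (0 : ℝ) → p + c ∈ X := by
    intro c hc hpc
    rcases h.inner_cases hc hp' with e | e | e
    · rw [e]; exact hsum
    · have h1 := hX.refl (mem_Psi.1 hp').1 (h.toRS.neg_mem (mem_Psi.1 hp').1) hsum
      rw [co_Psi hp', inner_add_left, hpp, (mem_Psi.1 hp').2, zero_add, two_smul] at h1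
      have h2 : p + c = p + p' - (p' + p') := by rw [e]; abel
      rw [h2]
      exact h1
    · have hb' : p' - c ∈ Φ := h.sub_root hp' hc (by rw [real_inner_comm]; exact e)
      have hbb : inner ℝ (p' - c) (p' - c) = (4 : ℝ) := by
        rw [inner_sub_left, inner_sub_right, inner_sub_right, e, real_inner_comm c p', e, (mem_Psi.1 hp').2,
          (mem_Psi.1 hc).2]
        norm_num
      have h1 := hX.refl hb' (h.toRS.neg_mem hb') hsum
      have h2 : co (p' - c) (p + p') = 1 := by
        unfold co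
        rw [hbb, inner_sub_right, inner_add_left, inner_add_left, hpp, (mem_Psi.1 hp').2, hpc, real_inner_comm, e]
        norm_num
      rw [h2, one_smul] at h1
      have h3 : p + c = p + p' - (p' - c) := by abel
      rw [h3]
      exact h1
  have horb := h.toNRS.orbit (S := {g | g ∈ Psi Φ ∧ ∀ c ∈ Psi Φ, inner ℝ g c = (0 : ℝ) → g + c ∈ X})
    (fun e he => he.1) ⟨p, hp, hpP⟩ (by
      rintro a ha s ⟨hs, hsP⟩
      refine ⟨h.toNRS.refl_Psi ha hs, fun c hc hsc => ?_⟩
      have h1 : inner ℝ s (c - co a c • a) = (0 : ℝ) := by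
        rw [← h.toRS.inner_refl ha, hinv a ha c]
        exact hsc
      have h2 := hX.refl ha (h.toRS.neg_mem ha) (hsP _ (h.toNRS.refl_Psi ha hc) h1)
      rw [hlin, hinv a ha c] at h2
      exact h2)
  obtain ⟨-, g, hg, g', hg', hgg, hbg⟩ := h.long hb (fun hbP => by
    have := (mem_Psi.1 hbP).2
    rw [h4] at this
    norm_num at this)
  have h1 : g ∈ (Psi Φ : Set E) := hg
  rw [← horb] at h1
  rw [hbg]
  exact h1.2 g' hg' hgg

/-- the count in a plane -/
theorem card_sq (hX : Sat Φ X) {x g g' : E} {B : ℕ} (hx : x ∈ X) (hg : g ∈ Psi Φ) (hg' : g' ∈ Psi Φ)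
    (hgg : inner ℝ g g' = (0 : ℝ)) (h1 : inner ℝ x g = 2 * (B : ℝ)) (h2 : inner ℝ x g' ≤ (0 : ℝ)) :
    (B + 1) ^ 2 ≤ X.card := by
  classical
  have hg2 := (mem_Psi.1 hg).2
  have hg2' := (mem_Psi.1 hg').2
  have hgg' : inner ℝ g' g = (0 : ℝ) := by rw [real_inner_comm]; exact hgg
  have hb : g - g' ∈ Φ := h.sub_root hg hg' hgg
  have hbb : inner ℝ (g - g') (g - g') = (4 : ℝ) := by
    rw [inner_sub_left, inner_sub_right, inner_sub_right, hgg, hgg', hg2, hg2']
    norm_num
  set T : Finset (Σ _ : ℕ, ℕ) := (Finset.range (B + 1)).sigma fun j => Finset.range (2 * j + 1) with hT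
  have h3 : T.card = (B + 1) ^ 2 := by
    rw [hT, Finset.card_sigma]
    simp only [Finset.card_range]
    have : ∀ m : ℕ, ∑ j ∈ Finset.range (m + 1), (2 * j + 1) = (m + 1) ^ 2 := by
      intro m
      induction m with
      | zero => simp
      | succ m ih =>
        rw [Finset.sum_range_succ, ih]
        ring
    exact this B
  rw [← h3]
  refine Finset.card_le_card_of_injOn
    (fun q : Σ _ : ℕ, ℕ => x - ((B - q.1 : ℕ) : ℝ) • (g - g') - (q.2 : ℝ) • g) ?_ ?_
  · rintro ⟨j, i⟩ hq
    have hq' : j < B + 1 ∧ i < 2 * j + 1 := by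
      have := hq
      rw [hT] at this
      simpa using this
    have hj : ((B - j : ℕ) : ℝ) = B - j := by
      rw [Nat.cast_sub (by omega)]
    have h4 : x - ((B - j : ℕ) : ℝ) • (g - g') ∈ X := by
      refine hX.str _ hb x hx _ ?_
      unfold co
      rw [hbb, inner_sub_right, h1, hj]
      have : (0 : ℝ) ≤ j := Nat.cast_nonneg j
      linarith
    refine hX.str g (mem_Psi.1 hg).1 _ h4 i ?_
    rw [co_Psi hg, inner_sub_left, inner_smul_left, inner_sub_left, h1, hg2, hgg', hj]
    simp only [conj_trivial]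
    have : (i : ℝ) ≤ 2 * j := by exact_mod_cast Nat.lt_succ_iff.1 hq'.2
    linarith
  · rintro ⟨j, i⟩ hq ⟨j', i'⟩ hq' hh
    have hq1 : j < B + 1 := by
      have := hq
      rw [hT] at this
      simp only [Finset.coe_sigma, Set.mem_sigma_iff, Finset.coe_range, Set.mem_Iio] at this
      exact this.1
    have hq1' : j' < B + 1 := by
      have := hq'
      rw [hT] at this
      simp only [Finset.coe_sigma, Set.mem_sigma_iff, Finset.coe_range, Set.mem_Iio] at this
      exact this.1
    have hh1 : x - ((B - j : ℕ) : ℝ) • (g - g') - (i : ℝ) • g =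
        x - ((B - j' : ℕ) : ℝ) • (g - g') - (i' : ℝ) • g := hh
    have e1 : inner ℝ (x - ((B - j : ℕ) : ℝ) • (g - g') - (i : ℝ) • g) g' =
        (inner ℝ x g' : ℝ) + 2 * ((B - j : ℕ) : ℝ) := by
      rw [inner_sub_left, inner_sub_left, inner_smul_left, inner_smul_left, inner_sub_left, hgg, hg2']
      simp only [conj_trivial]
      ring
    have e2 : inner ℝ (x - ((B - j' : ℕ) : ℝ) • (g - g') - (i' : ℝ) • g) g' =
        (inner ℝ x g' : ℝ) + 2 * ((B - j' : ℕ) : ℝ) := by
      rw [inner_sub_left, inner_sub_left, inner_smul_left, inner_smul_left, inner_sub_left, hgg, hg2']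
      simp only [conj_trivial]
      ring
    have e3 : inner ℝ (x - ((B - j : ℕ) : ℝ) • (g - g') - (i : ℝ) • g) g =
        (inner ℝ x g : ℝ) - 2 * ((B - j : ℕ) : ℝ) - 2 * i := by
      rw [inner_sub_left, inner_sub_left, inner_smul_left, inner_smul_left, inner_sub_left, hgg', hg2]
      simp only [conj_trivial]
      ring
    have e4 : inner ℝ (x - ((B - j' : ℕ) : ℝ) • (g - g') - (i' : ℝ) • g) g =
        (inner ℝ x g : ℝ) - 2 * ((B - j' : ℕ) : ℝ) - 2 * i' := by
      rw [inner_sub_left, inner_sub_left, inner_smul_left, inner_smul_left, inner_sub_left, hgg', hg2]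
      simp only [conj_trivial]
      ring
    rw [hh1, e2] at e1
    rw [hh1, e4] at e3
    have e5 : ((B - j : ℕ) : ℝ) = ((B - j' : ℕ) : ℝ) := by linarith
    have e6 : (i : ℝ) = i' := by linarith
    have e7 : B - j = B - j' := by exact_mod_cast e5
    have e8 : i = i' := by exact_mod_cast e6
    have e9 : j = j' := by omega
    rw [e9, e8]

/-- half of the short roots -/
theorem exists_half : ∃ T ⊆ Psi Φ, (∀ g ∈ T, -g ∉ T) ∧ ∀ g ∈ Psi Φ, g ∈ T ∨ -g ∈ T := by
  classical
  obtain ⟨T, hT, hmax⟩ := Finset.exists_max_image ((Psi Φ).powerset.filter fun T => ∀ g ∈ T, -g ∉ T)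
    Finset.card ⟨∅, by simp⟩
  rw [Finset.mem_filter, Finset.mem_powerset] at hT
  refine ⟨T, hT.1, hT.2, ?_⟩
  intro g hg
  by_contra hcon
  push Not at hcon
  have hne : g ≠ -g := by
    intro hn
    have h2 : inner ℝ g g = (inner ℝ g (-g) : ℝ) := by rw [← hn]
    rw [inner_neg_right, (mem_Psi.1 hg).2] at h2
    norm_num at h2
  have h1 : insert g T ∈ (Psi Φ).powerset.filter fun T => ∀ g ∈ T, -g ∉ T := by
    rw [Finset.mem_filter, Finset.mem_powerset]
    refine ⟨Finset.insert_subset hg hT.1, ?_⟩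
    intro g' hg' hn
    rcases Finset.mem_insert.1 hg' with rfl | h2
    · rcases Finset.mem_insert.1 hn with h3 | h3
      · exact hne h3.symm
      · exact hcon.2 h3
    · rcases Finset.mem_insert.1 hn with h3 | h3
      · have h4 : -g = g' := by rw [← h3, neg_neg]
        rw [h4] at hcon
        exact hcon.2 h2
      · exact hT.2 g' h2 h3
  have h2 := hmax _ h1
  rw [Finset.card_insert_of_notMem hcon.1] at h2
  omega

end ORS

/-- B6: zero is a weight, no neighbours -/
theorem Sat.comb_orth (h : NRS Φ) (hX : Sat Φ X) (h0 : (0 : E) ∈ X) (hne : ∃ x ∈ X, x ≠ 0)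
    (hu : ∀ g ∈ Psi Φ, Nb Φ g = ∅) {p : ℕ} (hp : 25 * X.card ≤ p ^ 2) {a x : E} (ha : a ∈ Φ) (hx : x ∈ X)
    (hb : (p : ℝ) ≤ co a x + qs Φ a) : TypeA Φ ∨ TypeB Φ X := by
  classical
  have H : ORS Φ := ⟨h, hu⟩
  have hsub := hX.psi_sub h h0 hne
  by_cases hpair : ∃ g ∈ Psi Φ, ∃ g' ∈ Psi Φ, inner ℝ g g' = (0 : ℝ)
  swap
  · left
    push Not at hpair
    obtain ⟨g, hg⟩ := h.Psi_nonempty
    refine ⟨g, fun y => ⟨fun hy => ?_, ?_⟩⟩
    · by_cases hyP : y ∈ Psi Φ
      · rcases H.inner_cases hyP hg with e | e | e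
        · exact Or.inl e
        · exact Or.inr e
        · exact absurd e (hpair y hyP g hg)
      · obtain ⟨-, c, hc, c', hc', hcc, -⟩ := H.long hy hyP
        exact absurd hcc (hpair c hc c' hc')
    · rintro (rfl | rfl)
      · exact (mem_Psi.1 hg).1
      · exact h.toRS.neg_mem (mem_Psi.1 hg).1
  right
  obtain ⟨q, hq, q', hq', hqq⟩ := hpair
  by_cases hbig : ∃ y ∈ X, y ≠ 0 ∧ y ∉ Psi Φ
  · exfalso
    obtain ⟨y, hy, hy0, hyP⟩ := hbig
    obtain ⟨g, hg, g', hg', hgg, hsum⟩ := H.exists_long hX h0 hq hq' hqq hy hy0 hyP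
    -- the number of weights
    have hcard : 1 + (Psi Φ).card + (Φ.filter fun b => inner ℝ b b = (4 : ℝ)).card ≤ X.card := by
      have h1 : insert (0 : E) (Psi Φ ∪ Φ.filter fun b => inner ℝ b b = (4 : ℝ)) ⊆ X := by
        intro z hz
        rcases Finset.mem_insert.1 hz with rfl | hz
        · exact h0
        rcases Finset.mem_union.1 hz with hz | hz
        · exact hsub hz
        · rw [Finset.mem_filter] at hz
          exact H.all_long hX hg hg' hgg hsum hz.1 hz.2
      have h2 := Finset.card_le_card h1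
      rw [Finset.card_insert_of_notMem, Finset.card_union_of_disjoint] at h2
      · omega
      · rw [Finset.disjoint_left]
        intro z hz hz'
        have h3 := (mem_Psi.1 hz).2
        rw [(Finset.mem_filter.1 hz').2] at h3
        norm_num at h3
      · intro hz
        rcases Finset.mem_union.1 hz with hz | hz
        · have := (mem_Psi.1 hz).2
          rw [inner_zero_left] at this
          norm_num at this
        · have := (Finset.mem_filter.1 hz).2
          rw [inner_zero_left] at this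
          norm_num at this
    have hlong := H.card_long
    -- the maximal pairing
    obtain ⟨m, hm, hmax⟩ := Finset.exists_max_image (X ×ˢ Psi Φ) (fun q => (inner ℝ q.1 q.2 : ℝ))
      ⟨(0, g), Finset.mem_product.2 ⟨h0, hg⟩⟩
    rw [Finset.mem_product] at hm
    have hmax' : ∀ y ∈ X, ∀ d ∈ Psi Φ, inner ℝ y d ≤ (inner ℝ m.1 m.2 : ℝ) := fun y hy d hd =>
      hmax (y, d) (Finset.mem_product.2 ⟨hy, hd⟩)
    have hA2 : 2 ≤ (inner ℝ m.1 m.2 : ℝ) := by
      have := hmax' g (hsub hg) g hg
      rwa [(mem_Psi.1 hg).2] at this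
    have hmc : m.1 ∈ AddSubgroup.closure (Φ : Set E) := by
      have := hX.coset m.1 hm.1 0 h0
      rwa [sub_zero] at this
    obtain ⟨k, hk⟩ := H.even hmc hm.2
    have hk0 : 0 ≤ k := by
      have : (0 : ℝ) ≤ k := by linarith
      exact_mod_cast this
    obtain ⟨B, rfl⟩ := Int.eq_ofNat_of_zero_le hk0
    have hkB : inner ℝ m.1 m.2 = 2 * (B : ℝ) := by rw [hk]; norm_cast
    obtain ⟨c, hc, hmc0, hmc1⟩ : ∃ c ∈ Psi Φ, inner ℝ m.2 c = (0 : ℝ) ∧ inner ℝ m.1 c ≤ (0 : ℝ) := by
      obtain ⟨c, hc, hmc⟩ : ∃ c ∈ Psi Φ, inner ℝ m.2 c = (0 : ℝ) := by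
        rcases H.inner_cases hm.2 hq with e | e | e
        · exact ⟨q', hq', by rw [e]; exact hqq⟩
        · exact ⟨q', hq', by rw [e, inner_neg_left, hqq, neg_zero]⟩
        · exact ⟨q, hq, e⟩
      rcases le_total (inner ℝ m.1 c : ℝ) 0 with e | e
      · exact ⟨c, hc, hmc, e⟩
      · exact ⟨-c, h.neg_Psi hc, by rw [inner_neg_right, hmc, neg_zero], by rw [inner_neg_right]; linarith⟩
    have hsq := H.card_sq hX hm.1 hm.2 hc hmc0 hkB hmc1
    have hco : co a x ≤ 2 * (B : ℝ) := by
      rw [← hkB]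
      exact h.co_le (fun d hd => hmax' x hx d hd) ha
    have hqs := H.qs_bound ha
    have hpR : (25 : ℝ) * X.card ≤ (p : ℝ) ^ 2 := by exact_mod_cast hp
    have hp0 : (0 : ℝ) ≤ p := Nat.cast_nonneg p
    set M : ℕ := (Psi Φ).card with hM
    have hM2 : 2 ≤ M := by
      have := H.card_L4_eq hg
      omega
    obtain ⟨M', hM'⟩ : ∃ M', M = M' + 2 := ⟨M - 2, by omega⟩
    rw [hM', Nat.add_sub_cancel] at hlong
    rw [hM'] at hcard
    have hlongR : ((M' : ℝ) + 2) * M' ≤ 2 * ((Φ.filter fun b => inner ℝ b b = (4 : ℝ)).card : ℝ) := by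
      exact_mod_cast hlong
    have hcardR : (1 : ℝ) + (M' + 2) + ((Φ.filter fun b => inner ℝ b b = (4 : ℝ)).card : ℝ) ≤ X.card := by
      exact_mod_cast hcard
    have hsqR : ((B : ℝ) + 1) ^ 2 ≤ X.card := by exact_mod_cast hsq
    have hMR : (M : ℝ) = M' + 2 := by rw [hM']; push_cast; ring
    have h3 : (p : ℝ) ≤ 2 * B + M' + 1 := by linarith
    have h4 : (p : ℝ) ^ 2 ≤ (2 * B + M' + 1) ^ 2 := pow_le_pow_left₀ hp0 h3 2
    have hB0 : (0 : ℝ) ≤ B := Nat.cast_nonneg B
    have hM0 : (0 : ℝ) ≤ M' := Nat.cast_nonneg M'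
    nlinarith [sq_nonneg ((B : ℝ) - M'), mul_nonneg hB0 hM0]
  · push Not at hbig
    obtain ⟨T, hTP, hTn, hTc⟩ := H.exists_half
    set e := T.equivFin.symm with he
    have hs2 : (Real.sqrt 2) * (Real.sqrt 2) = 2 := Real.mul_self_sqrt (by norm_num)
    have hs0 : (0 : ℝ) < Real.sqrt 2 := Real.sqrt_pos.2 (by norm_num)
    have hcx : ∀ i, (Real.sqrt 2) • ((Real.sqrt 2)⁻¹ • ((e i : T) : E)) = ((e i : T) : E) := by
      intro i
      rw [smul_smul, mul_inv_cancel₀ hs0.ne', one_smul]
    have hmem : ∀ i, ((e i : T) : E) ∈ Psi Φ := fun i => hTP (e i).2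
    have hxP : ∀ y, y ∈ Psi Φ ↔ ∃ i, y = ((e i : T) : E) ∨ y = -((e i : T) : E) := by
      intro y
      constructor
      · intro hy
        rcases hTc y hy with h1 | h1
        · exact ⟨e.symm ⟨y, h1⟩, Or.inl (by simp)⟩
        · exact ⟨e.symm ⟨-y, h1⟩, Or.inr (by simp)⟩
      · rintro ⟨i, rfl | rfl⟩
        · exact hmem i
        · exact h.neg_Psi (hmem i)
    have horth : ∀ i j, i ≠ j → inner ℝ ((e i : T) : E) ((e j : T) : E) = (0 : ℝ) := by
      intro i j hij
      rcases H.inner_cases (hmem i) (hmem j) with e1 | e1 | e1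
      · exact absurd (e.injective (Subtype.ext e1)) hij
      · exact absurd (e i).2 (by rw [e1]; exact hTn _ (e j).2)
      · exact e1
    refine ⟨T.card, fun i => (Real.sqrt 2)⁻¹ • ((e i : T) : E), ?_, Real.sqrt 2, hs0, ?_, ?_⟩
    · rw [orthonormal_iff_ite]
      intro i j
      rw [inner_smul_left, inner_smul_right]
      simp only [conj_trivial]
      by_cases hij : i = j
      · subst hij
        rw [if_pos rfl, (mem_Psi.1 (hmem i)).2, ← mul_assoc, ← mul_inv, hs2]
        norm_num
      · rw [if_neg hij, horth i j hij]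
        ring
    · intro y
      simp only [hcx]
      rw [← hxP y]
      constructor
      · intro hy
        by_cases hy0 : y = 0
        · exact Or.inl hy0
        · exact Or.inr (hbig y hy hy0)
      · rintro (rfl | hy)
        · exact h0
        · exact hsub hy
    · intro y
      simp only [smul_add, smul_sub, hcx]
      rw [← hxP y]
      constructor
      · intro hy
        by_cases hyP : y ∈ Psi Φ
        · exact Or.inl hyP
        right
        obtain ⟨-, c, hc, c', hc', hcc, hyc⟩ := H.long hy hyP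
        obtain ⟨i, hi⟩ := (hxP c).1 hc
        obtain ⟨j, hj⟩ := (hxP c').1 hc'
        have hij : i ≠ j := by
          rintro rfl
          rcases hi with hi | hi <;> rcases hj with hj | hj <;>
            simp only [hi, hj, inner_neg_left, inner_neg_right, (mem_Psi.1 (hmem i)).2] at hcc <;> norm_num at hcc
        rcases hi with hi | hi <;> rcases hj with hj | hj
        · exact ⟨i, j, hij, Or.inl (by rw [hyc, hi, hj])⟩
        · exact ⟨i, j, hij, Or.inr (Or.inl (by rw [hyc, hi, hj]; abel))⟩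
        · exact ⟨j, i, hij.symm, Or.inr (Or.inl (by rw [hyc, hi, hj]; abel))⟩
        · exact ⟨i, j, hij, Or.inr (Or.inr (by rw [hyc, hi, hj]; abel))⟩
      · rintro (hy | ⟨i, j, hij, hy | hy | hy⟩)
        · exact (mem_Psi.1 hy).1
        · rw [hy]; exact H.add_root (hmem i) (hmem j) (horth i j hij)
        · rw [hy]; exact H.sub_root (hmem i) (hmem j) (horth i j hij)
        · rw [hy]; exact h.toRS.neg_mem (H.add_root (hmem i) (hmem j) (horth i j hij))

end PF
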