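import Pool.Agent.Helper3.PF.Basic
import Pool.Agent.Helper55.PF.B3
import Pool.Agent.Helper55.PF.B4

/-!
Project PF, blocks B2, B2', B3, B4: the sum of the pairings with a root, the number of short roots, strings.
-/

set_option linter.unusedSectionVars false
set_option linter.unusedVariables false

open Module

namespace PF

variable {E : Type*} [NormedAddCommGroup E] [InnerProductSpace ℝ E] {Φ X : Finset E}

/-! ### The short roots as a simply laced system -/

theorem NRS.SL (h : NRS Φ) {g : E} (hg : g ∈ Psi Φ) : SL (Psi Φ) (Nb Φ g).card where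
  two := fun a ha => (mem_Psi.1 ha).2
  int := fun a ha b hb => h.int_Psi ha hb
  sub := fun a ha b hb h1 => h.sub_Psi ha hb h1
  neg := fun a ha => h.neg_Psi ha
  card := fun a ha => by
    classical
    have h1 : ((Psi Φ).filter fun d => inner ℝ d a = (1 : ℝ)) = Nb Φ a := by
      ext d
      rw [mem_Nb, Finset.mem_filter]
    rw [h1]
    exact h.card_Nb' hg ha

/-- B3: the number of short roots -/
theorem NRS.card_Psi (h : NRS Φ) (h6 : ∀ b ∈ Φ, inner ℝ b b ≠ (6 : ℝ)) {g : E} (hg : g ∈ Psi Φ)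
    (hu : (Nb Φ g).Nonempty) :
    48 + 48 * ((Nb Φ g).card : ℝ) + (Nb Φ g).card * ((Nb Φ g).card - 2) ≤ 24 * ((Psi Φ).card : ℝ) := by
  have h1 := (h.SL hg).card_ge h.Psi_nonempty
  linarith

/-- B4: strings in two directions -/
theorem Sat.card_str (h : NRS Φ) (hX : Sat Φ X) {g : E} (hg : g ∈ Psi Φ) (hu : (Nb Φ g).Nonempty) {x : E}
    (hx : x ∈ X) (hmax : ∀ y ∈ X, ∀ d ∈ Psi Φ, inner ℝ y d ≤ (inner ℝ x g : ℝ)) :
    ((inner ℝ x g : ℝ) + 2) * (3 * inner ℝ x g + 4) ≤ 8 * (X.card : ℝ) := by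
  obtain ⟨d, hd⟩ := hu
  rw [mem_Nb] at hd
  have hgd : inner ℝ g d = (1 : ℝ) := by rw [real_inner_comm]; exact hd.2
  refine card_B4 (Ψ := Psi Φ) ?_ ?_ hmax hx hd.1 (h.sub_Psi hg hd.1 hgd) rfl (mem_Psi.1 hg).2 (mem_Psi.1 hd.1).2 hgd
  · intro a ha y hy
    obtain ⟨k, hk⟩ := hX.int a (mem_Psi.1 ha).1 y hy
    exact ⟨k, by rw [← hk, co_Psi ha]⟩
  · intro a ha y hy j hj
    exact hX.str a (mem_Psi.1 ha).1 y hy j (by rw [co_Psi ha]; exact hj)

/-! ### The long roots that touch a short root -/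

open Classical in
/-- the roots of square length `4` with inner product `2` with `g` -/
noncomputable def L4 (Φ : Finset E) (g : E) : Finset E :=
  Φ.filter fun b => inner ℝ b b = (4 : ℝ) ∧ inner ℝ b g = (2 : ℝ)

open Classical in
/-- the roots of square length `6` with inner product `3` with `g` -/
noncomputable def L6 (Φ : Finset E) (g : E) : Finset E :=
  Φ.filter fun b => inner ℝ b b = (6 : ℝ) ∧ inner ℝ b g = (3 : ℝ)

theorem mem_L4 {g b : E} : b ∈ L4 Φ g ↔ b ∈ Φ ∧ inner ℝ b b = (4 : ℝ) ∧ inner ℝ b g = (2 : ℝ) := by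
  classical
  simp [L4]

theorem mem_L6 {g b : E} : b ∈ L6 Φ g ↔ b ∈ Φ ∧ inner ℝ b b = (6 : ℝ) ∧ inner ℝ b g = (3 : ℝ) := by
  classical
  simp [L6]

/-- two different elements of `L4` -/
theorem NRS.L4_orth (h : NRS Φ) {g : E} (hg : g ∈ Psi Φ) {b c : E} (hb : b ∈ L4 Φ g) (hc : c ∈ L4 Φ g)
    (h1 : c ≠ b) (h2 : c ≠ g + g - b) : inner ℝ (b - g) (c - g) = (0 : ℝ) := by
  rw [mem_L4] at hb hc
  obtain ⟨b1, b2⟩ := h.four_sub hb.1 hb.2.1 hg hb.2.2
  obtain ⟨c1, c2⟩ := h.four_sub hc.1 hc.2.1 hg hc.2.2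
  by_cases e1 : b - g = c - g
  · exact absurd (sub_left_injective e1).symm h1
  by_cases e2 : b - g = -(c - g)
  · exfalso
    apply h2
    have e3 : c = g + -(-(c - g)) := by abel
    rw [e3, ← e2]
    abel
  have h3 : inner ℝ b (c - g) = (inner ℝ (b - g) (c - g) : ℝ) := by
    have h4 : inner ℝ g (c - g) = (0 : ℝ) := by rw [real_inner_comm]; exact c2
    rw [inner_sub_left b g, h4, sub_zero]
  rcases h.inner_Psi b1 c1 e1 e2 with h4 | h4 | h4
  · exact h4
  · exfalso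
    rw [h4] at h3
    rcases h.four hb.1 hb.2.1 c1 with h5 | h5 | h5 <;> rw [h5] at h3 <;> norm_num at h3
  · exfalso
    rw [h4] at h3
    rcases h.four hb.1 hb.2.1 c1 with h5 | h5 | h5 <;> rw [h5] at h3 <;> norm_num at h3

theorem NRS.L4_star (h : NRS Φ) {g : E} (hg : g ∈ Psi Φ) {b : E} (hb : b ∈ L4 Φ g) : g + g - b ∈ L4 Φ g := by
  rw [mem_L4] at hb ⊢
  have h1 := h.refl g (mem_Psi.1 hg).1 b hb.1
  rw [co_Psi hg, hb.2.2, two_smul] at h1
  have h2 := h.toRS.neg_mem h1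
  have h3 : g + g - b = -(b - (g + g)) := by abel
  rw [← h3] at h2
  refine ⟨h2, ?_, ?_⟩
  · rw [inner_sub_left, inner_sub_right, inner_sub_right, inner_add_left, inner_add_right, inner_add_left,
      inner_add_right, real_inner_comm b g, hb.2.1, hb.2.2, (mem_Psi.1 hg).2]
    norm_num
  · rw [inner_sub_left, inner_add_left, hb.2.2, (mem_Psi.1 hg).2]
    norm_num

/-- at most six long roots touch a short root -/
theorem NRS.card_L4 (h : NRS Φ) {g : E} (hg : g ∈ Psi Φ) (hu : (Nb Φ g).Nonempty) : (L4 Φ g).card ≤ 6 := by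
  classical
  obtain ⟨e, he⟩ := hu
  rw [mem_Nb] at he
  have hP : ∀ b ∈ L4 Φ g, b - g ∈ Psi Φ ∧ inner ℝ (b - g) g = (0 : ℝ) := by
    intro b hb
    rw [mem_L4] at hb
    exact h.four_sub hb.1 hb.2.1 hg hb.2.2
  have hsq : ∀ b ∈ L4 Φ g, (inner ℝ e (b - g) : ℝ) ^ 2 = 1 := by
    intro b hb
    have hb' := mem_L4.1 hb
    have h1 : inner ℝ b e = 1 + (inner ℝ e (b - g) : ℝ) := by
      rw [inner_sub_right, he.2, real_inner_comm]
      ring
    have h2 := hP b hb
    have h3 : (inner ℝ e (b - g) : ℝ) = inner ℝ b e - 1 := by linarith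
    rcases h.four hb'.1 hb'.2.1 he.1 with h4 | h4 | h4
    · rw [h3, h4]; norm_num
    · rw [h3, h4]; norm_num
    · exfalso
      rw [h4] at h3
      by_cases e1 : e = b - g
      · rw [← e1, (mem_Psi.1 he.1).2] at h3
        norm_num at h3
      by_cases e2 : e = -(b - g)
      · have h5 : inner ℝ e (b - g) = (-2 : ℝ) := by
          nth_rewrite 1 [e2]
          rw [inner_neg_left, (mem_Psi.1 h2.1).2]
        rw [h5] at h3
        norm_num at h3
      rcases h.inner_Psi he.1 h2.1 e1 e2 with h5 | h5 | h5 <;> rw [h5] at h3 <;> norm_num at h3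
  set v : E := ∑ c ∈ L4 Φ g, (inner ℝ e (c - g) : ℝ) • (c - g) with hv
  have hvb : ∀ b ∈ L4 Φ g, inner ℝ v (b - g) = 4 * (inner ℝ e (b - g) : ℝ) := by
    intro b hb
    have hs := h.L4_star hg hb
    have hne : b ≠ g + g - b := by
      intro hn
      have h1 := (hP b hb).2
      have h2 : b - g = -(b - g) := by
        nth_rewrite 1 [hn]
        abel
      have h3 : inner ℝ (b - g) (b - g) = -inner ℝ (b - g) (b - g : E) := by
        nth_rewrite 1 [h2]
        rw [inner_neg_left]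
      rw [(mem_Psi.1 (hP b hb).1).2] at h3
      norm_num at h3
    have h11 := (mem_Psi.1 (hP b hb).1).2
    have e3 : g + g - b - g = -(b - g) := by abel
    rw [hv, sum_inner, Finset.sum_eq_add b (g + g - b) hne ?_ (fun h => absurd hb h) (fun h => absurd hs h)]
    · rw [e3, inner_smul_left, inner_smul_left, inner_neg_right, inner_neg_left, h11]
      simp only [conj_trivial]
      ring
    · rintro c hc ⟨h1, h2⟩
      rw [inner_smul_left, real_inner_comm (b - g) (c - g), h.L4_orth hg hb hc h1 h2, mul_zero]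
  have h3 : inner ℝ v e = ((L4 Φ g).card : ℝ) := by
    rw [hv, sum_inner]
    have : ∀ c ∈ L4 Φ g, inner ℝ ((inner ℝ e (c - g) : ℝ) • (c - g)) e = (1 : ℝ) := by
      intro c hc
      rw [inner_smul_left, real_inner_comm e (c - g)]
      simp only [conj_trivial]
      rw [← sq]
      exact hsq c hc
    rw [Finset.sum_congr rfl this]
    simp
  have h4 : inner ℝ v v = 4 * ((L4 Φ g).card : ℝ) := by
    nth_rewrite 2 [hv]
    rw [inner_sum]
    have : ∀ c ∈ L4 Φ g, inner ℝ v ((inner ℝ e (c - g) : ℝ) • (c - g)) = (4 : ℝ) := by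
      intro c hc
      rw [inner_smul_right, hvb c hc]
      linear_combination 4 * hsq c hc
    rw [Finset.sum_congr rfl this]
    simp
    ring
  have h5 : inner ℝ v g = (0 : ℝ) := by
    rw [hv, sum_inner]
    refine Finset.sum_eq_zero fun c hc => ?_
    rw [inner_smul_left, (hP c hc).2, mul_zero]
  have h6 : (0 : ℝ) ≤ inner ℝ (e - (1 / 4 : ℝ) • v - (1 / 2 : ℝ) • g) (e - (1 / 4 : ℝ) • v - (1 / 2 : ℝ) • g) :=
    real_inner_self_nonneg
  simp only [inner_sub_left, inner_sub_right, inner_smul_left, inner_smul_right, conj_trivial] at h6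
  rw [real_inner_comm v e, h3, h4, h5, real_inner_comm v g, h5, real_inner_comm e g, he.2, (mem_Psi.1 hg).2,
    (mem_Psi.1 he.1).2] at h6
  have h8 : ((L4 Φ g).card : ℝ) ≤ 6 := by linarith
  exact_mod_cast h8

/-! ### The sum of the pairings -/

theorem sum_ind {T : Finset E} (hT : T ⊆ Φ) (c : ℝ) [DecidablePred (· ∈ T)] :
    ∑ b ∈ Φ, (if b ∈ T then c else 0) = T.card * c := by
  classical
  rw [← Finset.sum_filter]
  have h1 : Φ.filter (fun b => b ∈ T) = T := by
    ext b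
    rw [Finset.mem_filter]
    exact ⟨fun h => h.2, fun h => ⟨hT h, h⟩⟩
  rw [h1, Finset.sum_const, nsmul_eq_mul]

theorem sum_ind_neg (h : RS Φ) {T : Finset E} (hT : T ⊆ Φ) (c : ℝ) [DecidablePred (· ∈ T)] :
    ∑ b ∈ Φ, (if -b ∈ T then c else 0) = T.card * c := by
  classical
  rw [← sum_ind hT c]
  refine Finset.sum_nbij' (fun b => -b) (fun b => -b) (fun b hb => h.neg_mem hb) (fun b hb => h.neg_mem hb)
    (fun b _ => neg_neg b) (fun b _ => neg_neg b) (fun b _ => rfl)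

theorem NRS.sum_short (h : NRS Φ) {g : E} (hg : g ∈ Psi Φ) :
    ∑ b ∈ Φ, |(inner ℝ b g : ℝ)| ≤ 4 + 2 * (Nb Φ g).card + 4 * (L4 Φ g).card + 6 * (L6 Φ g).card := by
  classical
  have hg' := mem_Psi.1 hg
  have hP : Psi Φ ⊆ Φ := fun b hb => (mem_Psi.1 hb).1
  have hN : Nb Φ g ⊆ Φ := fun b hb => (mem_Psi.1 (mem_Nb.1 hb).1).1
  have h4 : L4 Φ g ⊆ Φ := fun b hb => (mem_L4.1 hb).1
  have h6 : L6 Φ g ⊆ Φ := fun b hb => (mem_L6.1 hb).1
  have h1 : ({g} : Finset E) ⊆ Φ := by
    intro b hb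
    rw [Finset.mem_singleton.1 hb]
    exact hg'.1
  have key : ∀ b ∈ Φ, |(inner ℝ b g : ℝ)| ≤ (if b ∈ ({g} : Finset E) then 2 else 0) +
      (if -b ∈ ({g} : Finset E) then 2 else 0) + (if b ∈ Nb Φ g then 1 else 0) + (if -b ∈ Nb Φ g then 1 else 0) +
      (if b ∈ L4 Φ g then 2 else 0) + (if -b ∈ L4 Φ g then 2 else 0) + (if b ∈ L6 Φ g then 3 else 0) +
      (if -b ∈ L6 Φ g then 3 else 0) := by
    intro b hb
    have i1 : (0 : ℝ) ≤ (if b ∈ ({g} : Finset E) then 2 else 0) := by split_ifs <;> norm_num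
    have i2 : (0 : ℝ) ≤ (if -b ∈ ({g} : Finset E) then 2 else 0) := by split_ifs <;> norm_num
    have i3 : (0 : ℝ) ≤ (if b ∈ Nb Φ g then 1 else 0) := by split_ifs <;> norm_num
    have i4 : (0 : ℝ) ≤ (if -b ∈ Nb Φ g then 1 else 0) := by split_ifs <;> norm_num
    have i5 : (0 : ℝ) ≤ (if b ∈ L4 Φ g then 2 else 0) := by split_ifs <;> norm_num
    have i6 : (0 : ℝ) ≤ (if -b ∈ L4 Φ g then 2 else 0) := by split_ifs <;> norm_num
    have i7 : (0 : ℝ) ≤ (if b ∈ L6 Φ g then 3 else 0) := by split_ifs <;> norm_num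
    have i8 : (0 : ℝ) ≤ (if -b ∈ L6 Φ g then 3 else 0) := by split_ifs <;> norm_num
    rcases h.length hb with hl | hl | hl
    · have hbP : b ∈ Psi Φ := mem_Psi.2 ⟨hb, hl⟩
      by_cases e1 : b = g
      · have : b ∈ ({g} : Finset E) := Finset.mem_singleton.2 e1
        rw [if_pos this] at i1 ⊢
        have h9 : |(inner ℝ b g : ℝ)| = 2 := by
          rw [e1, hg'.2]; norm_num
        rw [h9]
        linarith
      by_cases e2 : b = -g
      · have : -b ∈ ({g} : Finset E) := by rw [e2, neg_neg]; exact Finset.mem_singleton_self g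
        rw [if_pos this] at i2 ⊢
        have h9 : |(inner ℝ b g : ℝ)| = 2 := by
          rw [e2, inner_neg_left, hg'.2]; norm_num
        rw [h9]
        linarith
      rcases h.inner_Psi hbP hg e1 e2 with h3 | h3 | h3
      · rw [h3, abs_zero]
        linarith
      · have : b ∈ Nb Φ g := mem_Nb.2 ⟨hbP, h3⟩
        rw [if_pos this] at i3 ⊢
        rw [h3, abs_one]
        linarith
      · have : -b ∈ Nb Φ g := mem_Nb.2 ⟨h.neg_Psi hbP, by rw [inner_neg_left, h3]; norm_num⟩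
        rw [if_pos this] at i4 ⊢
        rw [h3, abs_neg, abs_one]
        linarith
    · rcases h.four hb hl hg with h3 | h3 | h3
      · rw [h3, abs_zero]
        linarith
      · have : b ∈ L4 Φ g := mem_L4.2 ⟨hb, hl, h3⟩
        rw [if_pos this] at i5 ⊢
        rw [h3, abs_of_pos (by norm_num)]
        linarith
      · have : -b ∈ L4 Φ g := mem_L4.2 ⟨h.toRS.neg_mem hb, by rw [inner_neg_neg]; exact hl, by
          rw [inner_neg_left, h3]; norm_num⟩
        rw [if_pos this] at i6 ⊢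
        rw [h3, abs_neg, abs_of_pos (by norm_num)]
        linarith
    · rcases h.six hb hl hg with h3 | h3 | h3
      · rw [h3, abs_zero]
        linarith
      · have : b ∈ L6 Φ g := mem_L6.2 ⟨hb, hl, h3⟩
        rw [if_pos this] at i7 ⊢
        rw [h3, abs_of_pos (by norm_num)]
        linarith
      · have : -b ∈ L6 Φ g := mem_L6.2 ⟨h.toRS.neg_mem hb, by rw [inner_neg_neg]; exact hl, by
          rw [inner_neg_left, h3]; norm_num⟩
        rw [if_pos this] at i8 ⊢
        rw [h3, abs_neg, abs_of_pos (by norm_num)]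
        linarith
  refine (Finset.sum_le_sum key).trans (le_of_eq ?_)
  simp only [Finset.sum_add_distrib]
  rw [sum_ind h1, sum_ind_neg h.toRS h1, sum_ind hN, sum_ind_neg h.toRS hN, sum_ind h4, sum_ind_neg h.toRS h4,
    sum_ind h6, sum_ind_neg h.toRS h6, Finset.card_singleton]
  push_cast
  ring

/-- the quarter sum for a short root -/
theorem NRS.qs_short (h : NRS Φ) {g : E} (hg : g ∈ Psi Φ) :
    qs Φ g ≤ 1 + ((Nb Φ g).card : ℝ) / 2 + (L4 Φ g).card + 3 / 2 * (L6 Φ g).card := by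
  have h1 := h.sum_short hg
  have h2 : qs Φ g = (1 / 4) * ∑ b ∈ Φ, |(inner ℝ b g : ℝ)| := by
    unfold qs
    simp only [co_Psi hg]
  rw [h2]
  linarith

theorem NRS.qs_four (h : NRS Φ) {a g : E} (ha : a ∈ Φ) (hl : inner ℝ a a = (4 : ℝ)) (hg : g ∈ Psi Φ)
    (hd : a - g ∈ Psi Φ) : qs Φ a ≤ (qs Φ g + qs Φ (a - g)) / 2 := by
  have h1 : ∀ x, |co a x| ≤ (|co g x| + |co (a - g) x|) / 2 := by
    intro x
    have h7 : inner ℝ x a = (inner ℝ x g : ℝ) + inner ℝ x (a - g) := by rw [← inner_add_right]; congr 1; abel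
    have h8 : co a x = (co g x + co (a - g) x) / 2 := by
      rw [co_Psi hg, co_Psi hd]
      unfold co
      rw [hl, h7]
      ring
    rw [h8, abs_div, abs_of_pos (by norm_num : (0 : ℝ) < 2)]
    have := abs_add_le (co g x) (co (a - g) x)
    linarith
  unfold qs
  have h2 := Finset.sum_le_sum fun x (_ : x ∈ Φ) => h1 x
  rw [← Finset.sum_div, Finset.sum_add_distrib] at h2
  linarith

theorem NRS.qs_six (h : NRS Φ) {a g : E} (ha : a ∈ Φ) (hl : inner ℝ a a = (6 : ℝ)) (hg : g ∈ Psi Φ)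
    (hd : a - g ∈ Psi Φ) : qs Φ a ≤ (qs Φ g + qs Φ (a - g)) / 3 := by
  have h1 : ∀ x, |co a x| ≤ (|co g x| + |co (a - g) x|) / 3 := by
    intro x
    have h7 : inner ℝ x a = (inner ℝ x g : ℝ) + inner ℝ x (a - g) := by rw [← inner_add_right]; congr 1; abel
    have h8 : co a x = (co g x + co (a - g) x) / 3 := by
      rw [co_Psi hg, co_Psi hd]
      unfold co
      rw [hl, h7]
      ring
    rw [h8, abs_div, abs_of_pos (by norm_num : (0 : ℝ) < 3)]
    have := abs_add_le (co g x) (co (a - g) x)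
    linarith
  unfold qs
  have h2 := Finset.sum_le_sum fun x (_ : x ∈ Φ) => h1 x
  rw [← Finset.sum_div, Finset.sum_add_distrib] at h2
  linarith

/-- B2: no ratio three, some neighbour -/
theorem NRS.qs_le (h : NRS Φ) (h6 : ∀ b ∈ Φ, inner ℝ b b ≠ (6 : ℝ)) {g : E} (hg : g ∈ Psi Φ)
    (hu : (Nb Φ g).Nonempty) {a : E} (ha : a ∈ Φ) : qs Φ a ≤ 7 + ((Nb Φ g).card : ℝ) / 2 := by
  have hs : ∀ d ∈ Psi Φ, qs Φ d ≤ 7 + ((Nb Φ g).card : ℝ) / 2 := by
    intro d hd
    have h1 := h.qs_short hd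
    have hc := h.card_Nb' hg hd
    have hu' : (Nb Φ d).Nonempty := by
      rw [← Finset.card_pos, hc, Finset.card_pos]
      exact hu
    have h2 : ((L4 Φ d).card : ℝ) ≤ 6 := by exact_mod_cast h.card_L4 hd hu'
    have h3 : L6 Φ d = ∅ := by
      rw [Finset.eq_empty_iff_forall_notMem]
      intro b hb
      rw [mem_L6] at hb
      exact h6 b hb.1 hb.2.1
    rw [h3, Finset.card_empty, hc] at h1
    push_cast at h1
    linarith
  rcases h.length ha with hl | hl | hl
  · exact hs a (mem_Psi.2 ⟨ha, hl⟩)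
  · obtain ⟨d, hd, had⟩ := h.exists_short ha
    have h3 : inner ℝ a d = (2 : ℝ) := by
      rcases h.four ha hl hd with h3 | h3 | h3
      · rw [h3] at had; norm_num at had
      · exact h3
      · rw [h3] at had; norm_num at had
    have h5 := (h.four_sub ha hl hd h3).1
    have h7 := h.qs_four ha hl hd h5
    have h8 := hs d hd
    have h9 := hs _ h5
    linarith
  · exact absurd hl (h6 a ha)

/-! ### B2': ratio three -/

section six

variable {b g : E}

theorem NRS.nb_six_mem (h : NRS Φ) (hb : b ∈ Φ) (h6 : inner ℝ b b = (6 : ℝ)) (hg : g ∈ Psi Φ)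
    (h3 : inner ℝ b g = (3 : ℝ)) {e : E} (he : e ∈ Nb Φ g) : e = b - g ∨ e = g - (b - g) := by
  rw [mem_Nb] at he
  obtain ⟨d1, d2⟩ := h.six_sub hb h6 hg h3
  have h7 : inner ℝ b e = 1 + (inner ℝ (b - g) e : ℝ) := by
    rw [inner_sub_left, real_inner_comm e g, he.2]
    ring
  rcases h.six hb h6 he.1 with h4 | h4 | h4
  · right
    rw [h4] at h7
    refine Psi_eq he.1 (h.sub_Psi hg d1 (by rw [real_inner_comm]; exact d2)) ?_
    rw [inner_sub_right, he.2, real_inner_comm]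
    linarith
  · left
    rw [h4] at h7
    refine Psi_eq he.1 d1 ?_
    rw [real_inner_comm]
    linarith
  · exfalso
    rw [h4] at h7
    by_cases e1 : b - g = e
    · rw [e1, (mem_Psi.1 he.1).2] at h7
      norm_num at h7
    by_cases e2 : b - g = -e
    · rw [e2, inner_neg_left, (mem_Psi.1 he.1).2] at h7
      norm_num at h7
    rcases h.inner_Psi d1 he.1 e1 e2 with h5 | h5 | h5 <;> rw [h5] at h7 <;> norm_num at h7

theorem NRS.nb_six_eq (h : NRS Φ) (hb : b ∈ Φ) (h6 : inner ℝ b b = (6 : ℝ)) (hg : g ∈ Psi Φ)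
    (h3 : inner ℝ b g = (3 : ℝ)) [DecidableEq E] : Nb Φ g = {b - g, g - (b - g)} := by
  obtain ⟨d1, d2⟩ := h.six_sub hb h6 hg h3
  ext e
  rw [Finset.mem_insert, Finset.mem_singleton]
  refine ⟨fun he => h.nb_six_mem hb h6 hg h3 he, ?_⟩
  rintro (rfl | rfl)
  · exact mem_Nb.2 ⟨d1, d2⟩
  · refine mem_Nb.2 ⟨h.sub_Psi hg d1 (by rw [real_inner_comm]; exact d2), ?_⟩
    rw [inner_sub_left, d2, (mem_Psi.1 hg).2]
    norm_num

theorem NRS.card_nb_six (h : NRS Φ) (hb : b ∈ Φ) (h6 : inner ℝ b b = (6 : ℝ)) (hg : g ∈ Psi Φ)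
    (h3 : inner ℝ b g = (3 : ℝ)) : (Nb Φ g).card = 2 := by
  classical
  obtain ⟨d1, d2⟩ := h.six_sub hb h6 hg h3
  rw [h.nb_six_eq hb h6 hg h3, Finset.card_pair]
  intro hn
  have h4 : inner ℝ (b - g) (b - g) = (inner ℝ (g - (b - g)) (b - g) : ℝ) := by rw [← hn]
  rw [inner_sub_left g, (mem_Psi.1 d1).2, real_inner_comm, d2] at h4
  norm_num at h4

/-- `g` is not orthogonal to any short root -/
theorem NRS.six_ne_zero' (h : NRS Φ) (hb : b ∈ Φ) (h6 : inner ℝ b b = (6 : ℝ)) (hg : g ∈ Psi Φ)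
    (h3 : inner ℝ b g = (3 : ℝ)) {x : E} (hx : x ∈ Psi Φ) : inner ℝ x g ≠ (0 : ℝ) := by
  classical
  obtain ⟨d1, d2⟩ := h.six_sub hb h6 hg h3
  set d := b - g with hd
  have hgd : inner ℝ g d = (1 : ℝ) := by rw [real_inner_comm]; exact d2
  have f1 : g - d ∈ Psi Φ := h.sub_Psi hg d1 hgd
  have f2 : inner ℝ (g - d) g = (1 : ℝ) := by rw [inner_sub_left, d2, (mem_Psi.1 hg).2]; norm_num
  have f3 : inner ℝ (g - d) d = (-1 : ℝ) := by rw [inner_sub_left, hgd, (mem_Psi.1 d1).2]; norm_num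
  have hcard := h.card_nb_six hb h6 hg h3
  -- a neighbour of one of `g, d, g - d` is one of the six vectors
  have two : ∀ y ∈ Psi Φ, ∀ p q : E, p ∈ Psi Φ → q ∈ Psi Φ → p ≠ q → inner ℝ p y = (1 : ℝ) →
      inner ℝ q y = (1 : ℝ) → ∀ e ∈ Psi Φ, inner ℝ e y = (1 : ℝ) → e = p ∨ e = q := by
    intro y hy p q hp hq hpq h1 h2 e he h4
    have h5 : (Nb Φ y).card = 2 := by rw [h.card_Nb' hg hy, hcard]
    have h7 : ({p, q} : Finset E) = Nb Φ y := by
      refine Finset.eq_of_subset_of_card_le ?_ (by rw [h5, Finset.card_pair hpq])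
      intro z hz
      rw [Finset.mem_insert, Finset.mem_singleton] at hz
      rcases hz with rfl | rfl
      · exact mem_Nb.2 ⟨hp, h1⟩
      · exact mem_Nb.2 ⟨hq, h2⟩
    have h8 : e ∈ ({p, q} : Finset E) := by rw [h7]; exact mem_Nb.2 ⟨he, h4⟩
    rwa [Finset.mem_insert, Finset.mem_singleton] at h8
  set S : Finset E := {g, -g, d, -d, g - d, -(g - d)} with hS
  have hmem : ∀ z, z ∈ S ↔ z = g ∨ z = -g ∨ z = d ∨ z = -d ∨ z = g - d ∨ z = -(g - d) := by
    intro z
    rw [hS]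
    simp only [Finset.mem_insert, Finset.mem_singleton]
  have hneg : ∀ z, -z ∈ S → z ∈ S := by
    intro z hz
    rw [hmem] at hz ⊢
    rcases hz with hz | hz | hz | hz | hz | hz
    · right; left; rw [← hz, neg_neg]
    · left; exact neg_injective hz
    · right; right; right; left; rw [← hz, neg_neg]
    · right; right; left; exact neg_injective hz
    · right; right; right; right; right; rw [← hz, neg_neg]
    · right; right; right; right; left; exact neg_injective hz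
  have c1 : ∀ e ∈ Psi Φ, inner ℝ e g = (1 : ℝ) → e ∈ S := by
    intro e he h1
    rw [hmem]
    rcases two g hg d (g - d) d1 f1 (by
      intro hn
      have := f3
      rw [← hn, (mem_Psi.1 d1).2] at this
      norm_num at this) d2 f2 e he h1 with h2 | h2
    · right; right; left; exact h2
    · right; right; right; right; left; exact h2
  have c2 : ∀ e ∈ Psi Φ, inner ℝ e d = (1 : ℝ) → e ∈ S := by
    intro e he h1
    rw [hmem]
    rcases two d d1 g (-(g - d)) hg (h.neg_Psi f1) (by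
      intro hn
      have : inner ℝ g g = (inner ℝ (-(g - d)) g : ℝ) := by rw [← hn]
      rw [inner_neg_left, f2, (mem_Psi.1 hg).2] at this
      norm_num at this) hgd (by rw [inner_neg_left, f3]; norm_num) e he h1 with h2 | h2
    · left; exact h2
    · right; right; right; right; right; exact h2
  have c3 : ∀ e ∈ Psi Φ, inner ℝ e (g - d) = (1 : ℝ) → e ∈ S := by
    intro e he h1
    rw [hmem]
    rcases two (g - d) f1 g (-d) hg (h.neg_Psi d1) (by
      intro hn
      have : inner ℝ g g = (inner ℝ (-d) g : ℝ) := by rw [← hn]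
      rw [inner_neg_left, d2, (mem_Psi.1 hg).2] at this
      norm_num at this) (by rw [real_inner_comm]; exact f2)
      (by rw [inner_neg_left, real_inner_comm, f3]; norm_num) e he h1 with h2 | h2
    · left; exact h2
    · right; right; right; left; exact h2
  have hpm : ∀ y, (∀ e ∈ Psi Φ, inner ℝ e y = (1 : ℝ) → e ∈ S) → y ∈ Psi Φ → y ∈ S →
      ∀ e ∈ Psi Φ, e ∉ S → inner ℝ y e = (0 : ℝ) := by
    intro y hy hyP hyS e he heS
    by_cases e1 : y = e
    · exact absurd (e1 ▸ hyS) heS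
    by_cases e2 : y = -e
    · exact absurd (hneg e (e2 ▸ hyS)) heS
    rcases h.inner_Psi hyP he e1 e2 with h5 | h5 | h5
    · exact h5
    · exact absurd (hy e he (by rw [real_inner_comm]; exact h5)) heS
    · exact absurd (hneg e (hy (-e) (h.neg_Psi he) (by rw [inner_neg_left, real_inner_comm, h5]; norm_num))) heS
  have hgS : g ∈ S := (hmem g).2 (Or.inl rfl)
  have hdS : d ∈ S := (hmem d).2 (Or.inr (Or.inr (Or.inl rfl)))
  have hfS : g - d ∈ S := (hmem _).2 (Or.inr (Or.inr (Or.inr (Or.inr (Or.inl rfl)))))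
  have hSP : S = Psi Φ := by
    refine h.irr_Psi hg (Finset.card_pos.1 (by rw [hcard]; norm_num)) S ?_ ⟨g, hgS⟩ ?_
    · intro z hz
      rw [hmem] at hz
      rcases hz with rfl | rfl | rfl | rfl | rfl | rfl
      · exact hg
      · exact h.neg_Psi hg
      · exact d1
      · exact h.neg_Psi d1
      · exact f1
      · exact h.neg_Psi f1
    · intro z hz e he heS
      rw [hmem] at hz
      rcases hz with rfl | rfl | rfl | rfl | rfl | rfl
      · exact hpm _ c1 hg hgS e he heS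
      · rw [inner_neg_left, hpm _ c1 hg hgS e he heS, neg_zero]
      · exact hpm _ c2 d1 hdS e he heS
      · rw [inner_neg_left, hpm _ c2 d1 hdS e he heS, neg_zero]
      · exact hpm _ c3 f1 hfS e he heS
      · rw [inner_neg_left, hpm _ c3 f1 hfS e he heS, neg_zero]
  rw [← hSP, hmem] at hx
  rcases hx with rfl | rfl | rfl | rfl | rfl | rfl
  · rw [(mem_Psi.1 hg).2]; norm_num
  · rw [inner_neg_left, (mem_Psi.1 hg).2]; norm_num
  · rw [d2]; norm_num
  · rw [inner_neg_left, d2]; norm_num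
  · rw [f2]; norm_num
  · rw [inner_neg_left, f2]; norm_num

/-- every short root touches a root of square length `6` -/
theorem NRS.six_all (h : NRS Φ) (hb : b ∈ Φ) (h6 : inner ℝ b b = (6 : ℝ)) (hg : g ∈ Psi Φ) :
    ∃ c ∈ Φ, inner ℝ c c = (6 : ℝ) ∧ inner ℝ c g = (3 : ℝ) := by
  obtain ⟨g0, hg0, hbg⟩ := h.exists_short hb
  have h3 : inner ℝ b g0 = (3 : ℝ) := by
    rcases h.six hb h6 hg0 with h3 | h3 | h3
    · rw [h3] at hbg; norm_num at hbg
    · exact h3
    · rw [h3] at hbg; norm_num at hbg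
  have h1 := h.orbit (S := {e | e ∈ Psi Φ ∧ ∃ c ∈ Φ, inner ℝ c c = (6 : ℝ) ∧ inner ℝ c e = (3 : ℝ)})
    (fun e he => he.1) ⟨g0, hg0, b, hb, h6, h3⟩ (by
      rintro a ha s ⟨hs, c, hc, hc1, hc2⟩
      exact ⟨h.refl_Psi ha hs, c - co a c • a, h.refl a ha c hc, by rw [h.toRS.inner_refl ha]; exact hc1,
        by rw [h.toRS.inner_refl ha]; exact hc2⟩)
  have h2 : g ∈ (Psi Φ : Set E) := hg
  rw [← h1] at h2
  exact h2.2

theorem NRS.six_ne_zero (h : NRS Φ) (hb : b ∈ Φ) (h6 : inner ℝ b b = (6 : ℝ)) (hg : g ∈ Psi Φ)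
    {x : E} (hx : x ∈ Psi Φ) : inner ℝ x g ≠ (0 : ℝ) := by
  obtain ⟨c, hc, h1, h2⟩ := h.six_all hb h6 hg
  exact h.six_ne_zero' hc h1 hg h2 hx

theorem NRS.nb_six (h : NRS Φ) (hb : b ∈ Φ) (h6 : inner ℝ b b = (6 : ℝ)) :
    (Psi Φ).card = 6 ∧ ∃ g ∈ Psi Φ, (Nb Φ g).Nonempty := by
  obtain ⟨g, hg⟩ := h.Psi_nonempty
  obtain ⟨c, hc, h1, h2⟩ := h.six_all hb h6 hg
  have h3 := h.card_nb_six hc h1 hg h2
  refine ⟨?_, g, hg, Finset.card_pos.1 (by rw [h3]; norm_num)⟩
  rw [(h.SL hg).card_split hg, h3, Finset.filter_eq_empty_iff.2 (fun x hx => h.six_ne_zero hb h6 hg hx),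
    Finset.card_empty]

theorem NRS.card_L6 (h : NRS Φ) (hb : b ∈ Φ) (h6 : inner ℝ b b = (6 : ℝ)) (hg : g ∈ Psi Φ) :
    (L6 Φ g).card ≤ 2 := by
  obtain ⟨c, hc, h1, h2⟩ := h.six_all hb h6 hg
  rw [← h.card_nb_six hc h1 hg h2]
  refine Finset.card_le_card_of_injOn (fun c => c - g) ?_ (fun c _ c' _ h => sub_left_injective h)
  intro c hc
  have hc' := mem_L6.1 (Finset.mem_coe.1 hc)
  obtain ⟨h3, h4⟩ := h.six_sub hc'.1 hc'.2.1 hg hc'.2.2
  exact Finset.mem_coe.2 (mem_Nb.2 ⟨h3, h4⟩)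

/-- B2': ratio three -/
theorem NRS.qs_le_six (h : NRS Φ) (hb : b ∈ Φ) (h6 : inner ℝ b b = (6 : ℝ)) {a : E} (ha : a ∈ Φ) :
    qs Φ a ≤ 5 := by
  have no4 : ∀ c ∈ Φ, inner ℝ c c ≠ (4 : ℝ) := by
    intro c hc hl
    obtain ⟨x, hx, hcx⟩ := h.exists_short hc
    have h3 : inner ℝ c x = (2 : ℝ) := by
      rcases h.four hc hl hx with h3 | h3 | h3
      · rw [h3] at hcx; norm_num at hcx
      · exact h3
      · rw [h3] at hcx; norm_num at hcx
    obtain ⟨h4, h5⟩ := h.four_sub hc hl hx h3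
    exact h.six_ne_zero hb h6 hx h4 h5
  have hs : ∀ d ∈ Psi Φ, qs Φ d ≤ 5 := by
    intro d hd
    have h1 := h.qs_short hd
    obtain ⟨c, hc, h11, h12⟩ := h.six_all hb h6 hd
    have h3 := h.card_nb_six hc h11 hd h12
    have h2 : ((L6 Φ d).card : ℝ) ≤ 2 := by exact_mod_cast h.card_L6 hb h6 hd
    have h5 : L4 Φ d = ∅ := by
      rw [Finset.eq_empty_iff_forall_notMem]
      intro b hb
      rw [mem_L4] at hb
      exact no4 b hb.1 hb.2.1
    rw [h5, Finset.card_empty, h3] at h1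
    push_cast at h1
    linarith
  rcases h.length ha with hl | hl | hl
  · exact hs a (mem_Psi.2 ⟨ha, hl⟩)
  · exact absurd hl (no4 a ha)
  · obtain ⟨d, hd, had⟩ := h.exists_short ha
    have h3 : inner ℝ a d = (3 : ℝ) := by
      rcases h.six ha hl hd with h3 | h3 | h3
      · rw [h3] at had; norm_num at had
      · exact h3
      · rw [h3] at had; norm_num at had
    have h5 := (h.six_sub ha hl hd h3).1
    have h7 := h.qs_six ha hl hd h5
    have h8 := hs d hd
    have h9 := hs _ h5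
    linarith

end six

end PF
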