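import Pool.Agent.Helper3.PF.Qs

/-!
Project PF, block B5: zero is a weight and some short root has a neighbour.
-/

set_option linter.unusedSectionVars false
set_option linter.unusedVariables false

open Module

namespace PF

variable {E : Type*} [NormedAddCommGroup E] [InnerProductSpace ℝ E] {Φ X : Finset E}

/-- every root is a sum of short roots -/
theorem NRS.mem_closure_Psi (h : NRS Φ) {a : E} (ha : a ∈ Φ) : a ∈ AddSubgroup.closure (Psi Φ : Set E) := by
  obtain ⟨g, hg, hag⟩ := h.exists_short ha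
  have key : ∀ {g : E}, g ∈ Psi Φ → a - g ∈ Psi Φ → a ∈ AddSubgroup.closure (Psi Φ : Set E) := by
    intro g hg h5
    have h6 : a = g + (a - g) := by abel
    rw [h6]
    exact AddSubgroup.add_mem _ (AddSubgroup.subset_closure hg) (AddSubgroup.subset_closure h5)
  rcases h.length ha with hl | hl | hl
  · exact AddSubgroup.subset_closure (mem_Psi.2 ⟨ha, hl⟩)
  · have h3 : inner ℝ a g = (2 : ℝ) := by
      rcases h.four ha hl hg with h3 | h3 | h3
      · rw [h3] at hag; norm_num at hag
      · exact h3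
      · rw [h3] at hag; norm_num at hag
    exact key hg (h.four_sub ha hl hg h3).1
  · have h3 : inner ℝ a g = (3 : ℝ) := by
      rcases h.six ha hl hg with h3 | h3 | h3
      · rw [h3] at hag; norm_num at hag
      · exact h3
      · rw [h3] at hag; norm_num at hag
    exact key hg (h.six_sub ha hl hg h3).1

theorem NRS.closure_le (h : NRS Φ) {x : E} (hx : x ∈ AddSubgroup.closure (Φ : Set E)) :
    x ∈ AddSubgroup.closure (Psi Φ : Set E) := by
  refine (AddSubgroup.closure_le _).2 ?_ hx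
  intro a ha
  exact h.mem_closure_Psi ha

/-- a sum of short roots is a sum of a list of short roots -/
theorem NRS.exists_list (h : NRS Φ) {x : E} (hx : x ∈ AddSubgroup.closure (Psi Φ : Set E)) :
    ∃ l : List E, (∀ c ∈ l, c ∈ Psi Φ) ∧ l.sum = x := by
  induction hx using AddSubgroup.closure_induction with
  | mem a ha => exact ⟨[a], by simpa using ha, by simp⟩
  | zero => exact ⟨[], by simp, by simp⟩
  | add a b _ _ iha ihb =>
    obtain ⟨l, h1, h2⟩ := iha
    obtain ⟨l', h3, h4⟩ := ihb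
    refine ⟨l ++ l', ?_, by rw [List.sum_append, h2, h4]⟩
    intro c hc
    rcases List.mem_append.1 hc with hc | hc
    · exact h1 c hc
    · exact h3 c hc
  | neg a _ iha =>
    obtain ⟨l, h1, h2⟩ := iha
    refine ⟨l.map fun c => -c, ?_, ?_⟩
    · intro c hc
      obtain ⟨d, hd, rfl⟩ := List.mem_map.1 hc
      exact h.neg_Psi (h1 d hd)
    · rw [← h2]
      clear h1 h2
      induction l with
      | nil => simp
      | cons c l ih => rw [List.map_cons, List.sum_cons, List.sum_cons, ih, neg_add]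

/-- (E0) a nonzero element of the root lattice has pairing at least `2` with some short root -/
theorem NRS.exists_two_le (h : NRS Φ) {x : E} (hx : x ∈ AddSubgroup.closure (Φ : Set E)) (hx0 : x ≠ 0) :
    ∃ c ∈ Psi Φ, (2 : ℝ) ≤ inner ℝ x c := by
  classical
  have hex : ∃ m : ℕ, ∃ l : List E, (∀ c ∈ l, c ∈ Psi Φ) ∧ l.sum = x ∧ l.length = m := by
    obtain ⟨l, h1, h2⟩ := h.exists_list (h.closure_le hx)
    exact ⟨l.length, l, h1, h2, rfl⟩
  obtain ⟨l, h1, h2, h3⟩ := Nat.find_spec hex
  have hmin := fun m (hm : m < Nat.find hex) => Nat.find_min hex hm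
  rcases l with _ | ⟨c, l⟩
  · exact absurd h2.symm hx0
  refine ⟨c, h1 c (by simp), ?_⟩
  have hc := h1 c (by simp)
  have h4 : ∀ d ∈ l, (0 : ℝ) ≤ inner ℝ d c := by
    intro d hd
    by_contra hneg
    push Not at hneg
    obtain ⟨l1, l2, rfl⟩ := List.append_of_mem hd
    have hdP := h1 d (by simp)
    have hlen : (c :: (l1 ++ d :: l2)).length = l1.length + l2.length + 2 := by simp; ring
    have hsum : (c :: (l1 ++ d :: l2)).sum = c + d + (l1 ++ l2).sum := by
      simp only [List.sum_cons, List.sum_append]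
      abel
    by_cases e1 : d = c
    · rw [e1, (mem_Psi.1 hc).2] at hneg
      norm_num at hneg
    by_cases e2 : d = -c
    · refine hmin (l1.length + l2.length) (by rw [← h3, hlen]; omega) ⟨l1 ++ l2, ?_, ?_, by simp⟩
      · intro e he
        refine h1 e ?_
        rcases List.mem_append.1 he with he | he
        · simp [he]
        · simp [he]
      · rw [← h2, hsum, e2]
        abel
    rcases h.inner_Psi hdP hc e1 e2 with h5 | h5 | h5
    · rw [h5] at hneg; exact lt_irrefl _ hneg
    · rw [h5] at hneg; norm_num at hneg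
    · refine hmin (l1.length + l2.length + 1) (by rw [← h3, hlen]; omega) ⟨(d + c) :: (l1 ++ l2), ?_, ?_, by simp⟩
      · intro e he
        rcases List.mem_cons.1 he with he | he
        · rw [he]
          exact h.add_Psi hdP hc h5
        · refine h1 e ?_
          rcases List.mem_append.1 he with he | he
          · simp [he]
          · simp [he]
      · rw [← h2, hsum, List.sum_cons]
        abel
  have h5 : (0 : ℝ) ≤ inner ℝ l.sum c := by
    clear h1 h2 h3 hmin
    induction l with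
    | nil => simp
    | cons d l ih =>
      rw [List.sum_cons, inner_add_left]
      have := h4 d (by simp)
      have := ih (fun e he => h4 e (by simp [he]))
      linarith
  rw [← h2, List.sum_cons, inner_add_left, (mem_Psi.1 hc).2]
  linarith

/-- the set of weights is stable under the reflections -/
theorem Sat.refl (hX : Sat Φ X) {a x : E} (ha : a ∈ Φ) (hna : -a ∈ Φ) (hx : x ∈ X) : x - co a x • a ∈ X := by
  obtain ⟨k, hk⟩ := hX.int a ha x hx
  rcases le_or_gt 0 k with h0 | h0
  · obtain ⟨m, rfl⟩ := Int.eq_ofNat_of_zero_le h0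
    have h1 := hX.str a ha x hx m (by rw [hk]; norm_cast)
    rw [hk]
    exact_mod_cast h1
  · obtain ⟨m, hm⟩ := Int.eq_ofNat_of_zero_le (by omega : 0 ≤ -k)
    have h1 := hX.str (-a) hna x hx m (by
      rw [co_neg_left, hk]
      have : (-(k : ℝ)) = (m : ℝ) := by exact_mod_cast hm
      rw [this])
    have h2 : x - co a x • a = x - (m : ℝ) • -a := by
      rw [hk]
      have : (k : ℝ) = -(m : ℝ) := by
        have : (-(k : ℝ)) = (m : ℝ) := by exact_mod_cast hm
        linarith
      rw [this, neg_smul, smul_neg]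
    rw [h2]
    exact h1

theorem Sat.psi_sub (h : NRS Φ) (hX : Sat Φ X) (h0 : (0 : E) ∈ X) (hne : ∃ x ∈ X, x ≠ 0) : Psi Φ ⊆ X := by
  classical
  -- a nonzero element of minimal norm
  have hYne : (X.filter fun x => x ≠ 0).Nonempty := by
    obtain ⟨x, hx, hx0⟩ := hne
    exact ⟨x, Finset.mem_filter.2 ⟨hx, hx0⟩⟩
  obtain ⟨x, hx, hmin⟩ := Finset.exists_min_image (X.filter fun x => x ≠ 0) (fun x => (inner ℝ x x : ℝ)) hYne
  rw [Finset.mem_filter] at hx
  have hxc : x ∈ AddSubgroup.closure (Φ : Set E) := by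
    have := hX.coset x hx.1 0 h0
    rwa [sub_zero] at this
  obtain ⟨c, hc, h2⟩ := h.exists_two_le hxc hx.2
  have hc' := mem_Psi.1 hc
  have h3 : x - c ∈ X := by
    have := hX.str c hc'.1 x hx.1 1 (by rw [co_Psi hc]; push_cast; linarith)
    rwa [Nat.cast_one, one_smul] at this
  have h4 : x = c := by
    by_contra hxc
    have h5 := hmin (x - c) (Finset.mem_filter.2 ⟨h3, sub_ne_zero.2 hxc⟩)
    rw [inner_sub_left x c, inner_sub_right, inner_sub_right, real_inner_comm x c, hc'.2] at h5
    linarith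
  have h5 := h.orbit (S := {e | e ∈ Psi Φ ∧ e ∈ X}) (fun e he => he.1) ⟨c, hc, h4 ▸ hx.1⟩
    (fun a ha s hs => ⟨h.refl_Psi ha hs.1, hX.refl ha (h.toRS.neg_mem ha) hs.2⟩)
  intro g hg
  have h6 : g ∈ (Psi Φ : Set E) := hg
  rw [← h5] at h6
  exact h6.2

/-- B5: zero is a weight, some neighbour: contradiction -/
theorem Sat.comb_nb (h : NRS Φ) (hX : Sat Φ X) (h0 : (0 : E) ∈ X) (hne : ∃ x ∈ X, x ≠ 0) {g : E} (hg : g ∈ Psi Φ)
    (hu : (Nb Φ g).Nonempty) {p : ℕ} (hp : 25 * X.card ≤ p ^ 2) {a x : E} (ha : a ∈ Φ) (hx : x ∈ X)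
    (hb : (p : ℝ) ≤ co a x + qs Φ a) : False := by
  classical
  have hsub := hX.psi_sub h h0 hne
  have hcard : (Psi Φ).card + 1 ≤ X.card := by
    have h1 : insert (0 : E) (Psi Φ) ⊆ X := by
      intro y hy
      rcases Finset.mem_insert.1 hy with rfl | hy
      · exact h0
      · exact hsub hy
    have h2 := Finset.card_le_card h1
    rwa [Finset.card_insert_of_notMem (fun hz => by
      have := (mem_Psi.1 hz).2
      rw [inner_zero_left] at this
      norm_num at this)] at h2
  -- the maximal pairing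
  obtain ⟨m, hm, hmax⟩ := Finset.exists_max_image (X ×ˢ Psi Φ) (fun q => (inner ℝ q.1 q.2 : ℝ))
    ⟨(0, g), Finset.mem_product.2 ⟨h0, hg⟩⟩
  rw [Finset.mem_product] at hm
  set A : ℝ := inner ℝ m.1 m.2 with hA
  have hmax' : ∀ y ∈ X, ∀ d ∈ Psi Φ, inner ℝ y d ≤ A := fun y hy d hd =>
    hmax (y, d) (Finset.mem_product.2 ⟨hy, hd⟩)
  have hA2 : 2 ≤ A := by
    have := hmax' g (hsub hg) g hg
    rwa [(mem_Psi.1 hg).2] at this
  have hum : (Nb Φ m.2).Nonempty := by
    rw [← Finset.card_pos, h.card_Nb' hg hm.2, Finset.card_pos]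
    exact hu
  have h8 := hX.card_str h hm.2 hum hm.1 hmax'
  rw [← hA] at h8
  have hco : co a x ≤ A := h.co_le (fun d hd => hmax' x hx d hd) ha
  have hpR : (25 : ℝ) * X.card ≤ (p : ℝ) ^ 2 := by exact_mod_cast hp
  have hp0 : (0 : ℝ) ≤ p := Nat.cast_nonneg p
  have hcardR : ((Psi Φ).card : ℝ) + 1 ≤ X.card := by exact_mod_cast hcard
  by_cases h6 : ∀ b ∈ Φ, inner ℝ b b ≠ (6 : ℝ)
  · have h1 := h.qs_le h6 hg hu ha
    have h2 := h.card_Psi h6 hg hu
    set u : ℝ := ((Nb Φ g).card : ℝ) with hu'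
    have hu0 : 0 ≤ u := Nat.cast_nonneg _
    have h3 : (p : ℝ) ≤ A + u / 2 + 7 := by linarith
    have h4 : (p : ℝ) ^ 2 ≤ (A + u / 2 + 7) ^ 2 := by
      exact pow_le_pow_left₀ hp0 h3 2
    nlinarith [sq_nonneg (A - u / 7), sq_nonneg (A * 7 - u)]
  · push Not at h6
    obtain ⟨b, hb6, h6⟩ := h6
    have h1 := h.qs_le_six hb6 h6 ha
    have h3 : (p : ℝ) ≤ A + 5 := by linarith
    have h4 : (p : ℝ) ^ 2 ≤ (A + 5) ^ 2 := pow_le_pow_left₀ hp0 h3 2
    nlinarith

end PF
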