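import Pool.Agent.Helper3.PF.Orth
import Pool.Agent.Helper2.PF.Cb6

/-!
Project PF, block B8: rescaling and assembly.
-/

set_option linter.unusedSectionVars false
set_option linter.unusedVariables false

open Module

namespace PF

variable {E : Type*} [NormedAddCommGroup E] [InnerProductSpace ℝ E] {Φ X : Finset E}

open Classical in
/-- the set multiplied by `c` -/
noncomputable def sc (c : ℝ) (S : Finset E) : Finset E := S.image fun x => c • x

section scale

variable {c : ℝ} (hc : 0 < c)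

theorem mem_sc {S : Finset E} {y : E} : y ∈ sc c S ↔ ∃ x ∈ S, c • x = y := by
  classical
  rw [sc, Finset.mem_image]

include hc

theorem smul_inj' : Function.Injective (fun x : E => c • x) := fun x y h => smul_right_injective E hc.ne' h

theorem smul_mem_sc {S : Finset E} {x : E} : c • x ∈ sc c S ↔ x ∈ S := by
  rw [mem_sc]
  constructor
  · rintro ⟨y, hy, h⟩
    rw [← smul_inj' hc h]
    exact hy
  · intro h
    exact ⟨x, h, rfl⟩

theorem card_sc {S : Finset E} : (sc c S).card = S.card := by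
  classical
  rw [sc, Finset.card_image_of_injective _ (smul_inj' hc)]

theorem co_sc (a x : E) : co (c • a) (c • x) = co a x := by
  unfold co
  rw [inner_smul_left, inner_smul_right, inner_smul_left, inner_smul_right]
  simp only [conj_trivial]
  by_cases h : (inner ℝ a a : ℝ) = 0
  · rw [h]
    simp
  · field_simp

theorem qs_sc (a : E) : qs (sc c Φ) (c • a) = qs Φ a := by
  classical
  unfold qs
  rw [sc, Finset.sum_image (fun x _ y _ h => smul_inj' hc h)]
  simp only [co_sc hc]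

theorem RS.sc (h : RS Φ) : RS (sc c Φ) where
  nonempty := by
    obtain ⟨a, ha⟩ := h.nonempty
    exact ⟨c • a, (smul_mem_sc hc).2 ha⟩
  ne_zero := by
    intro a ha
    obtain ⟨b, hb, rfl⟩ := mem_sc.1 ha
    exact smul_ne_zero hc.ne' (h.ne_zero b hb)
  int := by
    intro a ha b hb
    obtain ⟨a', ha', rfl⟩ := mem_sc.1 ha
    obtain ⟨b', hb', rfl⟩ := mem_sc.1 hb
    rw [co_sc hc]
    exact h.int a' ha' b' hb'
  refl := by
    intro a ha b hb
    obtain ⟨a', ha', rfl⟩ := mem_sc.1 ha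
    obtain ⟨b', hb', rfl⟩ := mem_sc.1 hb
    rw [co_sc hc, smul_comm, ← smul_sub]
    exact (smul_mem_sc hc).2 (h.refl a' ha' b' hb')
  red := by
    intro a ha k hk
    obtain ⟨a', ha', rfl⟩ := mem_sc.1 ha
    rw [smul_comm] at hk
    exact h.red a' ha' k ((smul_mem_sc hc).1 hk)
  irr := by
    classical
    intro S hS hne horth
    have h1 := h.irr (Φ.filter fun a => c • a ∈ S) (Finset.filter_subset _ _) ?_ ?_
    · refine Finset.Subset.antisymm hS ?_
      intro y hy
      obtain ⟨a, ha, rfl⟩ := mem_sc.1 hy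
      rw [← h1] at ha
      exact (Finset.mem_filter.1 ha).2
    · obtain ⟨y, hy⟩ := hne
      obtain ⟨a, ha, rfl⟩ := mem_sc.1 (hS hy)
      exact ⟨a, Finset.mem_filter.2 ⟨ha, hy⟩⟩
    · intro a ha b hb hbn
      rw [Finset.mem_filter] at ha hbn
      have h2 := horth (c • a) ha.2 (c • b) ((smul_mem_sc hc).2 hb) (fun hn => hbn ⟨hb, hn⟩)
      rw [inner_smul_left, inner_smul_right] at h2
      simp only [conj_trivial] at h2
      rcases mul_eq_zero.1 h2 with h3 | h3
      · exact absurd h3 hc.ne'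
      · rcases mul_eq_zero.1 h3 with h4 | h4
        · exact absurd h4 hc.ne'
        · exact h4

theorem Sat.sc (h : Sat Φ X) : Sat (sc c Φ) (PF.sc c X) where
  nonempty := by
    obtain ⟨a, ha⟩ := h.nonempty
    exact ⟨c • a, (smul_mem_sc hc).2 ha⟩
  int := by
    intro a ha b hb
    obtain ⟨a', ha', rfl⟩ := mem_sc.1 ha
    obtain ⟨b', hb', rfl⟩ := mem_sc.1 hb
    rw [co_sc hc]
    exact h.int a' ha' b' hb'
  str := by
    intro a ha b hb j hj
    obtain ⟨a', ha', rfl⟩ := mem_sc.1 ha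
    obtain ⟨b', hb', rfl⟩ := mem_sc.1 hb
    rw [co_sc hc] at hj
    rw [smul_comm, ← smul_sub]
    exact (smul_mem_sc hc).2 (h.str a' ha' b' hb' j hj)
  neg := by
    intro x hx
    obtain ⟨x', hx', rfl⟩ := mem_sc.1 hx
    rw [← smul_neg]
    exact (smul_mem_sc hc).2 (h.neg x' hx')
  coset := by
    intro x hx y hy
    obtain ⟨x', hx', rfl⟩ := mem_sc.1 hx
    obtain ⟨y', hy', rfl⟩ := mem_sc.1 hy
    rw [← smul_sub]
    have h1 := h.coset x' hx' y' hy'
    generalize x' - y' = z at h1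
    induction h1 using AddSubgroup.closure_induction with
    | mem a ha => exact AddSubgroup.subset_closure ((smul_mem_sc hc).2 ha)
    | zero => rw [smul_zero]; exact AddSubgroup.zero_mem _
    | add a b _ _ iha ihb => rw [smul_add]; exact AddSubgroup.add_mem _ iha ihb
    | neg a _ iha => rw [smul_neg]; exact AddSubgroup.neg_mem _ iha

theorem eq_inv_iff (y z : E) : c • y = z ↔ y = c⁻¹ • z := by
  constructor
  · rintro rfl
    rw [smul_smul, inv_mul_cancel₀ hc.ne', one_smul]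
  · rintro rfl
    rw [smul_smul, mul_inv_cancel₀ hc.ne', one_smul]

theorem TypeA.of_sc (h : TypeA (PF.sc c Φ)) : TypeA Φ := by
  obtain ⟨a, ha⟩ := h
  refine ⟨c⁻¹ • a, fun y => ?_⟩
  rw [← smul_mem_sc hc, ha, eq_inv_iff hc, eq_inv_iff hc, smul_neg]

theorem TypeB.of_sc (h : TypeB (PF.sc c Φ) (PF.sc c X)) : TypeB Φ X := by
  obtain ⟨N, x, hx, k, hk, h1, h2⟩ := h
  refine ⟨N, x, hx, c⁻¹ * k, mul_pos (inv_pos.2 hc) hk, fun y => ?_, fun y => ?_⟩
  · rw [← smul_mem_sc hc, h1]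
    simp only [eq_inv_iff hc, smul_zero, smul_neg, smul_smul]
  · rw [← smul_mem_sc hc, h2]
    simp only [eq_inv_iff hc, smul_neg, smul_smul]

theorem TypeD.of_sc (h : TypeD (PF.sc c Φ) (PF.sc c X)) : TypeD Φ X := by
  obtain ⟨N, x, hx, k, hk, h3, h1, h2⟩ := h
  refine ⟨N, x, hx, c⁻¹ * k, mul_pos (inv_pos.2 hc) hk, h3, fun y => ?_, fun i j hij => ?_⟩
  · rw [← smul_mem_sc hc, h1]
    simp only [eq_inv_iff hc, smul_neg, smul_smul]
  · obtain ⟨a1, a2, a3⟩ := h2 i j hij
    have e : ∀ z : E, c • ((c⁻¹ * k) • z) = k • z := by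
      intro z
      rw [smul_smul, ← mul_assoc, mul_inv_cancel₀ hc.ne', one_mul]
    refine ⟨?_, ?_, ?_⟩
    · rw [← smul_mem_sc hc, e]; exact a1
    · rw [← smul_mem_sc hc, e]; exact a2
    · rw [← smul_mem_sc hc, smul_neg, e]; exact a3

end scale

theorem NRS.comb (h : NRS Φ) (hX : Sat Φ X) (hne : ∃ x ∈ X, x ≠ 0) {p : ℕ} (hp : 25 * X.card ≤ p ^ 2) {a x : E}
    (ha : a ∈ Φ) (hx : x ∈ X) (hb : (p : ℝ) ≤ co a x + qs Φ a) : TypeA Φ ∨ TypeB Φ X ∨ TypeD Φ X := by
  by_cases h0 : (0 : E) ∈ X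
  · by_cases hu : ∃ g ∈ Psi Φ, (Nb Φ g).Nonempty
    · obtain ⟨g, hg, hu⟩ := hu
      exact absurd (hX.comb_nb h h0 hne hg hu hp ha hx hb) id
    · push Not at hu
      rcases hX.comb_orth h h0 hne hu hp ha hx hb with h1 | h1
      · exact Or.inl h1
      · exact Or.inr (Or.inl h1)
  · rcases hX.comb_two h h0 hp ha hx hb with h1 | h1
    · exact Or.inl h1
    · exact Or.inr (Or.inr h1)

/-- B8: the combinatorial theorem -/
theorem comb (h : RS Φ) (hX : Sat Φ X) (hne : ∃ x ∈ X, x ≠ 0) {p : ℕ} (hp : 25 * X.card ≤ p ^ 2) {a x : E}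
    (ha : a ∈ Φ) (hx : x ∈ X) (hb : (p : ℝ) ≤ co a x + qs Φ a) : TypeA Φ ∨ TypeB Φ X ∨ TypeD Φ X := by
  obtain ⟨m, hm, hmin⟩ := Finset.exists_min_image Φ (fun x => (inner ℝ x x : ℝ)) h.nonempty
  have hm0 : (0 : ℝ) < inner ℝ m m := real_inner_self_pos.2 (h.ne_zero m hm)
  set c : ℝ := Real.sqrt (2 / inner ℝ m m) with hcdef
  have hc : 0 < c := Real.sqrt_pos.2 (by positivity)
  have hcc : c * c = 2 / inner ℝ m m := Real.mul_self_sqrt (by positivity)
  have hN : NRS (PF.sc c Φ) := by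
    refine ⟨h.sc hc, ?_, c • m, (smul_mem_sc hc).2 hm, ?_⟩
    · intro a ha
      obtain ⟨a', ha', rfl⟩ := mem_sc.1 ha
      rw [inner_smul_left, inner_smul_right]
      simp only [conj_trivial]
      rw [← mul_assoc, hcc, div_mul_eq_mul_div, le_div_iff₀ hm0]
      have := hmin a' ha'
      linarith
    · rw [inner_smul_left, inner_smul_right]
      simp only [conj_trivial]
      rw [← mul_assoc, hcc]
      field_simp
  have h1 := hN.comb (hX.sc hc) (by
      obtain ⟨x, hx, hx0⟩ := hne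
      exact ⟨c • x, (smul_mem_sc hc).2 hx, smul_ne_zero hc.ne' hx0⟩) (p := p) (by rw [card_sc hc]; exact hp)
    ((smul_mem_sc hc).2 ha) ((smul_mem_sc hc).2 hx) (by rw [co_sc hc, qs_sc hc]; exact hb)
  rcases h1 with h1 | h1 | h1
  · exact Or.inl (h1.of_sc hc)
  · exact Or.inr (Or.inl (h1.of_sc hc))
  · exact Or.inr (Or.inr (h1.of_sc hc))

end PF
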