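import Pool.Agent.Helper3.PF.LDefs
import Pool.Agent.Helper88.MT.Extremal

/-!
Project PF / L2: the character is invariant under the Weyl group.
-/

open Module LieModule LieAlgebra LieAlgebra.IsKilling AddMonoidAlgebra MTP.MF PF.W

namespace PF.L

section sl

variable {K : Type*} [Field K] [CharZero K] {L : Type*} [LieRing L] [LieAlgebra K L]
  {V : Type*} [AddCommGroup V] [Module K V] [LieRingModule L V] [LieModule K L V]

private lemma h_pow {h e f : L} (ht : IsSl2Triple h e f) {u : V} {lam : K} (hu : ⁅h, u⁆ = lam • u) (j : ℕ) :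
    ⁅h, (toEnd K L V f ^ j) u⁆ = (lam - 2 * j) • (toEnd K L V f ^ j) u := by
  induction j with
  | zero => simpa using hu
  | succ j ih =>
    rw [pow_succ', Module.End.mul_apply, toEnd_apply_apply, leibniz_lie, ht.lie_h_f_nsmul, ih, lie_smul, neg_lie,
      nsmul_lie]
    push_cast
    module

private lemma e_pow {h e f : L} (ht : IsSl2Triple h e f) {u : V} {lam : K} (hu : ⁅h, u⁆ = lam • u) (j : ℕ) :
    ⁅e, (toEnd K L V f ^ (j + 1)) u⁆ = (toEnd K L V f ^ (j + 1)) ⁅e, u⁆ + (((j : K) + 1) * (lam - j)) • (toEnd K L V f ^ j) u := by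
  induction j with
  | zero =>
    simp only [zero_add, pow_one, toEnd_apply_apply, pow_zero, Module.End.one_apply, Nat.cast_zero]
    rw [leibniz_lie, ht.lie_e_f, hu]
    module
  | succ j ih =>
    rw [pow_succ', Module.End.mul_apply, toEnd_apply_apply, leibniz_lie, ht.lie_e_f, ih, h_pow ht hu, lie_add, lie_smul,
      Module.End.mul_apply, toEnd_apply_apply]
    have h1 : ⁅f, (toEnd K L V f ^ j) u⁆ = (toEnd K L V f ^ (j + 1)) u := by
      rw [pow_succ', Module.End.mul_apply, toEnd_apply_apply]
    rw [h1]
    push_cast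
    module

private lemma inj {h e f : L} (ht : IsSl2Triple h e f) (r : ℕ) : ∀ (u : V) (n lam : ℕ), (toEnd K L V e ^ r) u = 0 →
    ⁅h, u⁆ = (lam : K) • u → n ≤ lam → (toEnd K L V f ^ n) u = 0 → u = 0 := by
  induction r with
  | zero => intro u n lam h0 _ _ _; simpa using h0
  | succ r ih =>
    intro u n lam hr hu hn hf
    have he : ⁅e, u⁆ = 0 := by
      refine ih ⁅e, u⁆ (n + 1) (lam + 2) ?_ ?_ (by omega) ?_
      · rw [pow_succ, Module.End.mul_apply, toEnd_apply_apply] at hr
        exact hr
      · rw [leibniz_lie, ht.lie_h_e_nsmul, hu, lie_smul, nsmul_lie]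
        push_cast
        module
      · have h1 := e_pow ht hu n
        have h2 : (toEnd K L V f ^ (n + 1)) u = 0 := by
          rw [pow_succ', Module.End.mul_apply, hf, map_zero]
        rw [h2, lie_zero, hf, smul_zero, add_zero] at h1
        exact h1.symm
    clear ih hr
    induction n with
    | zero => simpa using hf
    | succ n ihn =>
      apply ihn (by omega)
      have h1 := e_pow ht hu n
      rw [hf, he, lie_zero, map_zero, zero_add] at h1
      have h2 : ((n : K) + 1) * ((lam : K) - n) ≠ 0 := by
        refine mul_ne_zero (by exact_mod_cast Nat.succ_ne_zero n) ?_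
        rw [sub_ne_zero]
        intro h3
        have : lam = n := by exact_mod_cast h3
        omega
      exact (smul_eq_zero.1 h1.symm).resolve_left h2

private lemma int_eig {h e f : L} [FiniteDimensional K V] (ht : IsSl2Triple h e f) {r : ℕ} {u : V} (hu0 : u ≠ 0) {lam : K}
    (hu : ⁅h, u⁆ = lam • u) (hr : (toEnd K L V e ^ r) u = 0) : ∃ k : ℤ, lam = (k : K) := by
  induction r generalizing u lam with
  | zero => exact absurd (by simpa using hr) hu0
  | succ r ih =>
    by_cases he : ⁅e, u⁆ = 0
    · have P : ht.HasPrimitiveVectorWith u lam := ⟨hu0, hu, he⟩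
      obtain ⟨n, hn⟩ := P.exists_nat
      exact ⟨n, by rw [hn]; simp⟩
    · obtain ⟨k, hk⟩ := ih (u := ⁅e, u⁆) (lam := lam + 2) he (by
        rw [leibniz_lie, ht.lie_h_e_nsmul, hu, lie_smul, nsmul_lie]
        push_cast
        module) (by
        rw [pow_succ, Module.End.mul_apply, toEnd_apply_apply] at hr
        exact hr)
      exact ⟨k - 2, by push_cast; rw [← hk]; ring⟩

end sl

variable {K : Type*} [Field K] [CharZero K] [IsAlgClosed K]
  {L : Type*} [LieRing L] [LieAlgebra K L] [FiniteDimensional K L] [IsKilling K L]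
  {H : LieSubalgebra K L} [H.IsCartanSubalgebra]
  {V : Type*} [AddCommGroup V] [Module K V] [FiniteDimensional K V]
  [LieRingModule L V] [LieModule K L V] {I : Type*} [Fintype I]

private lemma nilp {α : Weight K H L} (hα : α.IsNonZero) {x : L} (hx : x ∈ rootSpace H α) :
    ∃ r : ℕ, ∀ u : V, (toEnd K L V x ^ r) u = 0 := by
  obtain ⟨r, hr⟩ := LieModule.isNilpotent_toEnd_of_mem_rootSpace V H hα hx
  exact ⟨r, fun u => by rw [hr]; rfl⟩

theorem integral_w (B : WB (V := V) H I) (i : I) : Integral (rootSystem H) (B.w i) := by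
  intro α
  obtain ⟨e, f, ht, he, hf⟩ := exists_triple α
  obtain ⟨r, hr⟩ := nilp (V := V) (H.isNonZero_coe_root α) he
  obtain ⟨k, hk⟩ := int_eig ht (B.v.ne_zero i) (B.lie_v i (coroot α.1)) (hr (B.v i))
  exact ⟨k, hk⟩

/-- the weight space -/
private def ws (H : LieSubalgebra K L) (V : Type*) [AddCommGroup V] [Module K V] [LieRingModule L V] [LieModule K L V]
    (μ : Dual K H) : Submodule K V where
  carrier := {u | ∀ h : H, ⁅(h : L), u⁆ = μ h • u}
  add_mem' := by
    intro a b ha hb h
    rw [lie_add, ha h, hb h, smul_add]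
  zero_mem' := by
    intro h
    simp
  smul_mem' := by
    intro c a ha h
    rw [lie_smul, ha h, smul_comm]

open Classical in
private lemma finrank_ws (B : WB (V := V) H I) (μ : Dual K H) :
    finrank K (ws H V μ) = (Finset.univ.filter fun i => B.w i = μ).card := by
  have h1 : ws H V μ = Submodule.span K (Set.range fun i : {i // B.w i = μ} => B.v i) := by
    apply le_antisymm
    · intro u hu
      rw [← B.v.sum_repr u]
      refine Submodule.sum_mem _ fun i _ => ?_
      by_cases h : B.v.repr u i = 0
      · rw [h, zero_smul]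
        exact zero_mem _
      · refine Submodule.smul_mem _ _ (Submodule.subset_span ⟨⟨i, ?_⟩, rfl⟩)
        ext x
        exact B.coord (hu x) h
    · rw [Submodule.span_le]
      rintro _ ⟨⟨i, hi⟩, rfl⟩ x
      change ⁅(x : L), B.v i⁆ = μ x • B.v i
      rw [B.lie_v, hi]
  have h2 := finrank_span_eq_card (B.v.linearIndependent.comp (Subtype.val : {i // B.w i = μ} → I) Subtype.val_injective)
  rw [h1, ← Fintype.card_subtype]
  exact h2

private lemma pow_ws {α : Dual K H} {x : L} (hx : ∀ h : H, ⁅(h : L), x⁆ = α h • x) {μ : Dual K H} {u : V} (hu : u ∈ ws H V μ)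
    (n : ℕ) : (toEnd K L V x ^ n) u ∈ ws H V (μ + (n : K) • α) := by
  induction n with
  | zero => simpa using hu
  | succ n ih =>
    intro h
    have h1 := ih h
    rw [pow_succ', Module.End.mul_apply, toEnd_apply_apply, leibniz_lie, hx, h1]
    simp only [smul_lie, lie_smul, LinearMap.add_apply, LinearMap.smul_apply, smul_eq_mul]
    push_cast
    module

open Classical in
private lemma mult_le (B : WB (V := V) H I) (α : H.root) (μ : Dual K H) :
    (Finset.univ.filter fun i => B.w i = μ).card ≤
      (Finset.univ.filter fun i => B.w i = (rootSystem H).reflection α μ).card := by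
  rcases (Finset.univ.filter fun i => B.w i = μ).eq_empty_or_nonempty with h0 | ⟨i, hi⟩
  · rw [h0]
    simp
  rw [Finset.mem_filter] at hi
  obtain ⟨k, hk⟩ := integral_w B i α
  obtain ⟨e, f, ht, he, hf⟩ := exists_triple α
  have hkμ : μ (coroot α.1) = (k : K) := by
    rw [← hi.2]
    exact hk
  have href : (rootSystem H).reflection α μ = μ - (k : K) • (rootSystem H).root α := by
    rw [RootPairing.reflection_apply]
    rw [← hkμ]
    rfl
  rw [← finrank_ws, ← finrank_ws, href]
  have hx : ∀ h : H, ⁅(h : L), e⁆ = (rootSystem H).root α h • e := fun h => lie_root he h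
  have hy : ∀ h : H, ⁅(h : L), f⁆ = (-(rootSystem H).root α) h • f := by
    intro h
    have := lie_eq_smul_of_mem_rootSpace hf h
    exact this
  have hfα : f ∈ rootSpace H (-α.1) := hf
  rcases le_total 0 k with hk0 | hk0
  · obtain ⟨n, rfl⟩ := Int.eq_ofNat_of_zero_le hk0
    obtain ⟨r, hr⟩ := nilp (V := V) (H.isNonZero_coe_root α) he
    have hmap : ∀ u ∈ ws H V μ, (toEnd K L V f ^ n) u ∈ ws H V (μ - ((n : ℤ) : K) • (rootSystem H).root α) := by
      intro u hu
      have h1 := pow_ws hy hu n
      have h2 : μ + (n : K) • -(rootSystem H).root α = μ - ((n : ℤ) : K) • (rootSystem H).root α := by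
        push_cast
        module
      rwa [h2] at h1
    refine LinearMap.finrank_le_finrank_of_injective (f := (toEnd K L V f ^ n).restrict hmap) ?_
    rw [← LinearMap.ker_eq_bot, LinearMap.ker_eq_bot']
    rintro ⟨u, hu⟩ h1
    have h2 : (toEnd K L V f ^ n) u = 0 := congrArg Subtype.val h1
    have h3 := inj ht r u n n (hr u) (by rw [hu (coroot α.1), hkμ]; simp) le_rfl h2
    exact Subtype.ext h3
  · obtain ⟨n, hn⟩ := Int.eq_ofNat_of_zero_le (neg_nonneg.2 hk0)
    have hkn : k = -(n : ℤ) := by linarith
    subst hkn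
    have hnz : (-α.1 : Weight K H L).IsNonZero := by
      intro h
      exact (H.isNonZero_coe_root α) (by simpa using h)
    obtain ⟨r, hr⟩ := nilp (V := V) hnz hfα
    have hmap : ∀ u ∈ ws H V μ, (toEnd K L V e ^ n) u ∈ ws H V (μ - ((-(n : ℤ) : ℤ) : K) • (rootSystem H).root α) := by
      intro u hu
      have h1 := pow_ws hx hu n
      have h2 : μ + (n : K) • (rootSystem H).root α = μ - ((-(n : ℤ) : ℤ) : K) • (rootSystem H).root α := by
        push_cast
        module
      rwa [h2] at h1
    refine LinearMap.finrank_le_finrank_of_injective (f := (toEnd K L V e ^ n).restrict hmap) ?_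
    rw [← LinearMap.ker_eq_bot, LinearMap.ker_eq_bot']
    rintro ⟨u, hu⟩ h1
    have h2 : (toEnd K L V e ^ n) u = 0 := congrArg Subtype.val h1
    have h3 := inj ht.symm r u n n (hr u) (by rw [neg_lie, hu (coroot α.1), hkμ]; push_cast; module) le_rfl h2
    exact Subtype.ext h3

theorem act_chi (B : WB (V := V) H I) (α : H.root) : act ((rootSystem H).reflection α) (chi B) = chi B := by
  classical
  have hcoeff : ∀ μ : Dual K H, (chi B).coeff μ = ((Finset.univ.filter fun i => B.w i = μ).card : K) := by
    intro μ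
    unfold chi
    rw [AddMonoidAlgebra.coeff_sum, Finsupp.finset_sum_apply, Finset.card_filter]
    push_cast
    refine Finset.sum_congr rfl fun i _ => ?_
    rw [AddMonoidAlgebra.coeff_single, Finsupp.single_apply]
  ext μ
  rw [act_coeff, hcoeff, hcoeff]
  congr 1
  have hsymm : ((rootSystem H).reflection α).symm μ = (rootSystem H).reflection α μ := by
    rw [LinearEquiv.symm_apply_eq, RootPairing.reflection_same]
  rw [hsymm]
  apply le_antisymm
  · have := mult_le B α ((rootSystem H).reflection α μ)
    rwa [RootPairing.reflection_same] at this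
  · exact mult_le B α μ

end PF.L
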