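import Pool.Agent.Helper3.PF.LDefs
import Pool.Agent.Helper88.MT.Extremal
import Pool.Agent.Helper93.SR.Cas

/-!
Project PF / L: block L1, the Casimir operator and the traces of `e f`, `f e` on the weight spaces.
-/

open Module LieModule LieAlgebra LieAlgebra.IsKilling AddMonoidAlgebra MTP MTP.MF PF.W

namespace PF.L

variable {K : Type*} [Field K] [CharZero K] [IsAlgClosed K]
  {L : Type*} [LieRing L] [LieAlgebra K L] [FiniteDimensional K L] [IsKilling K L]
  {H : LieSubalgebra K L} [H.IsCartanSubalgebra]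
  {V : Type*} [AddCommGroup V] [Module K V] [FiniteDimensional K V]
  [LieRingModule L V] [LieModule K L V] {I : Type*} [Fintype I]

/-- the weights are integral -/
private lemma hint6 (B : WB (V := V) H I) (i : I) (α : H.root) : ∃ a : ℤ, B.w i (coroot α.1) = (a : K) := by
  classical
  obtain ⟨e, f, ht, he, hf⟩ := exists_triple α
  have hnil : _root_.IsNilpotent (toEnd K L V e) := by
    refine isNilpotent_toEnd_of_mem_rootSpace (M := V) H ?_ he
    intro h
    exact H.isNonZero_coe_root α h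
  obtain ⟨N, hN⟩ := hnil
  have hex : ∃ k, ((toEnd K L V e) ^ k) (B.v i) = 0 := ⟨N, by rw [hN]; rfl⟩
  have hk0 : Nat.find hex ≠ 0 := by
    intro h
    have h1 := Nat.find_spec hex
    rw [h, pow_zero] at h1
    exact B.v.ne_zero i h1
  obtain ⟨m, hm⟩ := Nat.exists_eq_succ_of_ne_zero hk0
  have hu0 : ((toEnd K L V e) ^ m) (B.v i) ≠ 0 := Nat.find_min hex (by omega)
  have hu1 : ((toEnd K L V e) ^ (m + 1)) (B.v i) = 0 := by
    have h1 := Nat.find_spec hex
    rwa [hm] at h1
  have hw : ∀ n : ℕ, ⁅((coroot α.1 : H) : L), ((toEnd K L V e) ^ n) (B.v i)⁆ =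
      (B.w i (coroot α.1) + 2 * n) • ((toEnd K L V e) ^ n) (B.v i) := by
    intro n
    induction n with
    | zero =>
      rw [pow_zero, Module.End.one_apply, B.lie_v, Nat.cast_zero, mul_zero, add_zero]
    | succ n ih =>
      rw [pow_succ', Module.End.mul_apply, toEnd_apply_apply, leibniz_lie, ih, lie_smul, ht.lie_h_e_nsmul, nsmul_lie,
        ← Nat.cast_smul_eq_nsmul K 2, ← add_smul]
      congr 1
      push_cast
      ring
  have hprim : ht.HasPrimitiveVectorWith (((toEnd K L V e) ^ m) (B.v i)) (B.w i (coroot α.1) + 2 * m) := by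
    refine ⟨hu0, hw m, ?_⟩
    rw [pow_succ', Module.End.mul_apply, toEnd_apply_apply] at hu1
    exact hu1
  obtain ⟨n, hn⟩ := hprim.exists_nat
  refine ⟨n - 2 * m, ?_⟩
  push_cast
  linear_combination hn

/-- the trace of `e f` is half of a sum of squares of integers -/
private lemma tau6 (B : WB (V := V) H I) {α : H.root} {e f : L}
    (ht : IsSl2Triple ((coroot α.1 : H) : L) e f) (he : e ∈ rootSpace H α.1) {a : I → ℤ}
    (ha : ∀ i, B.w i (coroot α.1) = (a i : K)) : 2 * traceForm K L V e f = ((∑ i, a i * a i : ℤ) : K) := by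
  have h1 := tf_coroot_self (V := V) ht he
  have h2 : traceForm K H V (coroot α.1) (coroot α.1) =
      traceForm K L V ((coroot α.1 : H) : L) ((coroot α.1 : H) : L) := rfl
  rw [h2, B.traceForm_apply] at h1
  rw [← h1]
  push_cast
  exact Finset.sum_congr rfl fun i _ => by rw [ha i]

private lemma tau_pos6 (hfaith : ∀ x : L, (∀ u : V, ⁅x, u⁆ = 0) → x = 0)
    (B : WB (V := V) H I) {α : H.root} {e f : L}
    (ht : IsSl2Triple ((coroot α.1 : H) : L) e f) {a : I → ℤ}
    (ha : ∀ i, B.w i (coroot α.1) = (a i : K)) : 0 < ∑ i, a i * a i := by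
  rcases (Finset.sum_nonneg fun i _ => mul_self_nonneg (a i)).lt_or_eq with h | h
  · exact h
  exfalso
  have h5 : ∀ i, a i = 0 := by
    intro i
    have h6 := (Finset.sum_eq_zero_iff_of_nonneg fun i _ => mul_self_nonneg (a i)).1 h.symm i (Finset.mem_univ i)
    exact mul_self_eq_zero.1 h6
  apply ht.h_ne_zero
  refine hfaith _ fun u => ?_
  rw [← B.v.sum_repr u, lie_sum]
  refine Finset.sum_eq_zero fun i _ => ?_
  rw [lie_smul, B.lie_v, ha i, h5 i]
  simp

private lemma tau_ne6 (hfaith : ∀ x : L, (∀ u : V, ⁅x, u⁆ = 0) → x = 0)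
    (B : WB (V := V) H I) {α : H.root} {e f : L}
    (ht : IsSl2Triple ((coroot α.1 : H) : L) e f) (he : e ∈ rootSpace H α.1) : traceForm K L V e f ≠ 0 := by
  intro h0
  choose a ha using fun i => hint6 B i α
  have h1 := tau6 B ht he ha
  have h2 := tau_pos6 hfaith B ht ha
  rw [h0, mul_zero] at h1
  have h3 : ∑ i, a i * a i = 0 := by exact_mod_cast h1.symm
  omega

omit [CharZero K] [IsAlgClosed K] [FiniteDimensional K V] [FiniteDimensional K L] [IsKilling K L] [H.IsCartanSubalgebra] in
private lemma orth6 {z w : L} {h : L} {c d : K} (hz : ⁅h, z⁆ = c • z) (hw : ⁅h, w⁆ = d • w) (hne : c + d ≠ 0) :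
    traceForm K L V z w = 0 := by
  have h3 := traceForm_apply_lie_apply K L V z h w
  rw [← lie_skew, hz, hw] at h3
  simp only [map_neg, map_smul, LinearMap.neg_apply, LinearMap.smul_apply, smul_eq_mul] at h3
  have h4 : (c + d) * traceForm K L V z w = 0 := by linear_combination -h3
  exact (mul_eq_zero.1 h4).resolve_left hne

private lemma exists_neg6 (β : H.root) : ∃ α : H.root, α = (rootSystem H).reflectionPerm β β ∧ ∀ h, α.1 h = -β.1 h := by
  refine ⟨_, rfl, fun h => ?_⟩
  have h1 : (rootSystem H).root ((rootSystem H).reflectionPerm β β) = -(rootSystem H).root β := by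
    rw [RootPairing.root_reflectionPerm, RootPairing.reflection_apply_self]
  exact congrArg (fun f : Dual K H => f h) h1

private lemma ab6 (h x : H) : ⁅(h : L), (x : L)⁆ = (0 : K) • (x : L) := by
  rw [zero_smul]
  have h1 : ⁅h, x⁆ = 0 := trivial_lie_zero H H h x
  exact congrArg (fun w : H => (w : L)) h1

omit [IsKilling K L] [FiniteDimensional K L] [CharZero K] [IsAlgClosed K] in
private lemma line6 {z : L} {χ : H → K} (hz : z ∈ rootSpace H χ) {ψ : H → K} (h : ∀ x, χ x = ψ x) : z ∈ rootSpace H ψ := by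
  have e : χ = ψ := funext h
  rwa [← e]

/-- the trace form is nondegenerate on the Cartan subalgebra -/
private lemma nd6 (hfaith : ∀ x : L, (∀ u : V, ⁅x, u⁆ = 0) → x = 0) (B : WB (V := V) H I) {x : H}
    (hx : ∀ y : H, traceForm K H V x y = 0) : x = 0 := by
  have h1 : ∀ α : Weight K H L, α x = 0 := by
    intro α
    by_cases h0 : α.IsZero
    · exact congrFun h0 x
    · have hα : α ∈ H.root := by simpa [LieSubalgebra.root] using h0
      obtain ⟨e, f, ht, he, hf⟩ := exists_triple (⟨α, hα⟩ : H.root)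
      have h2 := tf_coroot (V := V) ht he x
      rw [hx] at h2
      exact (mul_eq_zero.1 h2.symm).resolve_right (tau_ne6 hfaith B ht he)
  have h2 : x ∈ (⨅ α : Weight K H L, α.ker : Submodule K H) := by
    rw [Submodule.mem_iInf]
    intro α
    exact h1 α
  rw [iInf_ker_weight_eq_bot] at h2
  exact (Submodule.mem_bot K).1 h2

/-- the range of the representation -/
private noncomputable def rg6 (K V L : Type*) [Field K] [AddCommGroup V] [Module K V] [LieRing L] [LieAlgebra K L]
    [LieRingModule L V] [LieModule K L V] : Submodule K (Module.End K V) :=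
  LinearMap.range (toEnd K L V : L →ₗ[K] Module.End K V)

open Classical in
private lemma exists_dual6 (hfaith : ∀ x : L, (∀ u : V, ⁅x, u⁆ = 0) → x = 0) (B : WB (V := V) H I)
    (ea fa : H.root → L) (ht : ∀ α : H.root, IsSl2Triple ((coroot α.1 : H) : L) (ea α) (fa α))
    (he : ∀ α, ea α ∈ rootSpace H α.1) (hf : ∀ α, fa α ∈ rootSpace H (-α.1)) :
    ∃ (r : ℕ) (p q : Fin r → H),
      (∀ z : L, ∑ α : H.root, traceForm K L V z ((traceForm K L V (ea α) (fa α))⁻¹ • fa α) • ea α +
        ∑ i, traceForm K L V z (q i : L) • (p i : L) = z) ∧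
      (∀ z : L, ∑ α : H.root, traceForm K L V z (ea α) • ((traceForm K L V (ea α) (fa α))⁻¹ • fa α) +
        ∑ i, traceForm K L V z (p i : L) • (q i : L) = z) ∧
      (∀ x : H, ∑ i, traceForm K H V x (q i) • p i = x) ∧ (∀ x : H, ∑ i, traceForm K H V x (p i) • q i = x) := by
  have hτ : ∀ α : H.root, traceForm K L V (ea α) (fa α) ≠ 0 := fun α => tau_ne6 hfaith B (ht α) (he α)
  let T : LinearMap.BilinForm K H := traceForm K H V
  have hsym : T.IsSymm := ⟨fun x y => traceForm_comm K H V x y⟩
  have hnd : T.Nondegenerate := by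
    refine (LinearMap.IsRefl.nondegenerate_iff_separatingLeft (B := T) hsym.isRefl).mpr ?_
    intro x hx
    exact nd6 hfaith B hx
  let β := Module.finBasis K H
  let β' := T.dualBasis hnd β
  have hβ' : T.dualBasis hnd β' = β := LinearMap.BilinForm.dualBasis_dualBasis hnd hsym β
  have hTf : ∀ x y : H, T x y = traceForm K L V (x : L) (y : L) := fun x y => rfl
  have j1 : ∀ x : H, ∑ i, T x (β' i) • β i = x := by
    intro x
    refine Eq.trans (Finset.sum_congr rfl fun i _ => ?_) (β.sum_repr x)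
    have h3 := LinearMap.BilinForm.dualBasis_repr_apply (B := T) hnd β' x i
    rw [hβ'] at h3
    rw [h3]
  have j2 : ∀ x : H, ∑ i, T x (β i) • β' i = x := by
    intro x
    refine Eq.trans (Finset.sum_congr rfl fun i _ => ?_) (β'.sum_repr x)
    have h3 := LinearMap.BilinForm.dualBasis_repr_apply (B := T) hnd β x i
    rw [h3]
  have k1 : ∀ x : H, ∑ i, traceForm K L V (x : L) (β' i : L) • (β i : L) = (x : L) := by
    intro x
    have h1 := congrArg (fun w : H => (w : L)) (j1 x)
    simp only [AddSubmonoidClass.coe_finsetSum] at h1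
    exact h1
  have k2 : ∀ x : H, ∑ i, traceForm K L V (x : L) (β i : L) • (β' i : L) = (x : L) := by
    intro x
    have h1 := congrArg (fun w : H => (w : L)) (j2 x)
    simp only [AddSubmonoidClass.coe_finsetSum] at h1
    exact h1
  have two : ∀ α : H.root, α.1 (coroot α.1) = 2 := fun α => root_apply_coroot (H.isNonZero_coe_root α)
  have he' : ∀ (α : H.root) (h : H), ⁅(h : L), ea α⁆ = α.1 h • ea α := fun α h => lie_eq_smul_of_mem_rootSpace (he α) h
  have hf' : ∀ (α : H.root) (h : H), ⁅(h : L), fa α⁆ = (-α.1 h) • fa α := by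
    intro α h
    exact lie_eq_smul_of_mem_rootSpace (hf α) h
  have zero_case : ∀ {χ : Weight K H L} {z : L}, z ∈ rootSpace H χ → χ.IsZero → ∃ x : H, z = (x : L) := by
    intro χ z hz h0
    have h1 : (χ : H → K) = 0 := h0
    rw [h1, LieAlgebra.rootSpace_zero_eq] at hz
    exact ⟨⟨z, hz⟩, rfl⟩
  have ne_case : ∀ {α β : H.root}, α ≠ β → ∃ h, α.1 h ≠ β.1 h := by
    intro α β hne
    by_contra! hcon
    exact hne (Subtype.ext (Weight.ext hcon))
  refine ⟨_, β, β', ?_, ?_, j1, j2⟩
  · intro z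
    let U : Submodule K L := LinearMap.eqLocus
      (∑ α : H.root, LinearMap.smulRight ((traceForm K L V).flip ((traceForm K L V (ea α) (fa α))⁻¹ • fa α)) (ea α) +
        ∑ i, LinearMap.smulRight ((traceForm K L V).flip (β' i : L)) (β i : L)) LinearMap.id
    have hU : ∀ z : L, z ∈ U ↔ ∑ α : H.root, traceForm K L V z ((traceForm K L V (ea α) (fa α))⁻¹ • fa α) • ea α +
        ∑ i, traceForm K L V z (β' i : L) • (β i : L) = z := by
      intro z
      simp only [U, LinearMap.mem_eqLocus, LinearMap.add_apply, LinearMap.sum_apply, LinearMap.smulRight_apply,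
        LinearMap.id_apply]
      exact Iff.rfl
    clear_value U
    rw [← hU]
    refine root_induction (U := U) (H := H) ?_ z
    intro χ z hz
    rw [hU]
    by_cases h0 : χ.IsZero
    · obtain ⟨x, rfl⟩ := zero_case hz h0
      rw [Finset.sum_eq_zero, zero_add, k1 x]
      intro α _
      rw [map_smul, orth6 (ab6 (coroot α.1) x) (hf' α (coroot α.1)) (by rw [two]; norm_num), smul_zero, zero_smul]
    · have hχ : χ ∈ H.root := by simpa [LieSubalgebra.root] using h0
      obtain ⟨γ, hγ⟩ : ∃ γ : H.root, γ.1 = χ := ⟨⟨χ, hχ⟩, rfl⟩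
      rw [← hγ] at hz
      have hz' : ∀ h : H, ⁅(h : L), z⁆ = γ.1 h • z := fun h => lie_eq_smul_of_mem_rootSpace hz h
      have hsum : ∑ i, traceForm K L V z (β' i : L) • (β i : L) = 0 := by
        refine Finset.sum_eq_zero fun i _ => ?_
        rw [orth6 (hz' (coroot γ.1)) (ab6 (coroot γ.1) (β' i)) (by rw [two]; norm_num), zero_smul]
      rw [hsum, add_zero, Finset.sum_eq_single γ]
      · obtain ⟨c, hc⟩ := mem_line (he γ) (fun h => hτ γ (by rw [h, map_zero, LinearMap.zero_apply])) hz
        rw [hc, map_smul, map_smul, LinearMap.smul_apply, smul_eq_mul, smul_eq_mul]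
        congr 1
        have h5 := hτ γ
        field_simp
      · intro α _ hα
        obtain ⟨h, hh⟩ := ne_case hα
        rw [map_smul, orth6 (hz' h) (hf' α h) (by
          intro h1
          exact hh (by linear_combination -h1)), smul_zero, zero_smul]
      · intro h
        exact absurd (Finset.mem_univ γ) h
  · intro z
    let U : Submodule K L := LinearMap.eqLocus
      (∑ α : H.root, LinearMap.smulRight ((traceForm K L V).flip (ea α)) ((traceForm K L V (ea α) (fa α))⁻¹ • fa α) +
        ∑ i, LinearMap.smulRight ((traceForm K L V).flip (β i : L)) (β' i : L)) LinearMap.id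
    have hU : ∀ z : L, z ∈ U ↔ ∑ α : H.root, traceForm K L V z (ea α) • ((traceForm K L V (ea α) (fa α))⁻¹ • fa α) +
        ∑ i, traceForm K L V z (β i : L) • (β' i : L) = z := by
      intro z
      simp only [U, LinearMap.mem_eqLocus, LinearMap.add_apply, LinearMap.sum_apply, LinearMap.smulRight_apply,
        LinearMap.id_apply]
      exact Iff.rfl
    clear_value U
    rw [← hU]
    refine root_induction (U := U) (H := H) ?_ z
    intro χ z hz
    rw [hU]
    by_cases h0 : χ.IsZero
    · obtain ⟨x, rfl⟩ := zero_case hz h0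
      rw [Finset.sum_eq_zero, zero_add, k2 x]
      intro α _
      rw [orth6 (ab6 (coroot α.1) x) (he' α (coroot α.1)) (by rw [two]; norm_num), zero_smul]
    · have hχ : χ ∈ H.root := by simpa [LieSubalgebra.root] using h0
      obtain ⟨γ, hγ⟩ : ∃ γ : H.root, γ.1 = χ := ⟨⟨χ, hχ⟩, rfl⟩
      rw [← hγ] at hz
      have hz' : ∀ h : H, ⁅(h : L), z⁆ = γ.1 h • z := fun h => lie_eq_smul_of_mem_rootSpace hz h
      have hsum : ∑ i, traceForm K L V z (β i : L) • (β' i : L) = 0 := by
        refine Finset.sum_eq_zero fun i _ => ?_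
        rw [orth6 (hz' (coroot γ.1)) (ab6 (coroot γ.1) (β i)) (by rw [two]; norm_num), zero_smul]
      obtain ⟨δ, -, hδ⟩ := exists_neg6 γ
      rw [hsum, add_zero, Finset.sum_eq_single δ]
      · have hfδ : fa δ ∈ rootSpace H γ.1 := by
          refine line6 (hf δ) fun h => ?_
          rw [Pi.neg_apply, hδ, neg_neg]
        obtain ⟨c, hc⟩ := mem_line hfδ (fun h => hτ δ (by rw [h, map_zero])) hz
        rw [hc, map_smul, LinearMap.smul_apply, traceForm_comm K L V (fa δ) (ea δ), smul_smul, smul_eq_mul]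
        congr 1
        have h5 := hτ δ
        field_simp
      · intro α _ hα
        obtain ⟨h, hh⟩ := ne_case hα
        rw [orth6 (hz' h) (he' α h) (by
          intro h1
          apply hh
          rw [hδ]
          linear_combination h1), zero_smul]
      · intro h
        exact absurd (Finset.mem_univ δ) h

omit [FiniteDimensional K L] [IsKilling K L] [CharZero K] in
/-- Schur's lemma -/
private lemma schur6 (hirr : ∀ W : Submodule K V, (∀ x : L, ∀ u ∈ W, ⁅x, u⁆ ∈ W) → W = ⊥ ∨ W = ⊤)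
    {Ω : Module.End K V} (hΩ : ∀ x : L, toEnd K L V x * Ω = Ω * toEnd K L V x) : ∃ c : K, ∀ v, Ω v = c • v := by
  rcases subsingleton_or_nontrivial V with hV | hV
  · exact ⟨0, fun v => Subsingleton.elim _ _⟩
  obtain ⟨c, hc⟩ := Module.End.exists_eigenvalue Ω
  refine ⟨c, fun v => ?_⟩
  have h1 : Module.End.eigenspace Ω c = ⊤ := by
    refine (hirr _ fun x u hu => ?_).resolve_left hc
    rw [Module.End.mem_eigenspace_iff] at hu ⊢
    have h2 := congrArg (fun f : Module.End K V => f u) (hΩ x)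
    simp only [Module.End.mul_apply, toEnd_apply_apply] at h2
    rw [← h2, hu, lie_smul]
  have h2 : v ∈ Module.End.eigenspace Ω c := by
    rw [h1]
    trivial
  exact Module.End.mem_eigenspace_iff.1 h2

open Classical in
/-- the Casimir operator of the trace form -/
private lemma cas6 (hirr : ∀ W : Submodule K V, (∀ x : L, ∀ u ∈ W, ⁅x, u⁆ ∈ W) → W = ⊥ ∨ W = ⊤)
    (ea fa : H.root → L) {r : ℕ} {p q : Fin r → H}
    (hp : ∀ z : L, ∑ α : H.root, traceForm K L V z ((traceForm K L V (ea α) (fa α))⁻¹ • fa α) • ea α +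
        ∑ i, traceForm K L V z (q i : L) • (p i : L) = z)
    (hq : ∀ z : L, ∑ α : H.root, traceForm K L V z (ea α) • ((traceForm K L V (ea α) (fa α))⁻¹ • fa α) +
        ∑ i, traceForm K L V z (p i : L) • (q i : L) = z) :
    ∃ c : K, ∀ v : V, ∑ α : H.root, (traceForm K L V (ea α) (fa α))⁻¹ • ⁅ea α, ⁅fa α, v⁆⁆ +
      ∑ i, ⁅(p i : L), ⁅(q i : L), v⁆⁆ = c • v := by
  have htr : ∀ x y : L, LinearMap.trace K V (toEnd K L V x * toEnd K L V y) = traceForm K L V x y := fun x y => rfl
  -- the dual families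
  let X : H.root ⊕ Fin r → Module.End K V := Sum.elim (fun α => toEnd K L V (ea α)) (fun i => toEnd K L V (p i : L))
  let Y : H.root ⊕ Fin r → Module.End K V := Sum.elim
    (fun α => toEnd K L V ((traceForm K L V (ea α) (fa α))⁻¹ • fa α)) (fun i => toEnd K L V (q i : L))
  have hmem : ∀ x : L, toEnd K L V x ∈ rg6 K V L := fun x => ⟨x, rfl⟩
  have hD : Dl (rg6 K V L) X Y := by
    refine ⟨?_, ?_, ?_, ?_⟩
    · rintro (α | i)
      · exact hmem _
      · exact hmem _
    · rintro (α | i)
      · exact hmem _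
      · exact hmem _
    · rintro _ ⟨z, rfl⟩
      have h1 := congrArg (toEnd K L V : L →ₗ[K] Module.End K V) (hp z)
      rw [Fintype.sum_sum_type]
      refine Eq.trans ?_ h1
      rw [map_add, map_sum, map_sum]
      congr 1
      · refine Finset.sum_congr rfl fun α _ => ?_
        rw [map_smul]
        rfl
      · refine Finset.sum_congr rfl fun i _ => ?_
        rw [map_smul]
        rfl
    · rintro _ ⟨z, rfl⟩
      have h1 := congrArg (toEnd K L V : L →ₗ[K] Module.End K V) (hq z)
      rw [Fintype.sum_sum_type]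
      refine Eq.trans ?_ h1
      rw [map_add, map_sum, map_sum]
      congr 1
      · refine Finset.sum_congr rfl fun α _ => ?_
        rw [map_smul (toEnd K L V : L →ₗ[K] Module.End K V) (traceForm K L V z (ea α))]
        rfl
      · refine Finset.sum_congr rfl fun i _ => ?_
        rw [map_smul]
        rfl
  have hbr : ∀ x ∈ rg6 K V L, ∀ y ∈ rg6 K V L, x * y - y * x ∈ rg6 K V L := by
    rintro _ ⟨x, rfl⟩ _ ⟨y, rfl⟩
    exact ⟨⁅x, y⁆, LinearMap.ext fun u => lie_lie x y u⟩
  obtain ⟨c, hc⟩ := schur6 (V := V) (L := L) hirr (Ω := ∑ i, X i * Y i) (by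
    intro x
    have h1 := hD.inv hbr (hmem x) (LinearMap.mul K (Module.End K V))
    simp only [LinearMap.mul_apply'] at h1
    rw [← sub_eq_zero, Finset.mul_sum, Finset.sum_mul, ← Finset.sum_sub_distrib, ← h1]
    refine Finset.sum_congr rfl fun i _ => ?_
    noncomm_ring)
  refine ⟨c, fun v => ?_⟩
  have h1 := hc v
  rw [Fintype.sum_sum_type, LinearMap.add_apply, LinearMap.sum_apply, LinearMap.sum_apply] at h1
  rw [← h1]
  congr 1
  refine Finset.sum_congr rfl fun α _ => ?_
  change _ = ⁅ea α, ⁅(traceForm K L V (ea α) (fa α))⁻¹ • fa α, v⁆⁆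
  rw [smul_lie, lie_smul]

/-- the dual form -/
private noncomputable def Q6 {r : ℕ} (p q : Fin r → H) : Dual K H →ₗ[K] Dual K H →ₗ[K] K :=
  LinearMap.mk₂ K (fun μ ν => ∑ i, μ (p i) * ν (q i))
    (by
      intro a b c
      simp only [LinearMap.add_apply, add_mul, Finset.sum_add_distrib])
    (by
      intro c a b
      simp only [LinearMap.smul_apply, smul_eq_mul, Finset.mul_sum, mul_assoc])
    (by
      intro a b c
      simp only [LinearMap.add_apply, mul_add, Finset.sum_add_distrib])
    (by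
      intro c a b
      simp only [LinearMap.smul_apply, smul_eq_mul, Finset.mul_sum]
      exact Finset.sum_congr rfl fun i _ => by ring)

private lemma Q6_apply {r : ℕ} (p q : Fin r → H) (μ ν : Dual K H) : Q6 p q μ ν = ∑ i, μ (p i) * ν (q i) := rfl

private lemma Q6_symm {r : ℕ} {p q : Fin r → H} (hp : ∀ x : H, ∑ i, traceForm K H V x (q i) • p i = x)
    (μ ν : Dual K H) : Q6 p q μ ν = Q6 p q ν μ := by
  have h : ∀ μ ν : Dual K H, Q6 p q μ ν = ∑ i, ∑ j, μ (p i) * (traceForm K H V (q i) (q j) * ν (p j)) := by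
    intro μ ν
    rw [Q6_apply]
    refine Finset.sum_congr rfl fun i _ => ?_
    conv_lhs => rw [← hp (q i)]
    rw [map_sum, Finset.mul_sum]
    exact Finset.sum_congr rfl fun j _ => by rw [map_smul, smul_eq_mul]
  rw [h μ ν, h ν μ, Finset.sum_comm]
  refine Finset.sum_congr rfl fun j _ => Finset.sum_congr rfl fun i _ => ?_
  rw [traceForm_comm K H V (q i) (q j)]
  ring

private lemma Q6_root {r : ℕ} {p q : Fin r → H} (hp : ∀ x : H, ∑ i, traceForm K H V x (q i) • p i = x)
    {α : H.root} {e f : L} (ht : IsSl2Triple ((coroot α.1 : H) : L) e f) (he : e ∈ rootSpace H α.1) (μ : Dual K H) :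
    μ (coroot α.1) = traceForm K L V e f * Q6 p q μ ((rootSystem H).root α) := by
  rw [Q6_apply, Finset.mul_sum]
  conv_lhs => rw [← hp (coroot α.1)]
  rw [map_sum]
  refine Finset.sum_congr rfl fun i _ => ?_
  have h1 : (rootSystem H).root α (q i) = α.1 (q i) := rfl
  rw [map_smul, smul_eq_mul, traceForm_comm K H V, tf_coroot ht he, h1]
  ring

omit [CharZero K] [IsAlgClosed K] [FiniteDimensional K L] [IsKilling K L] [H.IsCartanSubalgebra]
  [FiniteDimensional K V] in
private lemma mc6 (B : WB (V := V) H I) (x y : L) (i j : I) :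
    B.v.repr ⁅x, ⁅y, B.v i⁆⁆ j = ∑ k, B.v.repr ⁅y, B.v i⁆ k * B.v.repr ⁅x, B.v k⁆ j := by
  conv_lhs => rw [← B.v.sum_repr ⁅y, B.v i⁆]
  rw [lie_sum, map_sum, Finsupp.finsetSum_apply]
  refine Finset.sum_congr rfl fun k _ => ?_
  rw [lie_smul, map_smul, Finsupp.smul_apply, smul_eq_mul]

private lemma ssum6 {M J : Type*} (s : Finset J) (x : M) (f : J → K) :
    (single x (∑ i ∈ s, f i) : AddMonoidAlgebra K M) = ∑ i ∈ s, single x (f i) := by
  classical
  induction s using Finset.induction_on with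
  | empty => simp
  | insert a s ha ih => rw [Finset.sum_insert ha, Finset.sum_insert ha, single_add, ih]

/-- the sum of the diagonal coefficients of `x y` -/
private noncomputable def S6 (B : WB (V := V) H I) (t : K) (x y : L) : AddMonoidAlgebra K (Dual K H) :=
  ∑ i, single (B.w i) (t * B.v.repr ⁅x, ⁅y, B.v i⁆⁆ i)

private lemma shift6 (B : WB (V := V) H I) (t : K) {α : H.root} {e : L} (he : e ∈ rootSpace H α.1) (f : L) :
    single ((rootSystem H).root α) (1 : K) * S6 B t f e = S6 B t e f := by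
  have h1 : single ((rootSystem H).root α) (1 : K) * S6 B t f e =
      ∑ i, ∑ k, single (B.w k) (t * (B.v.repr ⁅e, B.v i⁆ k * B.v.repr ⁅f, B.v k⁆ i)) := by
    rw [S6, Finset.mul_sum]
    refine Finset.sum_congr rfl fun i _ => ?_
    rw [single_mul_single, one_mul, mc6, Finset.mul_sum, ssum6]
    refine Finset.sum_congr rfl fun k _ => ?_
    by_cases hk : B.v.repr ⁅e, B.v i⁆ k = 0
    · rw [hk]
      simp
    · congr 1
      ext h
      rw [B.coord_root he hk h]
      rfl
  rw [h1, Finset.sum_comm, S6]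
  refine Finset.sum_congr rfl fun k _ => ?_
  rw [mc6, Finset.mul_sum, ssum6]
  refine Finset.sum_congr rfl fun i _ => ?_
  congr 1
  ring

private lemma diff6 (B : WB (V := V) H I) (t : K) {α : H.root} {e f : L} (ht : IsSl2Triple ((coroot α.1 : H) : L) e f) :
    S6 B t e f - S6 B t f e = ∑ i, single (B.w i) (t * B.w i (coroot α.1)) := by
  rw [S6, S6, ← Finset.sum_sub_distrib]
  refine Finset.sum_congr rfl fun i _ => ?_
  rw [← single_sub, ← mul_sub, ← Finsupp.sub_apply, ← map_sub, ← lie_lie, ht.lie_e_f, B.lie_v, map_smul,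
    Finsupp.smul_apply, B.v.repr_self, Finsupp.single_eq_same, smul_eq_mul, mul_one]

theorem exists_cas (B : WB (V := V) H I)
    (hirr : ∀ W : Submodule K V, (∀ x : L, ∀ u ∈ W, ⁅x, u⁆ ∈ W) → W = ⊥ ∨ W = ⊤)
    (hfaith : ∀ x : L, (∀ u : V, ⁅x, u⁆ = 0) → x = 0) (b : (rootSystem H).Base) :
    ∃ (Q : Dual K H →ₗ[K] Dual K H →ₗ[K] K) (F : H.root → AddMonoidAlgebra K (Dual K H)) (c : K),
      (∀ x y, Q x y = Q y x) ∧
      (∀ α : H.root, ∃ q : ℚ, 0 < q ∧ ∀ μ, 2 * Q μ ((rootSystem H).root α) = (q : K) * μ (coroot α.1)) ∧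
      (∀ α ∈ pos b, single ((rootSystem H).root α) 1 * F α - F α = dd Q ((rootSystem H).root α) (chi B)) ∧
      c • chi B = lap Q (chi B) + ∑ α ∈ pos b, (single ((rootSystem H).root α) 1 * F α + F α) ∧
      (∀ α ∈ pos b, ∀ t : I, (∀ i, B.w i ≠ B.w t + (rootSystem H).root α) → (F α).coeff (B.w t) = 0) := by
  classical
  choose ea fa ht he hf using fun α : H.root => exists_triple α
  have hτ : ∀ α : H.root, traceForm K L V (ea α) (fa α) ≠ 0 := fun α => tau_ne6 hfaith B (ht α) (he α)
  obtain ⟨r, p, q, hp, hq, j1, j2⟩ := exists_dual6 hfaith B ea fa ht he hf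
  obtain ⟨c, hc⟩ := cas6 hirr ea fa hp hq
  refine ⟨Q6 p q, fun α => S6 B (traceForm K L V (ea α) (fa α))⁻¹ (fa α) (ea α), c, Q6_symm j1, ?_, ?_, ?_, ?_⟩
  · intro α
    choose a ha using fun i => hint6 B i α
    have h1 := tau6 B (ht α) (he α) ha
    have h2 := tau_pos6 hfaith B (ht α) ha
    refine ⟨4 / ((∑ i, a i * a i : ℤ) : ℚ), by positivity, fun μ => ?_⟩
    rw [Q6_root j1 (ht α) (he α) μ]
    have h3 : ((∑ i, a i * a i : ℤ) : K) ≠ 0 := by exact_mod_cast h2.ne'
    have h4 : (((4 / ((∑ i, a i * a i : ℤ) : ℚ) : ℚ)) : K) = 4 / ((∑ i, a i * a i : ℤ) : K) := by push_cast; rfl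
    have h5 : traceForm K L V (ea α) (fa α) = ((∑ i, a i * a i : ℤ) : K) / 2 := by
      rw [← h1]
      ring
    rw [h4, h5]
    field_simp
    ring
  · intro α _
    rw [shift6 B _ (he α), diff6 B _ (ht α), chi, map_sum]
    refine Finset.sum_congr rfl fun i _ => ?_
    rw [dd_single, mul_one, Q6_root j1 (ht α) (he α) (B.w i), inv_mul_cancel_left₀ (hτ α)]
  · -- the Casimir operator on the basis vectors
    have hPN : ∀ α β : H.root, (∀ h, β.1 h = -α.1 h) → ∀ v : V,
        (traceForm K L V (ea β) (fa β))⁻¹ • ⁅ea β, ⁅fa β, v⁆⁆ = (traceForm K L V (ea α) (fa α))⁻¹ • ⁅fa α, ⁅ea α, v⁆⁆ := by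
      intro α β hβ v
      have e1 : fa α ∈ rootSpace H β.1 := line6 (hf α) fun h => by rw [Pi.neg_apply, hβ]
      have e2 : ea β ∈ rootSpace H β.1 := he β
      have hf0 : fa α ≠ 0 := fun h => hτ α (by rw [h, map_zero])
      have he0 : ea α ≠ 0 := fun h => hτ α (by rw [h, map_zero, LinearMap.zero_apply])
      have e3 : fa β ∈ rootSpace H α.1 := line6 (hf β) fun h => by rw [Pi.neg_apply, hβ, neg_neg]
      obtain ⟨x, hx⟩ := mem_line e1 hf0 e2
      obtain ⟨y, hy⟩ := mem_line (he α) he0 e3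
      have hτβ := hτ β
      rw [hx, hy, map_smul, map_smul, LinearMap.smul_apply, smul_lie, smul_lie, lie_smul, smul_smul, smul_smul,
        traceForm_comm K L V (fa α) (ea α), smul_eq_mul, smul_eq_mul]
      rw [hx, hy, map_smul, map_smul, LinearMap.smul_apply, smul_eq_mul, smul_eq_mul, traceForm_comm K L V (fa α) (ea α)] at hτβ
      congr 1
      have hy0 : y ≠ 0 := fun h => hτβ (by rw [h, zero_mul])
      have hx0 : x ≠ 0 := fun h => hτβ (by rw [h, zero_mul, mul_zero])
      have h5 := hτ α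
      field_simp
    have hsplit : ∀ v : V, ∑ α with ¬ b.IsPos α, (traceForm K L V (ea α) (fa α))⁻¹ • ⁅ea α, ⁅fa α, v⁆⁆ =
        ∑ α with b.IsPos α, (traceForm K L V (ea α) (fa α))⁻¹ • ⁅fa α, ⁅ea α, v⁆⁆ := by
      intro v
      let _ := (rootSystem H).indexNeg
      have hn : ∀ α : H.root, ∀ h, (-α).1 h = -α.1 h := by
        intro α
        obtain ⟨β, hβ, hβ'⟩ := exists_neg6 α
        have e : -α = β := by
          rw [hβ]
          rfl
        rw [e]
        exact hβ'
      refine Finset.sum_bij' (fun α _ => -α) (fun α _ => -α) ?_ ?_ ?_ ?_ ?_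
      · intro α hα
        rw [Finset.mem_filter] at hα ⊢
        exact ⟨Finset.mem_univ _, (RootPairing.Base.IsPos.neg_iff_not b α).2 hα.2⟩
      · intro α hα
        rw [Finset.mem_filter] at hα ⊢
        refine ⟨Finset.mem_univ _, fun h => (RootPairing.Base.IsPos.neg_iff_not b α).1 h hα.2⟩
      · intro α _
        exact neg_neg α
      · intro α _
        exact neg_neg α
      · intro α _
        exact hPN (-α) α (fun h => by rw [hn, neg_neg]) v
    have hi : ∀ i, c = Q6 p q (B.w i) (B.w i) + ∑ α ∈ pos b,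
        ((traceForm K L V (ea α) (fa α))⁻¹ * B.v.repr ⁅ea α, ⁅fa α, B.v i⁆⁆ i +
          (traceForm K L V (ea α) (fa α))⁻¹ * B.v.repr ⁅fa α, ⁅ea α, B.v i⁆⁆ i) := by
      intro i
      have h1 := congrArg (fun v => B.v.repr v i) (hc (B.v i))
      rw [← Finset.sum_filter_add_sum_filter_not Finset.univ (fun α => b.IsPos α), hsplit] at h1
      have h2 : ∑ j, ⁅(p j : L), ⁅(q j : L), B.v i⁆⁆ = Q6 p q (B.w i) (B.w i) • B.v i := by
        rw [Q6_apply, Finset.sum_smul]
        refine Finset.sum_congr rfl fun j _ => ?_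
        rw [B.lie_v, lie_smul, B.lie_v, smul_smul, mul_comm]
      rw [h2] at h1
      simp only [map_add, map_smul, map_sum, Finsupp.add_apply, Finsupp.smul_apply, Finsupp.finsetSum_apply,
        B.v.repr_self, Finsupp.single_eq_same, smul_eq_mul, mul_one] at h1
      rw [← h1, Finset.sum_add_distrib]
      rw [add_comm]
      rfl
    have h1 : ∀ α ∈ pos b, single ((rootSystem H).root α) 1 * S6 B (traceForm K L V (ea α) (fa α))⁻¹ (fa α) (ea α) +
        S6 B (traceForm K L V (ea α) (fa α))⁻¹ (fa α) (ea α) =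
        ∑ i, single (B.w i) ((traceForm K L V (ea α) (fa α))⁻¹ * B.v.repr ⁅ea α, ⁅fa α, B.v i⁆⁆ i +
          (traceForm K L V (ea α) (fa α))⁻¹ * B.v.repr ⁅fa α, ⁅ea α, B.v i⁆⁆ i) := by
      intro α _
      rw [shift6 B _ (he α), S6, S6, ← Finset.sum_add_distrib]
      exact Finset.sum_congr rfl fun i _ => (single_add _ _ _).symm
    rw [Finset.sum_congr rfl h1, Finset.sum_comm, chi, Finset.smul_sum, map_sum, ← Finset.sum_add_distrib]
    refine Finset.sum_congr rfl fun i _ => ?_
    rw [smul_single, smul_eq_mul, mul_one, lap_single, mul_one, ← ssum6, ← single_add]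
    exact congrArg (single (B.w i)) (hi i)
  · intro α _ t hα
    change (S6 B (traceForm K L V (ea α) (fa α))⁻¹ (fa α) (ea α)).coeff (B.w t) = 0
    rw [S6]
    rw [show (∑ i, single (B.w i) ((traceForm K L V (ea α) (fa α))⁻¹ * B.v.repr ⁅fa α, ⁅ea α, B.v i⁆⁆ i) :
      AddMonoidAlgebra K (Dual K H)).coeff (B.w t) = ∑ i, (single (B.w i)
        ((traceForm K L V (ea α) (fa α))⁻¹ * B.v.repr ⁅fa α, ⁅ea α, B.v i⁆⁆ i)).coeff (B.w t) from by
        simp [Finsupp.finsetSum_apply]]
    refine Finset.sum_eq_zero fun i _ => ?_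
    rw [coeff_single, Finsupp.single_apply]
    split_ifs with h
    · rw [mc6, Finset.sum_eq_zero, mul_zero]
      intro k _
      by_cases hk : B.v.repr ⁅ea α, B.v i⁆ k = 0
      · rw [hk, zero_mul]
      · exfalso
        apply hα k
        ext x
        rw [B.coord_root (he α) hk x, h, LinearMap.add_apply, add_comm]
        rfl
    · rfl

end PF.L
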