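import Pool.Agent.Helper3.PF.WDefs
import Pool.Agent.Helper88.MT.Top

/-!
Project PF / L3: the highest weight of an irreducible module.
-/

open Module LieModule LieAlgebra LieAlgebra.IsKilling AddMonoidAlgebra MTP.MF PF.W

namespace PF.L

variable {K : Type*} [Field K] [CharZero K] [IsAlgClosed K]
  {L : Type*} [LieRing L] [LieAlgebra K L] [FiniteDimensional K L] [IsKilling K L]
  {H : LieSubalgebra K L} [H.IsCartanSubalgebra]
  {V : Type*} [AddCommGroup V] [Module K V] [FiniteDimensional K V]
  [LieRingModule L V] [LieModule K L V] {I : Type*} [Fintype I]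

/-- A subspace that contains a vector of maximal weight and is stable under the negative root vectors. -/
private lemma gen99 (B : WB (V := V) H I)
    (hirr : ∀ W : Submodule K V, (∀ x : L, ∀ u ∈ W, ⁅x, u⁆ ∈ W) → W = ⊥ ∨ W = ⊤)
    (b : (rootSystem H).Base) (z0 : K) {c : I → ℤ} (hc : ∀ i, B.w i (rho2 b) = z0 + 2 * (c i : K)) {t : I}
    (ht : ∀ i, c i ≤ c t) (N : Submodule K V) (hN1 : B.v t ∈ N)
    (hN2 : ∀ x : L, (∃ α : H.root, ¬ b.IsPos α ∧ x ∈ rootSpace H α.1) → ∀ u ∈ N, ⁅x, u⁆ ∈ N) : N = ⊤ := by
  classical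
  let Neg : L → Prop := fun x => ∃ α : H.root, ¬ b.IsPos α ∧ x ∈ rootSpace H α.1
  let M : Submodule K V := sInf {U | B.v t ∈ U ∧ ∀ x, Neg x → ∀ u ∈ U, ⁅x, u⁆ ∈ U}
  have hM1 : B.v t ∈ M := by
    rw [Submodule.mem_sInf]
    rintro U ⟨hU, _⟩
    exact hU
  have hM2 : ∀ x, Neg x → ∀ u ∈ M, ⁅x, u⁆ ∈ M := by
    intro x hx u hu
    rw [Submodule.mem_sInf] at *
    intro U hU
    exact hU.2 x hx u (hu U hU)
  have hMle : ∀ U : Submodule K V, B.v t ∈ U → (∀ x, Neg x → ∀ u ∈ U, ⁅x, u⁆ ∈ U) → M ≤ U :=
    fun U h1 h2 => sInf_le ⟨h1, h2⟩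
  have hM3 : ∀ x : L, ∀ u ∈ M, ⁅x, u⁆ ∈ M := by
    let U : Submodule K V :=
      { carrier := {u | u ∈ M ∧ ∀ x : L, ⁅x, u⁆ ∈ M}
        add_mem' := by
          rintro a a' ⟨h1, h2⟩ ⟨h3, h4⟩
          exact ⟨M.add_mem h1 h3, fun x => by rw [lie_add]; exact M.add_mem (h2 x) (h4 x)⟩
        zero_mem' := ⟨M.zero_mem, fun x => by rw [lie_zero]; exact M.zero_mem⟩
        smul_mem' := by
          rintro k a ⟨h1, h2⟩
          exact ⟨M.smul_mem _ h1, fun x => by rw [lie_smul]; exact M.smul_mem _ (h2 x)⟩ }
    have hU : M ≤ U := by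
      apply hMle
      · refine ⟨hM1, fun x => ?_⟩
        let X : Submodule K L :=
          { carrier := {x | ⁅x, B.v t⁆ ∈ M}
            add_mem' := by
              intro a b ha hb
              simp only [Set.mem_ofPred_eq, add_lie] at *
              exact add_mem ha hb
            zero_mem' := by simp
            smul_mem' := by
              intro c a ha
              simp only [Set.mem_ofPred_eq, smul_lie] at *
              exact Submodule.smul_mem _ _ ha }
        refine root_induction (U := X) (H := H) ?_ x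
        intro α z hz
        change ⁅z, B.v t⁆ ∈ M
        by_cases hα : α.IsZero
        · have hzH : z ∈ H := by
            rw [hα.eq] at hz
            rwa [rootSpace_zero_eq, LieSubalgebra.mem_toLieSubmodule] at hz
          have h1 : ⁅z, B.v t⁆ = B.w t ⟨z, hzH⟩ • B.v t := B.lie_v t ⟨z, hzH⟩
          rw [h1]
          exact Submodule.smul_mem _ _ hM1
        · have hα' : α ∈ H.root := by simpa [LieSubalgebra.root] using hα
          by_cases hpos : b.IsPos ⟨α, hα'⟩
          · have h0 : ⁅z, B.v t⁆ = 0 := by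
              apply B.v.repr.injective
              rw [map_zero]
              ext j
              by_contra hj
              have h1 := B.coord_root (α := ⟨α, hα'⟩) hz hj (rho2 b)
              rw [hc, hc, root_rho] at h1
              have h2 : c j = b.height ⟨α, hα'⟩ + c t := by
                have : ((c j : ℤ) : K) = ((b.height ⟨α, hα'⟩ + c t : ℤ) : K) := by
                  push_cast
                  have h3 : (2 : K) * (c j - (b.height ⟨α, hα'⟩ + c t)) = 0 := by linear_combination h1
                  exact sub_eq_zero.1 ((mul_eq_zero.1 h3).resolve_left two_ne_zero)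
                exact Int.cast_injective this
              have h3 := ht j
              have h4 : 0 < b.height ⟨α, hα'⟩ := hpos
              omega
            rw [h0]; exact M.zero_mem
          · exact hM2 z ⟨⟨α, hα'⟩, hpos, hz⟩ _ hM1
      · rintro x hx u ⟨hu1, hu2⟩
        refine ⟨hM2 x hx u hu1, fun z => ?_⟩
        rw [leibniz_lie]
        exact M.add_mem (hu2 _) (hM2 x hx _ (hu2 z))
    intro x u hu
    exact (hU hu).2 x
  have hM4 : M = ⊤ := by
    rcases hirr M hM3 with h | h
    · exfalso
      rw [h, Submodule.mem_bot] at hM1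
      exact B.v.ne_zero t hM1
    · exact h
  have h := hMle N hN1 hN2
  rw [hM4] at h
  exact top_le_iff.1 h

/-- The highest weight. -/
theorem exists_top (B : WB (V := V) H I) [Nonempty I]
    (hirr : ∀ W : Submodule K V, (∀ x : L, ∀ u ∈ W, ⁅x, u⁆ ∈ W) → W = ⊥ ∨ W = ⊤) (b : (rootSystem H).Base) :
    ∃ t : I, (∀ i, Below b (B.w t) (B.w i)) ∧ (∀ i, B.w i = B.w t → i = t) ∧
      ∀ j ∈ b.support, ∃ k : ℕ, B.w t (coroot j.1) = (k : K) := by
  classical
  obtain ⟨i0⟩ := (inferInstance : Nonempty I)
  have h1 : ∀ i, ∃ n : ℤ, B.w i (rho2 b) = B.w i0 (rho2 b) + 2 * (n : K) := by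
    refine B.conn hirr {i | ∃ n : ℤ, B.w i (rho2 b) = B.w i0 (rho2 b) + 2 * (n : K)}
      ⟨i0, 0, by simp⟩ ?_
    rintro α i j ⟨n, hn⟩ hj
    refine ⟨n + b.height α, ?_⟩
    rw [hj, hn, root_rho]
    push_cast
    ring
  choose c hc using h1
  have hne : Nonempty I := ⟨i0⟩
  obtain ⟨z0, hz0⟩ : ∃ z0, z0 = B.w i0 (rho2 b) := ⟨_, rfl⟩
  simp only [← hz0] at hc
  obtain ⟨t, ht⟩ := Finite.exists_max c
  have hgen := gen99 B hirr b z0 hc ht
  -- the weights of images
  have hw : ∀ (α : H.root) (x : L), x ∈ rootSpace H α.1 → ∀ i j : I, B.v.repr ⁅x, B.v i⁆ j ≠ 0 →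
      B.w j = (rootSystem H).root α + B.w i := by
    intro α x hx i j hj
    ext h
    exact B.coord_root hx hj h
  have hcw : ∀ (α : H.root) (i j : I), B.w j = (rootSystem H).root α + B.w i → c j = b.height α + c i := by
    intro α i j h
    have h1 : B.w j (rho2 b) = α.1 (rho2 b) + B.w i (rho2 b) := by
      rw [h]; rfl
    rw [hc, hc, root_rho] at h1
    have : ((c j : ℤ) : K) = ((b.height α + c i : ℤ) : K) := by
      push_cast
      have h3 : (2 : K) * (c j - (b.height α + c i)) = 0 := by linear_combination h1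
      exact sub_eq_zero.1 ((mul_eq_zero.1 h3).resolve_left two_ne_zero)
    exact Int.cast_injective this
  -- stability of coordinate subspaces
  have hstab : ∀ S : Set I, t ∈ S → (∀ (α : H.root) (i j : I), ¬ b.IsPos α → i ∈ S →
      B.w j = (rootSystem H).root α + B.w i → j ∈ S) → ∀ j, j ∈ S := by
    intro S htS hS
    let N : Submodule K V :=
      { carrier := {u | ∀ j, j ∉ S → B.v.repr u j = 0}
        add_mem' := by
          intro a a' ha hb j hj
          rw [map_add, Finsupp.add_apply, ha j hj, hb j hj, add_zero]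
        zero_mem' := by intro j _; simp
        smul_mem' := by
          intro c a ha j hj
          rw [map_smul, Finsupp.smul_apply, ha j hj, smul_zero] }
    have hN : N = ⊤ := by
      refine hgen N ?_ ?_
      · intro j hj
        rw [B.v.repr_self, Finsupp.single_apply, if_neg]
        rintro rfl
        exact hj htS
      · rintro x ⟨α, hα, hx⟩ u hu j hj
        have e : u = ∑ i, B.v.repr u i • B.v i := (B.v.sum_repr _).symm
        rw [e, lie_sum, map_sum, Finsupp.finsetSum_apply]
        refine Finset.sum_eq_zero fun i _ => ?_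
        rw [lie_smul, map_smul, Finsupp.smul_apply, smul_eq_mul]
        by_cases hij : B.v.repr ⁅x, B.v i⁆ j = 0
        · rw [hij, mul_zero]
        · have h2 : i ∉ S := fun hi => hj (hS α i j hα hi (hw α x hx i j hij))
          rw [hu i h2, zero_mul]
    intro j
    by_contra hj
    have h1 : B.v j ∈ N := by rw [hN]; trivial
    have h2 := h1 j hj
    rw [B.v.repr_self, Finsupp.single_eq_same] at h2
    exact one_ne_zero h2
  refine ⟨t, ?_, ?_, ?_⟩
  · refine hstab {i | Below b (B.w t) (B.w i)} ⟨0, by simp⟩ ?_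
    rintro α i j hα ⟨κ, hκ⟩ hj
    obtain ⟨f, hf, hf' | hf'⟩ := b.exists_root_eq_sum_nat_or_neg α
    · exfalso
      apply hα
      rw [RootPairing.Base.isPos_iff']
      have h2 : (rootSystem H).root α = ∑ j ∈ b.support, ((f j : ℤ)) • (rootSystem H).root j := by
        rw [hf']
        refine Finset.sum_congr rfl fun j _ => ?_
        rw [natCast_zsmul]
      rw [b.height_eq_sum h2]
      exact Finset.sum_nonneg fun j _ => Int.natCast_nonneg _
    · refine ⟨fun l => κ l + f l, ?_⟩
      rw [hj, hκ, hf']
      have h2 : ∑ l ∈ b.support, ((κ l + f l : ℕ) : K) • (rootSystem H).root l =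
          ∑ l ∈ b.support, (κ l : K) • (rootSystem H).root l + ∑ l ∈ b.support, f l • (rootSystem H).root l := by
        rw [← Finset.sum_add_distrib]
        refine Finset.sum_congr rfl fun l _ => ?_
        rw [Nat.cast_add, add_smul]
        simp only [Nat.cast_smul_eq_nsmul]
      rw [h2]
      abel
  · have h2 : ∀ j, (B.w j = B.w t → j = t) := by
      refine hstab {j | B.w j = B.w t → j = t} (fun _ => rfl) ?_
      intro α i j hα _ hj h3
      exfalso
      have h4 := hcw α i j hj
      have h5 : c j = c t := by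
        have h6 := hc j
        rw [h3, hc t] at h6
        have h7 : (2 : K) * (c j - c t) = 0 := by linear_combination -h6
        have h8 : ((c j : ℤ) : K) = ((c t : ℤ) : K) :=
          sub_eq_zero.1 ((mul_eq_zero.1 h7).resolve_left two_ne_zero)
        exact Int.cast_injective h8
      have h6 := ht i
      have h7 : ¬ 0 < b.height α := hα
      have h8 := b.height_ne_zero α
      omega
    exact h2
  · intro j hj
    obtain ⟨h, e, f, htr, he, hf⟩ := exists_isSl2Triple_of_weight_isNonZero
      (H.isNonZero_coe_root j)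
    have h2 := htr.h_eq_coroot (H.isNonZero_coe_root j) he hf
    rw [h2] at htr
    have hprim : htr.HasPrimitiveVectorWith (B.v t) (B.w t (coroot j.1)) := by
      refine ⟨B.v.ne_zero t, ?_, ?_⟩
      · rw [B.lie_v]
      · apply B.v.repr.injective
        rw [map_zero]
        ext i
        by_contra hi
        have h3 := hcw j t i (hw j e he t i hi)
        have h4 : b.height j = 1 := RootPairing.Base.height_one_of_mem_support hj
        have h5 := ht i
        omega
    obtain ⟨n, hn⟩ := hprim.exists_nat
    exact ⟨n, hn⟩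

end PF.L
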