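import Pool.Agent.Helper94.PF.Trans
import Pool.Agent.Helper14.PF.WGroup

/-!
Project PF / W (Weyl's dimension formula), block W5: evaluation in the power series ring.
-/

open Module AddMonoidAlgebra

set_option linter.unusedSectionVars false

namespace PF.W

variable {ι K M N : Type*} [Field K] [CharZero K] [AddCommGroup M] [Module K M] [AddCommGroup N] [Module K N]
  [Fintype ι] {P : RootPairing ι K M N}

/-- The formal exponential `exp (c T)`. -/
noncomputable def ex (c : K) : PowerSeries K := PowerSeries.rescale c (PowerSeries.exp K)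

private theorem ex_zero5 : ex (0 : K) = 1 := by
  simp [ex]

private theorem ex_add5 (a c : K) : ex (a + c) = ex a * ex c :=
  (PowerSeries.exp_mul_exp_eq_exp_add a c).symm

private theorem ex_const5 (c : K) : PowerSeries.constantCoeff (ex c) = 1 := by
  rw [← PowerSeries.coeff_zero_eq_constantCoeff_apply, ex, PowerSeries.coeff_rescale]
  simp

/-- The evaluation homomorphism of an additive map. -/
private noncomputable def ev5 {A : Type*} [AddCommGroup A] (f : A →+ K) :
    AddMonoidAlgebra K A →ₐ[K] PowerSeries K :=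
  AddMonoidAlgebra.lift K (PowerSeries K) A
    { toFun := fun x => ex (f x.toAdd)
      map_one' := by simp [ex_zero5]
      map_mul' := fun x y => by simp [ex_add5] }

private theorem ev_single5 {A : Type*} [AddCommGroup A] (f : A →+ K) (x : A) (c : K) :
    ev5 f (single x c) = PowerSeries.C c * ex (f x) := by
  rw [ev5, AddMonoidAlgebra.lift_single]
  simp [PowerSeries.smul_eq_C_mul]

private theorem ev_const5 {A : Type*} [AddCommGroup A] (f : A →+ K) (F : AddMonoidAlgebra K A) :
    PowerSeries.constantCoeff (ev5 f F) = F.coeff.sum fun _ c => c := by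
  induction F using AddMonoidAlgebra.induction_linear with
  | zero => simp
  | add F G hF hG =>
    rw [map_add, map_add, hF, hG, AddMonoidAlgebra.coeff_add, Finsupp.sum_add_index'] <;> simp
  | single a c =>
    rw [ev_single5]
    simp [ex_const5]

/-- `exp (c T / 2) - exp (- c T / 2)` is `T` times a series with constant term `c`. -/
private theorem diff5 (c : K) : ∃ s : PowerSeries K,
    ex (2⁻¹ * c) - ex (-(2⁻¹ * c)) = PowerSeries.X * s ∧ PowerSeries.constantCoeff s = c := by
  refine ⟨PowerSeries.mk fun n => PowerSeries.coeff (n + 1) (ex (2⁻¹ * c) - ex (-(2⁻¹ * c))), ?_, ?_⟩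
  · conv_lhs => rw [PowerSeries.eq_X_mul_shift_add_const (ex (2⁻¹ * c) - ex (-(2⁻¹ * c)))]
    simp [ex_const5]
  · rw [← PowerSeries.coeff_zero_eq_constantCoeff_apply, PowerSeries.coeff_mk]
    simp only [ex, map_sub, PowerSeries.coeff_rescale, PowerSeries.coeff_exp]
    simp
    ring

private theorem pos_flip5 [P.IsRootSystem] [P.IsCrystallographic] [P.IsReduced] (b : P.Base) :
    pos b.flip = pos b := by
  classical
  ext i
  simp [pos, isPos_flip]

private theorem sg_inv5 [P.IsRootSystem] {g : (M ≃ₗ[K] M) × (N ≃ₗ[K] N)} (hg : g ∈ G P) :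
    (sg g⁻¹ : K) = sg g := by
  have h1 : (sg g⁻¹ : K) * sg g = 1 := by
    rw [← sg_mul, inv_mul_cancel]
    simp [sg]
  rcases sg_sq hg with h | h <;> rw [h] at h1 ⊢
  · simpa using h1
  · linear_combination -h1

private theorem pairing_inv5 {g : (M ≃ₗ[K] M) × (N ≃ₗ[K] N)} (hg : g ∈ G P) (x : M) (y : N) :
    P.toLinearMap (g.1 x) y = P.toLinearMap x (g⁻¹.2 y) := by
  have := pairing_inv (P := P) hg x (g⁻¹.2 y)
  rw [← this]
  congr 1
  change y = (g * g⁻¹).2 y
  rw [mul_inv_cancel]
  rfl

/-- The identity for the dual root system, evaluated. -/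
theorem sum_ex [P.IsRootSystem] [P.IsCrystallographic] [P.IsReduced] (b : P.Base) [Fintype (G P)] (μ : M) :
    ∑ g : G P, PowerSeries.C (sg g.1 : K) * ex (P.toLinearMap (g.1.1 μ) (crho b)) =
      ∏ i ∈ pos b, (ex (2⁻¹ * P.toLinearMap μ (P.coroot i)) - ex (-(2⁻¹ * P.toLinearMap μ (P.coroot i)))) := by
  classical
  let e : G P ≃ G P.flip :=
    { toFun := fun g => ⟨(g⁻¹).1.swap, swap_mem (g⁻¹).2⟩
      invFun := fun g => ⟨(g⁻¹).1.swap, swap_mem (P := P.flip) (g⁻¹).2⟩
      left_inv := fun g => by
        apply Subtype.ext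
        simp
      right_inv := fun g => by
        apply Subtype.ext
        simp }
  let _ : Fintype (G P.flip) := Fintype.ofEquiv _ e
  have hd := congrArg (ev5 (P.toLinearMap μ).toAddMonoidHom) (denom (P := P.flip) b.flip)
  rw [map_sum, ← e.sum_comp] at hd
  have hr : rho b.flip = crho b := by
    simp [rho, crho, pos_flip5]
  rw [delta, map_prod, pos_flip5] at hd
  simp only [map_sub, ev_single5, hr] at hd
  convert hd.symm using 1
  · refine Finset.sum_congr rfl fun g _ => ?_
    have h1 : (sg (e g).1 : K) = sg g.1 := by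
      change sg ((g⁻¹ : G P).1).swap = _
      rw [sg_swap (g⁻¹).2]
      exact sg_inv5 g.2
    rw [h1, pairing_inv5 g.2]
    rfl
  · refine Finset.prod_congr rfl fun i _ => ?_
    simp

/-- **Weyl's dimension formula**, for an element of the group ring that satisfies the character formula. -/
theorem weyl [P.IsRootSystem] [P.IsCrystallographic] [P.IsReduced] (b : P.Base) [Fintype (G P)]
    (χ : AddMonoidAlgebra K M) {Λ : M}
    (hχ : delta b * χ = ∑ g : G P, single (g.1.1 Λ) (sg g.1 : K)) :
    (χ.coeff.sum fun _ c => c) * ∏ i ∈ pos b, P.toLinearMap (rho b) (P.coroot i) =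
      ∏ i ∈ pos b, P.toLinearMap Λ (P.coroot i) := by
  classical
  let f : M →+ K := ((P.toLinearMap.flip) (crho b)).toAddMonoidHom
  have hs : ∀ μ : M, ev5 f (∑ g : G P, single (g.1.1 μ) (sg g.1 : K)) =
      ∏ i ∈ pos b, (ex (2⁻¹ * P.toLinearMap μ (P.coroot i)) -
        ex (-(2⁻¹ * P.toLinearMap μ (P.coroot i)))) := by
    intro μ
    rw [← sum_ex b μ, map_sum]
    refine Finset.sum_congr rfl fun g _ => ?_
    rw [ev_single5]
    rfl
  have h1 := congrArg (ev5 f) hχ
  rw [map_mul, denom b, hs, hs] at h1
  choose s hs1 hs2 using diff5 (K := K)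
  simp only [hs1, Finset.prod_mul_distrib, Finset.prod_const] at h1
  rw [mul_assoc] at h1
  have h2 := mul_left_cancel₀ (pow_ne_zero _ PowerSeries.X_ne_zero) h1
  have h3 := congrArg PowerSeries.constantCoeff h2
  rw [map_mul, map_prod, map_prod, ev_const5] at h3
  simp only [hs2] at h3
  rw [mul_comm]
  exact h3

end PF.W
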