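import Pool.Agent.Helper3.PF.WDefs

/-!
Project PF / W: block W6, the Laplacian identity in the group ring.
-/

open Module AddMonoidAlgebra

namespace PF.W

variable {K M : Type*} [Field K] [AddCommGroup M] [Module K M]

theorem lap_coeff (B : M →ₗ[K] M →ₗ[K] K) (F : AddMonoidAlgebra K M) (μ : M) :
    (lap B F).coeff μ = B μ μ * F.coeff μ := by
  classical
  induction F using AddMonoidAlgebra.induction_linear with
  | zero => simp
  | add f g hf hg => simp [map_add, hf, hg, mul_add]
  | single ν c =>
    rw [lap_single, coeff_single, coeff_single, Finsupp.single_apply, Finsupp.single_apply]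
    split_ifs with h
    · rw [h]
    · rw [mul_zero]

theorem dd_mul (B : M →ₗ[K] M →ₗ[K] K) (a : M) (f g : AddMonoidAlgebra K M) :
    dd B a (f * g) = dd B a f * g + f * dd B a g := by
  induction f using AddMonoidAlgebra.induction_linear with
  | zero => simp
  | add f1 f2 h1 h2 => simp only [add_mul, map_add, h1, h2]; ring
  | single μ c =>
    induction g using AddMonoidAlgebra.induction_linear with
    | zero => simp
    | add g1 g2 h1 h2 => simp only [mul_add, map_add, h1, h2]; ring
    | single ν d =>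
      rw [single_mul_single, dd_single, dd_single, dd_single, single_mul_single, single_mul_single, ← single_add]
      congr 1
      rw [map_add, LinearMap.add_apply]
      ring

theorem lap_single_mul [CharZero K] (B : M →ₗ[K] M →ₗ[K] K) (hB : ∀ x y, B x y = B y x) (a : M) (ε : K) (hε : ε * ε = 1)
    (g : AddMonoidAlgebra K M) :
    lap B (single ((ε * 2⁻¹ : K) • a) (1 : K) * g) = single ((ε * 2⁻¹ : K) • a) (1 : K) *
      (lap B g + ε • dd B a g + (4⁻¹ * B a a) • g) := by
  induction g using AddMonoidAlgebra.induction_linear with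
  | zero => simp
  | add g1 g2 h1 h2 =>
    simp only [mul_add, map_add, h1, h2, smul_add]
    ring
  | single ν d =>
    rw [single_mul_single, lap_single, lap_single, dd_single, smul_single, smul_single, ← single_add, ← single_add,
      single_mul_single]
    congr 1
    simp only [map_add, LinearMap.add_apply, map_smul, LinearMap.smul_apply, smul_eq_mul]
    rw [hB a ν]
    have h4 : (4⁻¹ : K) = 2⁻¹ * 2⁻¹ := by norm_num
    have h2 : (2⁻¹ : K) + 2⁻¹ = 1 := by norm_num
    rw [h4]
    linear_combination (2⁻¹ * 2⁻¹ * B a a * d) * hε + (ε * B ν a * d) * h2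

/-- the product rule for a factor of the denominator -/
theorem lap_factor [CharZero K] (B : M →ₗ[K] M →ₗ[K] K) (hB : ∀ x y, B x y = B y x) (a : M)
    (g : AddMonoidAlgebra K M) :
    lap B ((single ((2⁻¹ : K) • a) (1 : K) - single (-((2⁻¹ : K) • a)) (1 : K)) * g) =
      (4⁻¹ * B a a) • ((single ((2⁻¹ : K) • a) (1 : K) - single (-((2⁻¹ : K) • a)) (1 : K)) * g) +
      (single ((2⁻¹ : K) • a) (1 : K) - single (-((2⁻¹ : K) • a)) (1 : K)) * lap B g +
      (single ((2⁻¹ : K) • a) (1 : K) + single (-((2⁻¹ : K) • a)) (1 : K)) * dd B a g := by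
  have h1 := lap_single_mul B hB a 1 (by norm_num) g
  have h2 := lap_single_mul B hB a (-1) (by norm_num) g
  rw [one_mul, one_smul] at h1
  rw [neg_one_mul, neg_smul, neg_one_smul] at h2
  rw [sub_mul, map_sub, h1, h2, Algebra.smul_def, Algebra.smul_def]
  simp only [sub_mul, mul_add, add_mul]
  ring

theorem mul_factor {ι : Type*} {r : ι → M} {F : ι → AddMonoidAlgebra K M} [CharZero K] {D : AddMonoidAlgebra K M} (i : ι)
    (h : single (r i) 1 * F i - F i = D) :
    (single ((2⁻¹ : K) • r i) (1 : K) + single (-((2⁻¹ : K) • r i)) (1 : K)) * D =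
      (single ((2⁻¹ : K) • r i) (1 : K) - single (-((2⁻¹ : K) • r i)) (1 : K)) * (single (r i) 1 * F i + F i) := by
  have e1 : single (r i) (1 : K) = single ((2⁻¹ : K) • r i) (1 : K) * single ((2⁻¹ : K) • r i) (1 : K) := by
    rw [single_mul_single, ← add_smul, mul_one]
    congr 1
    have : (2⁻¹ : K) + 2⁻¹ = 1 := by norm_num
    rw [this, one_smul]
  have e2 : single (-((2⁻¹ : K) • r i)) (1 : K) * single ((2⁻¹ : K) • r i) (1 : K) = 1 := by
    rw [single_mul_single, neg_add_cancel, mul_one]
    rfl
  rw [← h, e1]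
  linear_combination (single ((2⁻¹ : K) • r i) (1 : K) * F i * 2) * e2

/-- If `e^a F_a - F_a = D_a χ` and `c χ = Lap χ + ∑ (e^a F_a + F_a)`, then
`Lap (δ χ) = Lap δ χ + c δ χ`. -/
theorem lap_mul [CharZero K] (B : M →ₗ[K] M →ₗ[K] K) (hB : ∀ x y, B x y = B y x) {ι : Type*} (s : Finset ι) (r : ι → M)
    (χ : AddMonoidAlgebra K M) (F : ι → AddMonoidAlgebra K M) (c : K)
    (h1 : ∀ i ∈ s, single (r i) 1 * F i - F i = dd B (r i) χ)
    (h2 : c • χ = lap B χ + ∑ i ∈ s, (single (r i) 1 * F i + F i)) :
    lap B ((∏ i ∈ s, (single ((2⁻¹ : K) • r i) (1 : K) - single (-((2⁻¹ : K) • r i)) (1 : K))) * χ) =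
      lap B (∏ i ∈ s, (single ((2⁻¹ : K) • r i) (1 : K) - single (-((2⁻¹ : K) • r i)) (1 : K))) * χ +
      c • ((∏ i ∈ s, (single ((2⁻¹ : K) • r i) (1 : K) - single (-((2⁻¹ : K) • r i)) (1 : K))) * χ) := by
  classical
  have key : ∀ s : Finset ι, (∀ i ∈ s, single (r i) 1 * F i - F i = dd B (r i) χ) →
      lap B ((∏ i ∈ s, (single ((2⁻¹ : K) • r i) (1 : K) - single (-((2⁻¹ : K) • r i)) (1 : K))) * χ) =
      lap B (∏ i ∈ s, (single ((2⁻¹ : K) • r i) (1 : K) - single (-((2⁻¹ : K) • r i)) (1 : K))) * χ +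
      (∏ i ∈ s, (single ((2⁻¹ : K) • r i) (1 : K) - single (-((2⁻¹ : K) • r i)) (1 : K))) *
        (lap B χ + ∑ i ∈ s, (single (r i) 1 * F i + F i)) := by
    intro s
    induction s using Finset.induction_on with
    | empty =>
      intro _
      have e0 : lap B (1 : AddMonoidAlgebra K M) = 0 := by
        have : (1 : AddMonoidAlgebra K M) = single 0 1 := rfl
        rw [this, lap_single]
        simp
      simp [e0]
    | insert a s ha ih =>
      intro hs
      have ih' := ih (fun i hi => hs i (Finset.mem_insert_of_mem hi))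
      have hm := mul_factor (r := r) (F := F) a (hs a (Finset.mem_insert_self a s))
      rw [Finset.prod_insert ha, Finset.sum_insert ha, mul_assoc, lap_factor B hB, lap_factor B hB, ih', dd_mul]
      generalize hδ : (∏ i ∈ s, (single ((2⁻¹ : K) • r i) (1 : K) - single (-((2⁻¹ : K) • r i)) (1 : K))) = δ at *
      rw [Algebra.smul_def, Algebra.smul_def]
      linear_combination δ * hm
  rw [key s h1, ← h2, mul_smul_comm]

end PF.W
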