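import Pool.Agent.Helper3.PF.WDen
import Pool.Agent.Helper3.PF.WEval
import Pool.Agent.Helper3.PF.WLap
import Pool.Agent.Helper3.PF.LCas
import Pool.Agent.Helper3.PF.LInv
import Pool.Agent.Helper3.PF.LTop

/-!
Project PF / L: Weyl's character formula and dimension formula.
-/

open Module LieModule LieAlgebra LieAlgebra.IsKilling AddMonoidAlgebra MTP.MF PF.W

namespace PF.L

section gen

variable {ι K M N : Type*} [Field K] [CharZero K] [AddCommGroup M] [Module K M] [AddCommGroup N] [Module K N]
  [Fintype ι] {P : RootPairing ι K M N}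

/-- a bilinear form for which the reflections are isometries is invariant under the Weyl group -/
theorem inv_G {Q : M →ₗ[K] M →ₗ[K] K} (hQ : ∀ x y, Q x y = Q y x)
    (hq : ∀ i, ∃ q : K, ∀ μ, 2 * Q μ (P.root i) = q * P.toLinearMap μ (P.coroot i))
    {g : (M ≃ₗ[K] M) × (N ≃ₗ[K] N)} (hg : g ∈ G P) (x y : M) : Q (g.1 x) (g.1 y) = Q x y := by
  induction hg using Subgroup.closure_induction generalizing x y with
  | mem g hg =>
    obtain ⟨i, rfl⟩ := hg
    obtain ⟨q, hq⟩ := hq i
    have h1 := hq x
    have h2 := hq y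
    have h3 := hq (P.root i)
    have h4 : P.toLinearMap (P.root i) (P.coroot i) = 2 := P.root_coroot_two i
    rw [h4] at h3
    have h5 : (2 : K) ≠ 0 := two_ne_zero
    have e : ∀ z, P.reflection i z = z - P.toLinearMap z (P.coroot i) • P.root i := fun z => P.reflection_apply i z
    simp only [e, map_sub, map_smul, LinearMap.sub_apply, LinearMap.smul_apply, smul_eq_mul]
    rw [hQ (P.root i) y]
    have h6 : Q (P.root i) (P.root i) = q := by
      have := h3
      exact mul_left_cancel₀ h5 (by rw [h3]; ring)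
    rw [h6]
    apply mul_left_cancel₀ h5
    linear_combination (-P.toLinearMap y (P.coroot i)) * h1 - P.toLinearMap x (P.coroot i) * h2
  | one => rfl
  | mul g g' _ _ h1 h2 =>
    have : Q ((g * g').1 x) ((g * g').1 y) = Q (g.1 (g'.1 x)) (g.1 (g'.1 y)) := rfl
    rw [this, h1, h2]
  | inv g _ h1 =>
    have := h1 ((g⁻¹).1 x) ((g⁻¹).1 y)
    rw [← this]
    have e : ∀ z, g.1 ((g⁻¹).1 z) = z := fun z => by
      have : (g.1 * (g⁻¹).1) z = z := by
        have h : g.1 * (g⁻¹).1 = (g * g⁻¹).1 := rfl
        rw [h, mul_inv_cancel]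
        rfl
      exact this
    rw [e, e]

theorem exists_of_coeff_mul {F E : AddMonoidAlgebra K M} {μ : M} (h : (F * E).coeff μ ≠ 0) :
    ∃ x y, F.coeff x ≠ 0 ∧ E.coeff y ≠ 0 ∧ x + y = μ := by
  classical
  rw [AddMonoidAlgebra.coeff_mul, Finsupp.sum] at h
  obtain ⟨x, hx, h1⟩ := Finset.exists_ne_zero_of_sum_ne_zero h
  rw [Finsupp.sum] at h1
  obtain ⟨y, hy, h2⟩ := Finset.exists_ne_zero_of_sum_ne_zero h1
  refine ⟨x, y, Finsupp.mem_support_iff.1 hx, Finsupp.mem_support_iff.1 hy, ?_⟩
  by_contra hne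
  exact h2 (if_neg hne)

theorem coeff_mul_unique {F E : AddMonoidAlgebra K M} {x₀ y₀ : M}
    (h : ∀ x y, F.coeff x ≠ 0 → E.coeff y ≠ 0 → x + y = x₀ + y₀ → x = x₀ ∧ y = y₀) :
    (F * E).coeff (x₀ + y₀) = F.coeff x₀ * E.coeff y₀ := by
  classical
  rw [AddMonoidAlgebra.coeff_mul, Finsupp.sum]
  simp only [Finsupp.sum]
  by_cases hx : x₀ ∈ F.coeff.support
  · rw [Finset.sum_eq_single_of_mem x₀ hx]
    · by_cases hy : y₀ ∈ E.coeff.support
      · rw [Finset.sum_eq_single_of_mem y₀ hy]
        · rw [if_pos rfl]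
        · intro y hy' hne
          rw [if_neg]
          intro h1
          exact hne (add_left_cancel h1)
      · rw [Finsupp.notMem_support_iff.1 hy, mul_zero]
        refine Finset.sum_eq_zero fun y hy' => ?_
        rw [if_neg]
        intro h1
        exact hy (by rw [← add_left_cancel h1]; exact hy')
    · intro x hx' hne
      refine Finset.sum_eq_zero fun y hy' => ?_
      rw [if_neg]
      intro h1
      exact hne (h x y (Finsupp.mem_support_iff.1 hx') (Finsupp.mem_support_iff.1 hy') h1).1
  · rw [Finsupp.notMem_support_iff.1 hx, zero_mul]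
    refine Finset.sum_eq_zero fun x hx' => Finset.sum_eq_zero fun y hy' => ?_
    rw [if_neg]
    intro h1
    exact hx (by rw [← (h x y (Finsupp.mem_support_iff.1 hx') (Finsupp.mem_support_iff.1 hy') h1).1]; exact hx')

theorem Below.add {b : P.Base} {Λ μ Λ' μ' : M} (h : Below b Λ μ) (h' : Below b Λ' μ') : Below b (Λ + Λ') (μ + μ') := by
  obtain ⟨κ, hκ⟩ := h
  obtain ⟨κ', hκ'⟩ := h'
  refine ⟨fun i => κ i + κ' i, ?_⟩
  rw [hκ, hκ']
  simp only [Nat.cast_add, add_smul, Finset.sum_add_distrib]
  abel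

theorem Below.antisymm {b : P.Base} {Λ μ : M} (h : Below b Λ μ) (h' : Below b μ Λ) : μ = Λ := by
  obtain ⟨κ, hκ⟩ := h
  obtain ⟨κ', hκ'⟩ := h'
  have h1 : ∑ i ∈ b.support, ((κ i + κ' i : ℕ) : K) • P.root i = 0 := by
    simp only [Nat.cast_add, add_smul, Finset.sum_add_distrib]
    have : Λ = Λ - ∑ i ∈ b.support, (κ i : K) • P.root i - ∑ i ∈ b.support, (κ' i : K) • P.root i := by
      rw [← hκ]; exact hκ'
    have h2 : Λ - ∑ i ∈ b.support, (κ i : K) • P.root i - ∑ i ∈ b.support, (κ' i : K) • P.root i - Λ = 0 := by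
      rw [← this, sub_self]
    have h3 : -(Λ - ∑ i ∈ b.support, (κ i : K) • P.root i - ∑ i ∈ b.support, (κ' i : K) • P.root i - Λ) = 0 := by
      rw [h2, neg_zero]
    rw [← h3]
    abel
  have h2 := linearIndepOn_iff'.1 b.linearIndepOn_root b.support (fun i => ((κ i + κ' i : ℕ) : K)) (subset_refl _) h1
  have h3 : ∀ i ∈ b.support, κ i = 0 := by
    intro i hi
    have := h2 i hi
    have h4 : κ i + κ' i = 0 := by exact_mod_cast this
    omega
  rw [hκ, Finset.sum_eq_zero, sub_zero]
  intro i hi
  rw [h3 i hi, Nat.cast_zero, zero_smul]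

end gen

variable {K : Type*} [Field K] [CharZero K] [IsAlgClosed K]
  {L : Type*} [LieRing L] [LieAlgebra K L] [FiniteDimensional K L] [IsKilling K L]
  {H : LieSubalgebra K L} [H.IsCartanSubalgebra]
  {V : Type*} [AddCommGroup V] [Module K V] [FiniteDimensional K V]
  [LieRingModule L V] [LieModule K L V] {I : Type*} [Fintype I]

theorem chi_coeff (B : WB (V := V) H I) (μ : Dual K H) [DecidableEq (Dual K H)] :
    (chi B).coeff μ = ((Finset.univ.filter fun i => B.w i = μ).card : K) := by
  classical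
  unfold chi
  rw [AddMonoidAlgebra.coeff_sum, Finsupp.finset_sum_apply, Finset.card_filter, Nat.cast_sum]
  refine Finset.sum_congr rfl fun i _ => ?_
  rw [coeff_single, Finsupp.single_apply]
  split_ifs <;> simp

theorem exists_of_chi (B : WB (V := V) H I) {μ : Dual K H} (h : (chi B).coeff μ ≠ 0) : ∃ i, B.w i = μ := by
  classical
  rw [chi_coeff] at h
  by_contra hcon
  push Not at hcon
  apply h
  rw [Finset.filter_eq_empty_iff.2 (fun i _ => hcon i)]
  simp

theorem character (B : WB (V := V) H I) [Nonempty I]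
    (hirr : ∀ W : Submodule K V, (∀ x : L, ∀ u ∈ W, ⁅x, u⁆ ∈ W) → W = ⊥ ∨ W = ⊤)
    (hfaith : ∀ x : L, (∀ u : V, ⁅x, u⁆ = 0) → x = 0) (b : (rootSystem H).Base) [Fintype (G (rootSystem H))] :
    ∃ t : I, (∀ i, Below b (B.w t) (B.w i)) ∧ (∀ j ∈ b.support, ∃ k : ℕ, B.w t (coroot j.1) = (k : K)) ∧
      delta b * chi B = ∑ g : G (rootSystem H), single (g.1.1 (B.w t + rho b)) (sg g.1 : K) := by
  classical
  obtain ⟨t, ht1, ht2, ht3⟩ := exists_top B hirr b
  refine ⟨t, ht1, ht3, ?_⟩
  obtain ⟨Q, F, c, hQ, hq, h1, h2, h3⟩ := exists_cas B hirr hfaith b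
  choose q hq0 hq using hq
  have hinv : ∀ {g : (Dual K H ≃ₗ[K] Dual K H) × (H ≃ₗ[K] H)}, g ∈ G (rootSystem H) → ∀ x y, Q (g.1 x) (g.1 y) = Q x y :=
    fun hg x y => inv_G hQ (fun i => ⟨(q i : K), fun μ => hq i μ⟩) hg x y
  -- the coefficient of the highest weight
  have hct : (chi B).coeff (B.w t) = 1 := by
    rw [chi_coeff]
    have : (Finset.univ.filter fun i => B.w i = B.w t) = {t} := by
      ext i
      simp only [Finset.mem_filter, Finset.mem_univ, true_and, Finset.mem_singleton]
      exact ⟨ht2 i, fun h => by rw [h]⟩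
    rw [this]
    simp
  -- the Laplacian of the denominator
  have hδ := denom b
  have hlapδ : lap Q (delta b) = Q (rho b) (rho b) • delta b := by
    conv_lhs => rw [hδ]
    conv_rhs => rw [hδ]
    rw [map_sum, Finset.smul_sum]
    refine Finset.sum_congr rfl fun g _ => ?_
    rw [lap_single, hinv g.2, smul_single, smul_eq_mul]
  have hlap : lap Q (delta b * chi B) = (Q (rho b) (rho b) + c) • (delta b * chi B) := by
    have := lap_mul Q hQ (pos b) (fun α => (rootSystem H).root α) (chi B) F c h1 h2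
    rw [show (∏ i ∈ pos b, (single ((2⁻¹ : K) • (rootSystem H).root i) (1 : K) -
      single (-((2⁻¹ : K) • (rootSystem H).root i)) (1 : K))) = delta b from rfl] at this
    rw [this, hlapδ, add_smul, smul_mul_assoc]
  have hnorm : ∀ μ, (delta b * chi B).coeff μ ≠ 0 → Q μ μ = Q (rho b) (rho b) + c := by
    intro μ hμ
    have e := congrArg (fun F => F.coeff μ) hlap
    simp only [lap_coeff, coeff_smul, Finsupp.smul_apply, smul_eq_mul] at e
    exact mul_right_cancel₀ hμ e
  -- a positive root added to the highest weight is not a weight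
  have hno : ∀ α ∈ pos b, ∀ i, B.w i ≠ B.w t + (rootSystem H).root α := by
    intro α hα i hi
    have hpos : b.IsPos α := by
      simpa [pos] using hα
    obtain ⟨κ, hκ⟩ := ht1 i
    -- `root α` is a nonnegative combination of the simple roots
    have hB : Below b (B.w t + (rootSystem H).root α) (B.w t) := by
      obtain ⟨f, hf1, hf2⟩ := b.exists_root_eq_sum_nat_or_neg α
      rcases hf2 with hf | hf
      · refine ⟨f, ?_⟩
        rw [hf]
        simp only [Nat.cast_smul_eq_nsmul]
        abel
      · exfalso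
        have h5 : (rootSystem H).root α = ∑ j ∈ b.support, (-(f j : ℤ)) • (rootSystem H).root j := by
          rw [hf, ← Finset.sum_neg_distrib]
          refine Finset.sum_congr rfl fun j _ => ?_
          rw [neg_smul, natCast_zsmul]
        have h6 := b.height_eq_sum h5
        rw [RootPairing.Base.isPos_iff, h6] at hpos
        have : ∑ j ∈ b.support, -(f j : ℤ) ≤ 0 := Finset.sum_nonpos fun j _ => by simp
        omega
    rw [← hi] at hB
    have := Below.antisymm hB (ht1 i)
    have h7 := hi
    rw [← this] at h7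
    have h8 : (rootSystem H).root α = 0 := by
      have := sub_eq_zero.2 h7
      simpa using this
    exact (rootSystem H).ne_zero α h8
  -- the eigenvalue of the Casimir operator
  have hc : c = Q (B.w t) (B.w t) + 2 * Q (B.w t) (rho b) := by
    have e := congrArg (fun F => F.coeff (B.w t)) h2
    simp only [coeff_smul, coeff_add, coeff_sum, Finsupp.smul_apply, Finsupp.add_apply, Finsupp.finset_sum_apply,
      smul_eq_mul, lap_coeff, hct, mul_one] at e
    rw [e]
    congr 1
    have e2 : ∀ α ∈ pos b, (single ((rootSystem H).root α) 1 * F α).coeff (B.w t) + (F α).coeff (B.w t) =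
        Q (B.w t) ((rootSystem H).root α) := by
      intro α hα
      have e3 := h3 α hα t (hno α hα)
      have e4 := congrArg (fun F => F.coeff (B.w t)) (h1 α hα)
      have e5 : (dd Q ((rootSystem H).root α) (chi B)).coeff (B.w t) = Q (B.w t) ((rootSystem H).root α) := by
        unfold chi
        rw [map_sum]
        simp only [dd_single, coeff_sum, Finsupp.finset_sum_apply, coeff_single]
        rw [Finset.sum_eq_single t]
        · simp
        · intro i _ hi
          rw [Finsupp.single_apply, if_neg]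
          exact fun h => hi (ht2 i h)
        · simp
      simp only [coeff_sub, Finsupp.sub_apply, e5, e3] at e4
      rw [e3, add_zero]
      rw [sub_zero] at e4
      exact e4
    rw [Finset.sum_congr rfl e2, ← map_sum]
    unfold rho
    rw [map_smul, smul_eq_mul, ← mul_assoc, mul_inv_cancel₀ two_ne_zero, one_mul]
  have hΛ : ∀ i ∈ b.support, ∃ k : ℕ, (B.w t + rho b) (coroot i.1) = ((k + 1 : ℤ) : K) := by
    intro i hi
    obtain ⟨k, hk⟩ := ht3 i hi
    refine ⟨k, ?_⟩
    have h4 : (rho b) (coroot i.1) = 1 := rho_coroot b hi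
    rw [LinearMap.add_apply, hk, h4]
    push_cast
    ring
  have hbelow : ∀ μ, (delta b * chi B).coeff μ ≠ 0 → Below b (B.w t + rho b) μ := by
    intro μ hμ
    obtain ⟨x, y, hx, hy, rfl⟩ := exists_of_coeff_mul hμ
    obtain ⟨i, rfl⟩ := exists_of_chi B hy
    rw [add_comm (B.w t)]
    exact Below.add (delta_below b hx) (ht1 i)
  have hcoeff : (delta b * chi B).coeff (B.w t + rho b) = 1 := by
    rw [add_comm, coeff_mul_unique, delta_coeff_rho, hct, one_mul]
    intro x y hx hy hxy
    obtain ⟨i, rfl⟩ := exists_of_chi B hy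
    have h4 := delta_below b hx
    have h5 := ht1 i
    obtain ⟨κ, hκ⟩ := h4
    have h6 : Below b x (rho b) := by
      obtain ⟨κ', hκ'⟩ := h5
      refine ⟨κ', ?_⟩
      have : rho b = x + B.w i - B.w t := by rw [hxy]; abel
      rw [this, hκ']
      abel
    have h7 : x = rho b := Below.antisymm ⟨κ, hκ⟩ h6
    refine ⟨h7, ?_⟩
    rw [h7] at hxy
    exact add_left_cancel hxy
  have hmain := alt_eq b (delta b * chi B) (fun i => by rw [map_mul, act_delta, act_chi, neg_mul]) (by
    intro μ hμ
    refine integral_of_below b ?_ (hbelow μ hμ)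
    intro i
    obtain ⟨k1, hk1⟩ := integral_w B t i
    obtain ⟨k2, hk2⟩ := integral_rho b i
    refine ⟨k1 + k2, ?_⟩
    rw [map_add, LinearMap.add_apply, hk1, hk2]
    push_cast
    ring) (Λ := B.w t + rho b) (by
    intro i hi
    obtain ⟨k, hk⟩ := hΛ i hi
    exact ⟨k + 1, by positivity, hk⟩) (by
    intro μ hμ hd
    obtain ⟨κ, hκ⟩ := hbelow μ hμ
    have e1 : Q (B.w t + rho b) (B.w t + rho b) - Q μ μ = 0 := by
      rw [hnorm μ hμ, hc]
      simp only [map_add, LinearMap.add_apply]
      rw [hQ (rho b) (B.w t)]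
      ring
    choose! m hm0 hm using hd
    choose! k hk using hΛ
    have e2 : Q (B.w t + rho b) (B.w t + rho b) - Q μ μ =
        ((∑ i ∈ b.support, (κ i : ℚ) * (q i / 2) * ((k i + 1 : ℤ) + m i) : ℚ) : K) := by
      have e3 : Q (B.w t + rho b) (B.w t + rho b) - Q μ μ = Q (B.w t + rho b + μ) (B.w t + rho b - μ) := by
        simp only [map_add, map_sub, LinearMap.add_apply, LinearMap.sub_apply]
        rw [hQ (rho b) (B.w t), hQ (B.w t) μ, hQ (rho b) μ]
        ring
      have e4 : B.w t + rho b - μ = ∑ i ∈ b.support, (κ i : K) • (rootSystem H).root i := by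
        rw [hκ]; abel
      rw [e3, e4, map_sum]
      push_cast
      refine Finset.sum_congr rfl fun i hi => ?_
      rw [map_smul, smul_eq_mul]
      have e5 := hq i (B.w t + rho b + μ)
      have e6 : (B.w t + rho b + μ) (coroot i.1) = ((k i + 1 : ℤ) : K) + (m i : K) := by
        rw [LinearMap.add_apply, hk i hi]
        congr 1
        exact hm i hi
      rw [e6] at e5
      have h20 : (2 : K) ≠ 0 := two_ne_zero
      have e7 : Q (B.w t + rho b + μ) ((rootSystem H).root i) = (q i : K) / 2 * (((k i + 1 : ℤ) : K) + (m i : K)) := by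
        field_simp
        linear_combination e5
      rw [e7]
      push_cast
      ring
    rw [e2] at e1
    have e8 : (∑ i ∈ b.support, (κ i : ℚ) * (q i / 2) * ((k i + 1 : ℤ) + m i) : ℚ) = 0 := by exact_mod_cast e1
    have e9 : ∀ i ∈ b.support, 0 ≤ (κ i : ℚ) * (q i / 2) * ((k i + 1 : ℤ) + m i) := by
      intro i hi
      have := hm0 i hi
      have h4 := hq0 i
      have h5 : (0 : ℚ) < m i := by exact_mod_cast this
      positivity
    have e10 := (Finset.sum_eq_zero_iff_of_nonneg e9).1 e8
    have e11 : ∀ i ∈ b.support, κ i = 0 := by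
      intro i hi
      have h6 := e10 i hi
      have h4 := hq0 i
      have h5 : (0 : ℚ) < m i := by exact_mod_cast hm0 i hi
      have h7 : (0 : ℚ) < (q i / 2) * ((k i + 1 : ℤ) + m i) := by positivity
      rw [mul_assoc] at h6
      rcases mul_eq_zero.1 h6 with h8 | h8
      · exact_mod_cast h8
      · exact absurd h8 h7.ne'
    rw [hκ, Finset.sum_eq_zero, sub_zero]
    intro i hi
    rw [e11 i hi, Nat.cast_zero, zero_smul])
  rw [hmain]
  refine Finset.sum_congr rfl fun g _ => ?_
  rw [hcoeff, mul_one]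

end PF.L
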