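import Pool.Agent.Helper3.PF.Defs
import Pool.Agent.Helper3.PF.LChar

/-!
Project PF / L: Weyl's dimension formula and a prime divisor of the dimension.
-/

open Module LieModule LieAlgebra LieAlgebra.IsKilling AddMonoidAlgebra MTP.MF PF.W

namespace PF.L

section gen

variable {ι K M N : Type*} [Field K] [CharZero K] [AddCommGroup M] [Module K M] [AddCommGroup N] [Module K N]
  [Fintype ι] {P : RootPairing ι K M N}

theorem sum_univ_eq_two_pos [P.IsCrystallographic] (b : P.Base) (f : ι → ℚ) (hf : ∀ i, f (P.reflectionPerm i i) = f i) :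
    ∑ i, f i = 2 * ∑ i ∈ pos b, f i := by
  classical
  have h1 : ∑ i, f i = ∑ i ∈ pos b, f i + ∑ i ∈ Finset.univ.filter (fun i => ¬ b.IsPos i), f i := by
    unfold pos
    rw [Finset.sum_filter_add_sum_filter_not]
  have hneg : ∀ i, b.IsPos (P.reflectionPerm i i) ↔ ¬ b.IsPos i := fun i => RootPairing.Base.IsPos.neg_iff_not b i
  have hinv : ∀ i, P.reflectionPerm (P.reflectionPerm i i) (P.reflectionPerm i i) = i := fun i =>
    letI := P.indexNeg; neg_neg i
  have h2 : ∑ i ∈ Finset.univ.filter (fun i => ¬ b.IsPos i), f i = ∑ i ∈ pos b, f i := by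
    refine Finset.sum_nbij' (fun i => P.reflectionPerm i i) (fun i => P.reflectionPerm i i) ?_ ?_ ?_ ?_ ?_
    · intro i hi
      simp only [Finset.mem_filter, Finset.mem_univ, true_and] at hi
      simp only [pos, Finset.mem_filter, Finset.mem_univ, true_and]
      exact (hneg i).2 hi
    · intro i hi
      simp only [pos, Finset.mem_filter, Finset.mem_univ, true_and] at hi
      simp only [Finset.mem_filter, Finset.mem_univ, true_and]
      rw [hneg]
      exact not_not.2 hi
    · intro i _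
      exact hinv i
    · intro i _
      exact hinv i
    · intro i _
      exact (hf i).symm
  rw [h1, h2]
  ring

/-- positive coroots are combinations of simple coroots with natural coefficients, not all zero -/
theorem coroot_eq_sum [P.IsRootSystem] [P.IsCrystallographic] [P.IsReduced] (b : P.Base) {i : ι} (hi : b.IsPos i) :
    ∃ f : ι → ℕ, P.coroot i = ∑ j ∈ b.support, (f j : K) • P.coroot j ∧ 0 < ∑ j ∈ b.support, f j := by
  obtain ⟨f, hf1, hf2⟩ := b.flip.exists_root_eq_sum_nat_or_neg i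
  have hpos : b.flip.IsPos i := (isPos_flip b i).2 hi
  have hz : ∀ g : ι → ℤ, P.flip.root i = ∑ j ∈ b.flip.support, g j • P.flip.root j → 0 < ∑ j ∈ b.support, g j := by
    intro g hg
    have h6 := b.flip.height_eq_sum hg
    rw [RootPairing.Base.isPos_iff, h6] at hpos
    exact hpos
  rcases hf2 with hf | hf
  · refine ⟨f, ?_, ?_⟩
    · have : P.flip.root i = P.coroot i := rfl
      rw [← this, hf]
      refine Finset.sum_congr rfl fun j _ => ?_
      rw [Nat.cast_smul_eq_nsmul]
      rfl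
    · have := hz (fun j => (f j : ℤ)) (by rw [hf]; simp only [natCast_zsmul])
      exact_mod_cast this
  · exfalso
    have := hz (fun j => -(f j : ℤ)) (by rw [hf, ← Finset.sum_neg_distrib]; simp only [neg_smul, natCast_zsmul])
    have h2 : ∑ j ∈ b.support, -(f j : ℤ) ≤ 0 := Finset.sum_nonpos fun j _ => by simp
    omega

end gen

variable {K : Type*} [Field K] [CharZero K] [IsAlgClosed K]
  {L : Type*} [LieRing L] [LieAlgebra K L] [FiniteDimensional K L] [IsKilling K L]
  {H : LieSubalgebra K L} [H.IsCartanSubalgebra]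
  {V : Type*} [AddCommGroup V] [Module K V] [FiniteDimensional K V]
  [LieRingModule L V] [LieModule K L V] {I : Type*} [Fintype I]

/-- **Weyl's dimension formula.** -/
theorem dimension (B : WB (V := V) H I) [Nonempty I]
    (hirr : ∀ W : Submodule K V, (∀ x : L, ∀ u ∈ W, ⁅x, u⁆ ∈ W) → W = ⊥ ∨ W = ⊤)
    (hfaith : ∀ x : L, (∀ u : V, ⁅x, u⁆ = 0) → x = 0) (b : (rootSystem H).Base) :
    ∃ t : I, (∀ i, Below b (B.w t) (B.w i)) ∧ (∀ j ∈ b.support, ∃ k : ℕ, B.w t (coroot j.1) = (k : K)) ∧
      (Fintype.card I : K) * ∏ α ∈ pos b, rho b (coroot α.1) = ∏ α ∈ pos b, (B.w t + rho b) (coroot α.1) := by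
  classical
  have hfin : Finite (G (rootSystem H)) := finite_G
  letI : Fintype (G (rootSystem H)) := Fintype.ofFinite _
  obtain ⟨t, h1, h2, h3⟩ := character B hirr hfaith b
  refine ⟨t, h1, h2, ?_⟩
  have h4 := weyl b (chi B) h3
  have h5 : ((chi B).coeff.sum fun _ c => c) = (Fintype.card I : K) := by
    have e : ∀ F : AddMonoidAlgebra K (Dual K H), (F.coeff.sum fun _ c => c) =
        (AddMonoidAlgebra.lift K K (Dual K H) (1 : Multiplicative (Dual K H) →* K)) F := by
      intro F
      rw [AddMonoidAlgebra.lift_apply]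
      simp
    rw [e]
    unfold chi
    rw [map_sum]
    simp
  rw [h5] at h4
  exact h4

theorem exists_large (B : WB (V := V) H I)
    (hirr : ∀ W : Submodule K V, (∀ x : L, ∀ u ∈ W, ⁅x, u⁆ ∈ W) → W = ⊥ ∨ W = ⊤)
    (hfaith : ∀ x : L, (∀ u : V, ⁅x, u⁆ = 0) → x = 0) {p : ℕ} (hp : p.Prime)
    (hd : p ∣ Fintype.card I) (hI : Nonempty I) :
    ∃ (α : H.root) (i : I) (k : ℤ), B.w i (coroot α.1) = (k : K) ∧
      (p : ℚ) ≤ k + (1 / 4) * ∑ g : H.root, |((rootSystem H).pairingIn ℤ g α : ℚ)| := by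
  classical
  obtain ⟨b⟩ : Nonempty (rootSystem H).Base := (rootSystem H).nonempty_base
  obtain ⟨t, -, h2, h3⟩ := dimension B hirr hfaith b
  choose! k hk using h2
  have hc : ∀ α ∈ pos b, ∃ f : H.root → ℕ, coroot α.1 = ∑ j ∈ b.support, (f j : K) • coroot j.1 ∧
      0 < ∑ j ∈ b.support, f j := by
    intro α hα
    have : b.IsPos α := by simpa [pos] using hα
    obtain ⟨f, hf, hf'⟩ := coroot_eq_sum b this
    exact ⟨f, hf, hf'⟩
  choose! f hf hf' using hc
  -- the pairings with positive coroots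
  have e1 : ∀ α ∈ pos b, rho b (coroot α.1) = ((∑ j ∈ b.support, f α j : ℕ) : K) := by
    intro α hα
    rw [hf α hα, map_sum, Nat.cast_sum]
    refine Finset.sum_congr rfl fun j hj => ?_
    have : rho b (coroot j.1) = 1 := rho_coroot b hj
    rw [map_smul, this, smul_eq_mul, mul_one]
  have e2 : ∀ α ∈ pos b, B.w t (coroot α.1) = ((∑ j ∈ b.support, f α j * k j : ℕ) : K) := by
    intro α hα
    rw [hf α hα, map_sum, Nat.cast_sum]
    refine Finset.sum_congr rfl fun j hj => ?_
    rw [map_smul, hk j hj, smul_eq_mul, Nat.cast_mul]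
  have e3 : Fintype.card I * ∏ α ∈ pos b, (∑ j ∈ b.support, f α j) =
      ∏ α ∈ pos b, (∑ j ∈ b.support, f α j * k j + ∑ j ∈ b.support, f α j) := by
    have h4 : ((Fintype.card I * ∏ α ∈ pos b, (∑ j ∈ b.support, f α j) : ℕ) : K) =
        ((∏ α ∈ pos b, (∑ j ∈ b.support, f α j * k j + ∑ j ∈ b.support, f α j) : ℕ) : K) := by
      rw [Nat.cast_mul, Nat.cast_prod, Nat.cast_prod]
      rw [← Finset.prod_congr rfl e1, h3]
      refine Finset.prod_congr rfl fun α hα => ?_
      rw [LinearMap.add_apply, e1 α hα, e2 α hα, Nat.cast_add]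
    exact_mod_cast h4
  obtain ⟨α, hα, hdvd⟩ := (Prime.dvd_finset_prod_iff hp.prime _).1 (e3 ▸ Dvd.dvd.mul_right hd _)
  have h5 : p ≤ ∑ j ∈ b.support, f α j * k j + ∑ j ∈ b.support, f α j :=
    Nat.le_of_dvd (by have := hf' α hα; omega) hdvd
  refine ⟨α, t, ((∑ j ∈ b.support, f α j * k j : ℕ) : ℤ), ?_, ?_⟩
  · rw [e2 α hα]
    push_cast
    rfl
  · -- the value of rho
    have h6 : ((∑ j ∈ b.support, f α j : ℕ) : ℚ) = 2⁻¹ * ∑ g ∈ pos b, ((rootSystem H).pairingIn ℤ g α : ℚ) := by
      have h7 : (((∑ j ∈ b.support, f α j : ℕ) : ℚ) : K) =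
          ((2⁻¹ * ∑ g ∈ pos b, ((rootSystem H).pairingIn ℤ g α : ℚ) : ℚ) : K) := by
        push_cast
        have h8 := e1 α hα
        push_cast at h8
        rw [← h8]
        unfold rho
        rw [LinearMap.smul_apply, smul_eq_mul, LinearMap.sum_apply]
        congr 1
        refine Finset.sum_congr rfl fun g _ => ?_
        have h9 : (rootSystem H).pairing g α = (((rootSystem H).pairingIn ℤ g α : ℤ) : K) :=
          ((rootSystem H).algebraMap_pairingIn ℤ g α).symm
        rw [← h9]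
        rfl
      exact_mod_cast h7
    have h8 : ∑ g : H.root, |((rootSystem H).pairingIn ℤ g α : ℚ)| =
        2 * ∑ g ∈ pos b, |((rootSystem H).pairingIn ℤ g α : ℚ)| := by
      refine sum_univ_eq_two_pos b (fun g => |((rootSystem H).pairingIn ℤ g α : ℚ)|) ?_
      intro g
      have : (rootSystem H).pairingIn ℤ ((rootSystem H).reflectionPerm g g) α = -(rootSystem H).pairingIn ℤ g α :=
        (rootSystem H).pairingIn_reflectionPerm_self_left ℤ g α
      simp only [this]
      push_cast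
      rw [abs_neg]
    have h9 : ∑ g ∈ pos b, ((rootSystem H).pairingIn ℤ g α : ℚ) ≤ ∑ g ∈ pos b, |((rootSystem H).pairingIn ℤ g α : ℚ)| :=
      Finset.sum_le_sum fun g _ => le_abs_self _
    have h10 : (p : ℚ) ≤ ((∑ j ∈ b.support, f α j * k j : ℕ) : ℚ) + ((∑ j ∈ b.support, f α j : ℕ) : ℚ) := by
      exact_mod_cast h5
    rw [h8]
    rw [h6] at h10
    have h11 : (((∑ j ∈ b.support, f α j * k j : ℕ) : ℤ) : ℚ) = ((∑ j ∈ b.support, f α j * k j : ℕ) : ℚ) := by
      push_cast
      rfl
    rw [h11]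
    linarith

end PF.L
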