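import Pool.Agent.Helper3.PF.Defs

/-!
Project PF, block B1: basic facts on root systems and their short roots.
-/

set_option linter.unusedSectionVars false
set_option linter.unusedVariables false

open Module

namespace PF

variable {E : Type*} [NormedAddCommGroup E] [InnerProductSpace ℝ E] {Φ X : Finset E}

theorem mem_Psi {a : E} : a ∈ Psi Φ ↔ a ∈ Φ ∧ inner ℝ a a = (2 : ℝ) := by
  classical
  simp [Psi]

theorem mem_Nb {g d : E} : d ∈ Nb Φ g ↔ d ∈ Psi Φ ∧ inner ℝ d g = (1 : ℝ) := by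
  classical
  simp [Nb]

theorem co_neg_left (a x : E) : co (-a) x = -co a x := by
  unfold co
  rw [inner_neg_right, inner_neg_neg]
  ring

theorem co_neg_right (a x : E) : co a (-x) = -co a x := by
  unfold co
  rw [inner_neg_left]
  ring

theorem RS.inner_pos (h : RS Φ) {a : E} (ha : a ∈ Φ) : (0 : ℝ) < inner ℝ a a :=
  real_inner_self_pos.2 (h.ne_zero a ha)

theorem RS.co_self (h : RS Φ) {a : E} (ha : a ∈ Φ) : co a a = 2 := by
  have h1 := (h.inner_pos ha).ne'
  unfold co
  field_simp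

theorem RS.neg_mem (h : RS Φ) {a : E} (ha : a ∈ Φ) : -a ∈ Φ := by
  have h1 := h.refl a ha a ha
  rw [h.co_self ha, two_smul] at h1
  have h2 : -a = a - (a + a) := by abel
  rw [h2]
  exact h1

/-- reflections are isometries -/
theorem RS.inner_refl (h : RS Φ) {a : E} (ha : a ∈ Φ) (x y : E) :
    inner ℝ (x - co a x • a) (y - co a y • a) = (inner ℝ x y : ℝ) := by
  have h1 := (h.inner_pos ha).ne'
  rw [inner_sub_left, inner_sub_right, inner_sub_right, inner_smul_left, inner_smul_right, inner_smul_left,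
    inner_smul_right]
  simp only [conj_trivial]
  unfold co
  rw [real_inner_comm y a]
  field_simp
  ring

theorem RS.add_mem (h : RS Φ) {a b : E} (ha : a ∈ Φ) (hb : b ∈ Φ) (hn : inner ℝ a b < (0 : ℝ)) (hne : a ≠ -b) :
    a + b ∈ Φ := by
  have ha0 := h.inner_pos ha
  have hb0 := h.inner_pos hb
  obtain ⟨k, hk⟩ := h.int a ha b hb
  obtain ⟨l, hl⟩ := h.int b hb a ha
  have hk1 : (k : ℝ) * inner ℝ a a = 2 * inner ℝ a b := by
    rw [← hk]
    unfold co
    rw [real_inner_comm a b]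
    field_simp
  have hl1 : (l : ℝ) * inner ℝ b b = 2 * inner ℝ a b := by
    rw [← hl]
    unfold co
    field_simp
  have hk2 : (k : ℝ) < 0 := by
    by_contra hc
    push Not at hc
    have := mul_nonneg hc ha0.le
    linarith
  have hl2 : (l : ℝ) < 0 := by
    by_contra hc
    push Not at hc
    have := mul_nonneg hc hb0.le
    linarith
  have hk3 : k < 0 := by exact_mod_cast hk2
  have hl3 : l < 0 := by exact_mod_cast hl2
  by_cases hk4 : k = -1
  · have h1 := h.refl a ha b hb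
    rw [hk, hk4] at h1
    have h2 : a + b = b - ((-1 : ℤ) : ℝ) • a := by
      rw [Int.cast_neg, Int.cast_one, neg_smul, one_smul]
      abel
    rw [h2]
    exact h1
  by_cases hl4 : l = -1
  · have h1 := h.refl b hb a ha
    rw [hl, hl4] at h1
    have h2 : a + b = a - ((-1 : ℤ) : ℝ) • b := by
      rw [Int.cast_neg, Int.cast_one, neg_smul, one_smul]
      abel
    rw [h2]
    exact h1
  exfalso
  have h5 : k ≤ -2 := by omega
  have h6 : l ≤ -2 := by omega
  have h7 : (4 : ℤ) ≤ k * l := by nlinarith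
  have h7' : (4 : ℝ) ≤ (k : ℝ) * l := by exact_mod_cast h7
  have h8 : (k : ℝ) * l * (inner ℝ a a * inner ℝ b b) = 4 * (inner ℝ a b * inner ℝ a b) := by
    calc (k : ℝ) * l * (inner ℝ a a * inner ℝ b b) = (k * inner ℝ a a) * (l * inner ℝ b b) := by ring
      _ = 4 * (inner ℝ a b * inner ℝ a b) := by rw [hk1, hl1]; ring
  have h9 := real_inner_mul_inner_self_le a b
  have h10 : (0 : ℝ) < inner ℝ a a * inner ℝ b b := mul_pos ha0 hb0
  have h11 : (inner ℝ a a * inner ℝ b b : ℝ) = inner ℝ a b * inner ℝ a b := by nlinarith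
  -- equality in Cauchy-Schwarz
  have h12 : inner ℝ (inner ℝ a a • b - inner ℝ a b • a) (inner ℝ a a • b - inner ℝ a b • a) = (0 : ℝ) := by
    rw [inner_sub_left, inner_sub_right, inner_sub_right, inner_smul_left, inner_smul_right, inner_smul_left,
      inner_smul_right, inner_smul_left, inner_smul_right, inner_smul_left, inner_smul_right]
    simp only [conj_trivial]
    rw [real_inner_comm a b]
    linear_combination (inner ℝ a a : ℝ) * h11
  have h13 : (inner ℝ a a : ℝ) • b = (inner ℝ a b : ℝ) • a := sub_eq_zero.1 (inner_self_eq_zero.1 h12)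
  have h14 : b = ((inner ℝ a a)⁻¹ * inner ℝ a b : ℝ) • a := by
    rw [mul_smul, ← h13, smul_smul, inv_mul_cancel₀ ha0.ne', one_smul]
  have h15 := h.red a ha _ (h14 ▸ hb)
  rcases h15 with h15 | h15
  · rw [h15, one_smul] at h14
    rw [h14] at hn
    linarith
  · rw [h15, neg_smul, one_smul] at h14
    exact hne (by rw [h14, neg_neg])

theorem RS.sub_mem (h : RS Φ) {a b : E} (ha : a ∈ Φ) (hb : b ∈ Φ) (hn : (0 : ℝ) < inner ℝ a b) (hne : a ≠ b) :
    a - b ∈ Φ := by
  rw [sub_eq_add_neg]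
  refine h.add_mem ha (h.neg_mem hb) ?_ (by rw [neg_neg]; exact hne)
  rw [inner_neg_right]
  linarith

theorem co_Psi {a : E} (ha : a ∈ Psi Φ) (x : E) : co a x = inner ℝ x a := by
  unfold co
  rw [(mem_Psi.1 ha).2]
  ring

theorem NRS.neg_Psi (h : NRS Φ) {a : E} (ha : a ∈ Psi Φ) : -a ∈ Psi Φ := by
  rw [mem_Psi] at ha ⊢
  exact ⟨h.toRS.neg_mem ha.1, by rw [inner_neg_neg]; exact ha.2⟩

/-- The Weyl group preserves the short roots. -/
theorem NRS.refl_Psi (h : NRS Φ) {a b : E} (ha : a ∈ Φ) (hb : b ∈ Psi Φ) : b - co a b • a ∈ Psi Φ := by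
  rw [mem_Psi] at hb ⊢
  exact ⟨h.refl a ha b hb.1, by rw [h.toRS.inner_refl ha]; exact hb.2⟩

/-- equality of short roots -/
theorem Psi_eq {a b : E} (ha : a ∈ Psi Φ) (hb : b ∈ Psi Φ) (h : inner ℝ a b = (2 : ℝ)) : a = b := by
  rw [mem_Psi] at ha hb
  have h1 : inner ℝ (a - b) (a - b) = (0 : ℝ) := by
    rw [inner_sub_left, inner_sub_right, inner_sub_right, real_inner_comm a b, ha.2, hb.2, h]
    norm_num
  exact sub_eq_zero.1 (inner_self_eq_zero.1 h1)

theorem NRS.Psi_eq_neg (h : NRS Φ) {a b : E} (ha : a ∈ Psi Φ) (hb : b ∈ Psi Φ) (h1 : inner ℝ a b = (-2 : ℝ)) :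
    a = -b := by
  refine Psi_eq ha (h.neg_Psi hb) ?_
  rw [inner_neg_right, h1]
  norm_num

theorem NRS.int_Psi (h : NRS Φ) {a b : E} (ha : a ∈ Psi Φ) (hb : b ∈ Psi Φ) :
    ∃ k : ℤ, inner ℝ a b = (k : ℝ) := by
  obtain ⟨k, hk⟩ := h.int b (mem_Psi.1 hb).1 a (mem_Psi.1 ha).1
  exact ⟨k, by rw [← hk, co_Psi hb]⟩

theorem NRS.inner_Psi (h : NRS Φ) {a b : E} (ha : a ∈ Psi Φ) (hb : b ∈ Psi Φ) (h1 : a ≠ b) (h2 : a ≠ -b) :
    inner ℝ a b = (0 : ℝ) ∨ inner ℝ a b = (1 : ℝ) ∨ inner ℝ a b = (-1 : ℝ) := by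
  obtain ⟨k, hk⟩ := h.int_Psi ha hb
  have h3 : (0 : ℝ) ≤ inner ℝ (a - b) (a - b) := real_inner_self_nonneg
  have h4 : (0 : ℝ) ≤ inner ℝ (a + b) (a + b) := real_inner_self_nonneg
  rw [inner_sub_left, inner_sub_right, inner_sub_right, real_inner_comm a b, (mem_Psi.1 ha).2, (mem_Psi.1 hb).2,
    hk] at h3
  rw [inner_add_left, inner_add_right, inner_add_right, real_inner_comm a b, (mem_Psi.1 ha).2, (mem_Psi.1 hb).2,
    hk] at h4
  have h5 : (k : ℝ) ≤ 2 := by linarith
  have h6 : (-2 : ℝ) ≤ k := by linarith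
  have h7 : k ≤ 2 := by exact_mod_cast h5
  have h8 : -2 ≤ k := by exact_mod_cast h6
  have h9 : k ≠ 2 := by
    rintro rfl
    exact h1 (Psi_eq ha hb (by rw [hk]; norm_num))
  have h10 : k ≠ -2 := by
    rintro rfl
    exact h2 (h.Psi_eq_neg ha hb (by rw [hk]; norm_num))
  have h11 : k = 0 ∨ k = 1 ∨ k = -1 := by omega
  rw [hk]
  rcases h11 with rfl | rfl | rfl
  · left; norm_num
  · right; left; norm_num
  · right; right; norm_num

theorem NRS.sub_Psi (h : NRS Φ) {a b : E} (ha : a ∈ Psi Φ) (hb : b ∈ Psi Φ) (h1 : inner ℝ a b = (1 : ℝ)) :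
    a - b ∈ Psi Φ := by
  have h2 := h.refl_Psi (mem_Psi.1 hb).1 ha
  rwa [co_Psi hb, h1, one_smul] at h2

theorem NRS.add_Psi (h : NRS Φ) {a b : E} (ha : a ∈ Psi Φ) (hb : b ∈ Psi Φ) (h1 : inner ℝ a b = (-1 : ℝ)) :
    a + b ∈ Psi Φ := by
  have h2 := h.refl_Psi (mem_Psi.1 hb).1 ha
  rwa [co_Psi hb, h1, neg_smul, one_smul, sub_neg_eq_add] at h2

theorem NRS.Psi_nonempty (h : NRS Φ) : (Psi Φ).Nonempty := by
  obtain ⟨a, ha, h2⟩ := h.ex_two
  exact ⟨a, mem_Psi.2 ⟨ha, h2⟩⟩

/-- A nonempty set of short roots stable under the reflections is not orthogonal to any root. -/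
theorem NRS.orbit_ne (h : NRS Φ) {S : Set E} (hS : S ⊆ Psi Φ) (hne : S.Nonempty)
    (hst : ∀ a ∈ Φ, ∀ s ∈ S, s - co a s • a ∈ S) {b : E} (hb : b ∈ Φ) : ∃ s ∈ S, inner ℝ b s ≠ (0 : ℝ) := by
  classical
  by_contra hcon
  push Not at hcon
  have h1 := h.irr (Φ.filter fun c => ∀ s ∈ S, inner ℝ c s = (0 : ℝ)) (Finset.filter_subset _ _)
    ⟨b, Finset.mem_filter.2 ⟨hb, hcon⟩⟩ ?_
  · obtain ⟨s, hs⟩ := hne
    have hs1 : s ∈ Psi Φ := hS hs
    have h2 : s ∈ Φ.filter fun c => ∀ s ∈ S, inner ℝ c s = (0 : ℝ) := by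
      rw [h1]
      exact (mem_Psi.1 hs1).1
    have h3 := (Finset.mem_filter.1 h2).2 s hs
    rw [(mem_Psi.1 hs1).2] at h3
    norm_num at h3
  · intro c hc d hd hdn
    rw [Finset.mem_filter] at hc hdn
    push Not at hdn
    obtain ⟨s, hs, hds⟩ := hdn hd
    have h3 := hc.2 _ (hst d hd s hs)
    rw [inner_sub_right, hc.2 s hs, inner_smul_right, zero_sub, neg_eq_zero] at h3
    rcases mul_eq_zero.1 h3 with h4 | h4
    · exfalso
      unfold co at h4
      rw [div_eq_zero_iff] at h4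
      rcases h4 with h4 | h4
      · rw [real_inner_comm] at h4
        exact hds (by linarith)
      · exact (h.toRS.inner_pos hd).ne' h4
    · exact h4

/-- The short roots form one orbit. -/
theorem NRS.orbit (h : NRS Φ) {S : Set E} (hS : S ⊆ Psi Φ) (hne : S.Nonempty)
    (hst : ∀ a ∈ Φ, ∀ s ∈ S, s - co a s • a ∈ S) : S = Psi Φ := by
  refine Set.Subset.antisymm hS ?_
  intro d hd
  have hd' : d ∈ Psi Φ := hd
  obtain ⟨s, hs, hds⟩ := h.orbit_ne hS hne hst (mem_Psi.1 hd').1
  have hneg : ∀ s ∈ S, -s ∈ S := by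
    intro s hs
    have hs1 : s ∈ Psi Φ := hS hs
    have h1 := hst s (mem_Psi.1 hs1).1 s hs
    rw [h.toRS.co_self (mem_Psi.1 hs1).1, two_smul] at h1
    have h2 : -s = s - (s + s) := by abel
    rw [h2]
    exact h1
  have key : ∀ s ∈ S, inner ℝ d s = (1 : ℝ) → d ∈ S := by
    intro s hs h1
    have hs1 : s ∈ Psi Φ := hS hs
    have h2 : s - d ∈ Psi Φ := h.sub_Psi hs1 hd' (by rw [real_inner_comm]; exact h1)
    have h3 := hst _ (mem_Psi.1 h2).1 s hs
    rw [co_Psi h2, inner_sub_right, (mem_Psi.1 hs1).2, real_inner_comm, h1] at h3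
    have h4 : s - ((2 : ℝ) - 1) • (s - d) = d := by
      norm_num
    rwa [h4] at h3
  by_cases h1 : d = s
  · rw [h1]; exact hs
  by_cases h2 : d = -s
  · rw [h2]; exact hneg s hs
  rcases h.inner_Psi hd' (hS hs) h1 h2 with h3 | h3 | h3
  · exact absurd h3 hds
  · exact key s hs h3
  · exact key (-s) (hneg s hs) (by rw [inner_neg_right, h3]; norm_num)

/-- Every root is not orthogonal to some short root (irreducibility). -/
theorem NRS.exists_short (h : NRS Φ) {b : E} (hb : b ∈ Φ) : ∃ g ∈ Psi Φ, (0 : ℝ) < inner ℝ b g := by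
  obtain ⟨g, hg, hbg⟩ := h.orbit_ne (S := (Psi Φ : Set E)) (fun _ h => h) h.Psi_nonempty
    (fun a ha s hs => h.refl_Psi ha hs) hb
  rcases lt_or_gt_of_ne hbg with h1 | h1
  · exact ⟨-g, h.neg_Psi hg, by rw [inner_neg_right]; linarith⟩
  · exact ⟨g, hg, h1⟩

theorem NRS.length (h : NRS Φ) {b : E} (hb : b ∈ Φ) :
    inner ℝ b b = (2 : ℝ) ∨ inner ℝ b b = (4 : ℝ) ∨ inner ℝ b b = (6 : ℝ) := by
  obtain ⟨g, hg, hbg⟩ := h.exists_short hb
  have hg' := mem_Psi.1 hg
  have hb0 := h.toRS.inner_pos hb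
  have hb2 := h.two_le b hb
  obtain ⟨m, hm⟩ := h.int g hg'.1 b hb
  obtain ⟨k, hk⟩ := h.int b hb g hg'.1
  rw [co_Psi hg] at hm
  have hk1 : (k : ℝ) * inner ℝ b b = 2 * m := by
    rw [← hk, ← hm]
    unfold co
    rw [real_inner_comm g b]
    field_simp
  have hm0 : 0 < m := by
    have : (0 : ℝ) < m := by rw [← hm]; exact hbg
    exact_mod_cast this
  have hk0 : 0 < k := by
    by_contra hc
    push Not at hc
    have h1 : (k : ℝ) ≤ 0 := by exact_mod_cast hc
    have h2 : (0 : ℝ) < m := by exact_mod_cast hm0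
    have h3 := mul_nonneg (neg_nonneg.2 h1) hb0.le
    nlinarith
  have hcs := real_inner_mul_inner_self_le b g
  rw [hg'.2, hm] at hcs
  -- m * m ≤ 2 * |b|^2, so m * k ≤ 4
  have hkR : (0 : ℝ) < k := by exact_mod_cast hk0
  have hmR : (0 : ℝ) < m := by exact_mod_cast hm0
  have h4 : (m : ℝ) * k ≤ 4 := by
    have h5 : (m : ℝ) * m * k ≤ 4 * m := by nlinarith
    have h6 : (m : ℝ) * (m * k) ≤ m * 4 := by nlinarith
    exact le_of_mul_le_mul_left h6 hmR
  have h4' : m * k ≤ 4 := by exact_mod_cast h4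
  have h5 : k ≤ m := by
    have : (k : ℝ) ≤ m := by nlinarith
    exact_mod_cast this
  have hk2 : k ≤ 2 := by nlinarith
  interval_cases k
  · have h6 : m ≤ 4 := by omega
    have h7 : m ≠ 4 := by
      rintro rfl
      have h8 : inner ℝ b b = (8 : ℝ) := by
        push_cast at hk1
        linarith
      have h9 : inner ℝ (b - (2 : ℝ) • g) (b - (2 : ℝ) • g) = (0 : ℝ) := by
        rw [inner_sub_left, inner_sub_right, inner_sub_right, inner_smul_left, inner_smul_right, inner_smul_left,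
          inner_smul_right, real_inner_comm b g, h8, hm, hg'.2]
        simp only [conj_trivial]
        push_cast
        norm_num
      have h10 : b = (2 : ℝ) • g := sub_eq_zero.1 (inner_self_eq_zero.1 h9)
      have h11 := h.red g hg'.1 2 (h10 ▸ hb)
      norm_num at h11
    interval_cases m
    · left; push_cast at hk1; linarith
    · right; left; push_cast at hk1; linarith
    · right; right; push_cast at hk1; linarith
    · exact absurd rfl h7
  · have h6 : m = 2 := by omega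
    subst h6
    left
    push_cast at hk1
    linarith

theorem NRS.four (h : NRS Φ) {b g : E} (hb : b ∈ Φ) (h4 : inner ℝ b b = (4 : ℝ)) (hg : g ∈ Psi Φ) :
    inner ℝ b g = (0 : ℝ) ∨ inner ℝ b g = (2 : ℝ) ∨ inner ℝ b g = (-2 : ℝ) := by
  have hg' := mem_Psi.1 hg
  obtain ⟨k, hk⟩ := h.int b hb g hg'.1
  have hk1 : inner ℝ b g = 2 * (k : ℝ) := by
    rw [← hk]
    unfold co
    rw [real_inner_comm g b, h4]
    ring
  have hcs := real_inner_mul_inner_self_le b g
  rw [hg'.2, hk1, h4] at hcs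
  have h1 : k * k ≤ 2 := by
    have : (k : ℝ) * k ≤ 2 := by nlinarith
    exact_mod_cast this
  have h2 : k ≤ 1 := by nlinarith
  have h3 : -1 ≤ k := by nlinarith
  rw [hk1]
  interval_cases k
  · right; right; norm_num
  · left; norm_num
  · right; left; norm_num

theorem NRS.four_sub (h : NRS Φ) {b g : E} (hb : b ∈ Φ) (h4 : inner ℝ b b = (4 : ℝ)) (hg : g ∈ Psi Φ)
    (h2 : inner ℝ b g = (2 : ℝ)) : b - g ∈ Psi Φ ∧ inner ℝ (b - g) g = (0 : ℝ) := by
  have hg' := mem_Psi.1 hg
  refine ⟨?_, by rw [inner_sub_left, h2, hg'.2]; norm_num⟩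
  rw [mem_Psi]
  refine ⟨h.toRS.sub_mem hb hg'.1 (by rw [h2]; norm_num) ?_, ?_⟩
  · rintro rfl
    rw [hg'.2] at h4
    norm_num at h4
  · rw [inner_sub_left, inner_sub_right, inner_sub_right, real_inner_comm b g, h2, h4, hg'.2]
    norm_num

theorem NRS.six (h : NRS Φ) {b g : E} (hb : b ∈ Φ) (h6 : inner ℝ b b = (6 : ℝ)) (hg : g ∈ Psi Φ) :
    inner ℝ b g = (0 : ℝ) ∨ inner ℝ b g = (3 : ℝ) ∨ inner ℝ b g = (-3 : ℝ) := by
  have hg' := mem_Psi.1 hg
  obtain ⟨k, hk⟩ := h.int b hb g hg'.1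
  have hk1 : inner ℝ b g = 3 * (k : ℝ) := by
    rw [← hk]
    unfold co
    rw [real_inner_comm g b, h6]
    ring
  have hcs := real_inner_mul_inner_self_le b g
  rw [hg'.2, hk1, h6] at hcs
  have h1 : (k : ℝ) * k < 2 := by nlinarith
  have h1' : k * k < 2 := by exact_mod_cast h1
  have h2 : k ≤ 1 := by nlinarith
  have h3 : -1 ≤ k := by nlinarith
  rw [hk1]
  interval_cases k
  · right; right; norm_num
  · left; norm_num
  · right; left; norm_num

theorem NRS.six_sub (h : NRS Φ) {b g : E} (hb : b ∈ Φ) (h6 : inner ℝ b b = (6 : ℝ)) (hg : g ∈ Psi Φ)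
    (h3 : inner ℝ b g = (3 : ℝ)) : b - g ∈ Psi Φ ∧ inner ℝ (b - g) g = (1 : ℝ) := by
  have hg' := mem_Psi.1 hg
  refine ⟨?_, by rw [inner_sub_left, h3, hg'.2]; norm_num⟩
  rw [mem_Psi]
  refine ⟨h.toRS.sub_mem hb hg'.1 (by rw [h3]; norm_num) ?_, ?_⟩
  · rintro rfl
    rw [hg'.2] at h6
    norm_num at h6
  · rw [inner_sub_left, inner_sub_right, inner_sub_right, real_inner_comm b g, h3, h6, hg'.2]
    norm_num

/-- the short root and its neighbours under a reflection -/
theorem NRS.card_Nb_refl (h : NRS Φ) {a g : E} (ha : a ∈ Φ) (hg : g ∈ Psi Φ) :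
    (Nb Φ (g - co a g • a)).card = (Nb Φ g).card := by
  classical
  have hinv : ∀ x : E, (x - co a x • a) - co a (x - co a x • a) • a = x := by
    intro x
    have h1 : co a (x - co a x • a) = -co a x := by
      have h2 := h.toRS.co_self ha
      have h0 := (h.toRS.inner_pos ha).ne'
      unfold co at h2 ⊢
      rw [inner_sub_left, inner_smul_left]
      simp only [conj_trivial]
      field_simp
      ring
    rw [h1, neg_smul]
    abel
  have hsub : ∀ g ∈ Psi Φ, (Nb Φ g).card ≤ (Nb Φ (g - co a g • a)).card := by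
    intro g hg
    refine Finset.card_le_card_of_injOn (fun d => d - co a d • a) ?_ ?_
    · intro d hd
      have hd' := mem_Nb.1 (Finset.mem_coe.1 hd)
      refine Finset.mem_coe.2 (mem_Nb.2 ⟨h.refl_Psi ha hd'.1, ?_⟩)
      rw [h.toRS.inner_refl ha]
      exact hd'.2
    · intro d _ d' _ hdd
      have h1 : d - co a d • a = d' - co a d' • a := hdd
      rw [← hinv d, ← hinv d', h1]
  refine le_antisymm ?_ (hsub g hg)
  have h1 := hsub _ (h.refl_Psi ha hg)
  rwa [hinv g] at h1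

/-- The number of neighbours is the same for all short roots. -/
theorem NRS.card_Nb' (h : NRS Φ) {g : E} (hg : g ∈ Psi Φ) {d : E} (hd : d ∈ Psi Φ) :
    (Nb Φ d).card = (Nb Φ g).card := by
  have h1 := h.orbit (S := {e | e ∈ Psi Φ ∧ (Nb Φ e).card = (Nb Φ g).card}) (fun e he => he.1) ⟨g, hg, rfl⟩
    (fun a ha s hs => ⟨h.refl_Psi ha hs.1, by rw [h.card_Nb_refl ha hs.1]; exact hs.2⟩)
  have h2 : d ∈ (Psi Φ : Set E) := hd
  rw [← h1] at h2
  exact h2.2

theorem NRS.card_Nb (h : NRS Φ) {g : E} (hg : g ∈ Psi Φ) (hu : (Nb Φ g).Nonempty) {d : E} (hd : d ∈ Psi Φ) :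
    (Nb Φ d).card = (Nb Φ g).card := h.card_Nb' hg hd

/-- (E1) If some short root has a neighbour, the short roots form an irreducible set. -/
theorem NRS.irr_Psi (h : NRS Φ) {g : E} (hg : g ∈ Psi Φ) (hu : (Nb Φ g).Nonempty) :
    ∀ S ⊆ Psi Φ, S.Nonempty → (∀ a ∈ S, ∀ b ∈ Psi Φ, b ∉ S → inner ℝ a b = (0 : ℝ)) → S = Psi Φ := by
  classical
  intro S hS hne horth
  by_contra hST
  obtain ⟨t, ht, htS⟩ : ∃ t ∈ Psi Φ, t ∉ S := by
    by_contra hcon
    push Not at hcon
    exact hST (Finset.Subset.antisymm hS hcon)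
  -- no root touches both parts
  have key : ∀ b ∈ Φ, ∀ s ∈ S, ∀ t ∈ Psi Φ, t ∉ S → (0 : ℝ) < inner ℝ b s → (0 : ℝ) < inner ℝ b t → False := by
    intro b hb s hs t ht htS h1 h2
    have hs' := hS hs
    rcases h.length hb with hl | hl | hl
    · have hbP : b ∈ Psi Φ := mem_Psi.2 ⟨hb, hl⟩
      by_cases hbS : b ∈ S
      · rw [horth b hbS t ht htS] at h2
        exact lt_irrefl _ h2
      · rw [real_inner_comm, horth s hs b hbP hbS] at h1
        exact lt_irrefl _ h1
    · have h3 : inner ℝ b s = (2 : ℝ) := by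
        rcases h.four hb hl hs' with h3 | h3 | h3
        · rw [h3] at h1; norm_num at h1
        · exact h3
        · rw [h3] at h1; norm_num at h1
      have h4 : inner ℝ b t = (2 : ℝ) := by
        rcases h.four hb hl ht with h3 | h3 | h3
        · rw [h3] at h2; norm_num at h2
        · exact h3
        · rw [h3] at h2; norm_num at h2
      obtain ⟨h5, h6⟩ := h.four_sub hb hl hs' h3
      have h7 : b - s = t := by
        refine Psi_eq h5 ht ?_
        rw [inner_sub_left, h4, horth s hs t ht htS]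
        norm_num
      have hNs : (Nb Φ s).Nonempty := by
        rw [← Finset.card_pos, h.card_Nb' hg hs', Finset.card_pos]
        exact hu
      obtain ⟨e, he⟩ := hNs
      rw [mem_Nb] at he
      have heS : e ∈ S := by
        by_contra heS
        rw [real_inner_comm, horth s hs e he.1 heS] at he
        norm_num at he
      have h8 : inner ℝ b e = (1 : ℝ) := by
        have h9 : b = s + t := by rw [← h7]; abel
        rw [h9, inner_add_left, real_inner_comm e s, he.2, real_inner_comm e t, horth e heS t ht htS]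
        norm_num
      rcases h.four hb hl he.1 with h9 | h9 | h9 <;> rw [h9] at h8 <;> norm_num at h8
    · have h3 : inner ℝ b s = (3 : ℝ) := by
        rcases h.six hb hl hs' with h3 | h3 | h3
        · rw [h3] at h1; norm_num at h1
        · exact h3
        · rw [h3] at h1; norm_num at h1
      have h4 : inner ℝ b t = (3 : ℝ) := by
        rcases h.six hb hl ht with h3 | h3 | h3
        · rw [h3] at h2; norm_num at h2
        · exact h3
        · rw [h3] at h2; norm_num at h2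
      obtain ⟨h5, h6⟩ := h.six_sub hb hl hs' h3
      have h7 : inner ℝ (b - s) t = (3 : ℝ) := by
        rw [inner_sub_left, h4, horth s hs t ht htS]
        norm_num
      by_cases h8 : b - s = t
      · rw [h8, (mem_Psi.1 ht).2] at h7
        norm_num at h7
      by_cases h9 : b - s = -t
      · rw [h9, inner_neg_left, (mem_Psi.1 ht).2] at h7
        norm_num at h7
      rcases h.inner_Psi h5 ht h8 h9 with h10 | h10 | h10 <;> rw [h10] at h7 <;> norm_num at h7
  have hneg : ∀ s ∈ S, -s ∈ S := by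
    intro s hs
    by_contra hn
    have h1 := horth s hs (-s) (h.neg_Psi (hS hs)) hn
    rw [inner_neg_right, (mem_Psi.1 (hS hs)).2] at h1
    norm_num at h1
  have hneg' : ∀ t ∈ Psi Φ, t ∉ S → -t ∉ S := by
    intro t ht htS hn
    have := hneg _ hn
    rw [neg_neg] at this
    exact htS this
  have key2 : ∀ b ∈ Φ, ∀ s ∈ S, ∀ t ∈ Psi Φ, t ∉ S → inner ℝ b s ≠ (0 : ℝ) → inner ℝ b t = (0 : ℝ) := by
    intro b hb s hs t ht htS h1
    by_contra h2
    rcases lt_or_gt_of_ne h1 with h3 | h3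
    · rcases lt_or_gt_of_ne h2 with h4 | h4
      · exact key b hb (-s) (hneg s hs) (-t) (h.neg_Psi ht) (hneg' t ht htS)
          (by rw [inner_neg_right]; linarith) (by rw [inner_neg_right]; linarith)
      · exact key b hb (-s) (hneg s hs) t ht htS (by rw [inner_neg_right]; linarith) h4
    · rcases lt_or_gt_of_ne h2 with h4 | h4
      · exact key b hb s hs (-t) (h.neg_Psi ht) (hneg' t ht htS) h3 (by rw [inner_neg_right]; linarith)
      · exact key b hb s hs t ht htS h3 h4
  -- the roots that touch `S`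
  have h1 := h.irr (Φ.filter fun b => ∃ s ∈ S, inner ℝ b s ≠ (0 : ℝ)) (Finset.filter_subset _ _) ?_ ?_
  · have h2 : t ∈ Φ.filter fun b => ∃ s ∈ S, inner ℝ b s ≠ (0 : ℝ) := by
      rw [h1]
      exact (mem_Psi.1 ht).1
    obtain ⟨-, s, hs, h3⟩ := Finset.mem_filter.1 h2
    exact h3 (by rw [real_inner_comm]; exact horth s hs t ht htS)
  · obtain ⟨s, hs⟩ := hne
    refine ⟨s, Finset.mem_filter.2 ⟨(mem_Psi.1 (hS hs)).1, s, hs, ?_⟩⟩
    rw [(mem_Psi.1 (hS hs)).2]
    norm_num
  · intro b hb c hc hcn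
    rw [Finset.mem_filter] at hb hcn
    obtain ⟨hb1, s, hs, hbs⟩ := hb
    push Not at hcn
    have hc1 := hcn hc
    -- `c` is a sum of short roots outside `S`
    have hbt : ∀ t ∈ Psi Φ, t ∉ S → inner ℝ b t = (0 : ℝ) := fun t ht htS => key2 b hb1 s hs t ht htS hbs
    have hout : ∀ g ∈ Psi Φ, inner ℝ c g ≠ (0 : ℝ) → g ∉ S := fun g _ hcg hgS => hcg (hc1 g hgS)
    obtain ⟨g', hg', hcg'⟩ := h.exists_short hc
    have hg'S := hout g' hg' hcg'.ne'
    rcases h.length hc with hl | hl | hl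
    · have hcP : c ∈ Psi Φ := mem_Psi.2 ⟨hc, hl⟩
      refine hbt c hcP (fun hcS => ?_)
      have := hc1 c hcS
      rw [hl] at this
      norm_num at this
    · have h3 : inner ℝ c g' = (2 : ℝ) := by
        rcases h.four hc hl hg' with h3 | h3 | h3
        · rw [h3] at hcg'; norm_num at hcg'
        · exact h3
        · rw [h3] at hcg'; norm_num at hcg'
      obtain ⟨h5, h6⟩ := h.four_sub hc hl hg' h3
      have h7 : c - g' ∉ S := by
        refine hout _ h5 ?_
        rw [inner_sub_right, hl, h3]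
        norm_num
      have h8 : c = g' + (c - g') := by abel
      rw [h8, inner_add_right, hbt g' hg' hg'S, hbt _ h5 h7, add_zero]
    · have h3 : inner ℝ c g' = (3 : ℝ) := by
        rcases h.six hc hl hg' with h3 | h3 | h3
        · rw [h3] at hcg'; norm_num at hcg'
        · exact h3
        · rw [h3] at hcg'; norm_num at hcg'
      obtain ⟨h5, h6⟩ := h.six_sub hc hl hg' h3
      have h7 : c - g' ∉ S := by
        refine hout _ h5 ?_
        rw [inner_sub_right, hl, h3]
        norm_num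
      have h8 : c = g' + (c - g') := by abel
      rw [h8, inner_add_right, hbt g' hg' hg'S, hbt _ h5 h7, add_zero]

/-- The pairing with a root is bounded by the pairings with the short roots. -/
theorem NRS.co_le (h : NRS Φ) {x : E} {A : ℝ} (hA : ∀ d ∈ Psi Φ, inner ℝ x d ≤ A) {a : E} (ha : a ∈ Φ) :
    co a x ≤ A := by
  obtain ⟨g, hg, hag⟩ := h.exists_short ha
  have hA0 : 0 ≤ A := by
    have h1 := hA g hg
    have h2 := hA (-g) (h.neg_Psi hg)
    rw [inner_neg_right] at h2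
    linarith
  rcases h.length ha with hl | hl | hl
  · rw [co_Psi (mem_Psi.2 ⟨ha, hl⟩)]
    exact hA a (mem_Psi.2 ⟨ha, hl⟩)
  · have h3 : inner ℝ a g = (2 : ℝ) := by
      rcases h.four ha hl hg with h3 | h3 | h3
      · rw [h3] at hag; norm_num at hag
      · exact h3
      · rw [h3] at hag; norm_num at hag
    obtain ⟨h5, h6⟩ := h.four_sub ha hl hg h3
    have h7 : inner ℝ x a = (inner ℝ x g : ℝ) + inner ℝ x (a - g) := by rw [← inner_add_right]; congr 1; abel
    unfold co
    rw [hl, h7]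
    have h8 := hA g hg
    have h9 := hA _ h5
    linarith
  · have h3 : inner ℝ a g = (3 : ℝ) := by
      rcases h.six ha hl hg with h3 | h3 | h3
      · rw [h3] at hag; norm_num at hag
      · exact h3
      · rw [h3] at hag; norm_num at hag
    obtain ⟨h5, h6⟩ := h.six_sub ha hl hg h3
    have h7 : inner ℝ x a = (inner ℝ x g : ℝ) + inner ℝ x (a - g) := by rw [← inner_add_right]; congr 1; abel
    unfold co
    rw [hl, h7]
    have h8 := hA g hg
    have h9 := hA _ h5
    linarith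

end PF
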