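import Mathlib

/-!
Project PF (MP_b8862a_ag): finite root systems and saturated sets of weights in Euclidean spaces. Definitions.
-/

open Module

namespace PF

variable {E : Type*} [NormedAddCommGroup E] [InnerProductSpace ℝ E]

/-- The pairing `⟨x, a^∨⟩ = 2 (x, a) / (a, a)`. -/
noncomputable def co (a x : E) : ℝ := 2 * inner ℝ x a / inner ℝ a a

/-- A finite reduced irreducible root system in a Euclidean space. -/
structure RS (Φ : Finset E) : Prop where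
  nonempty : Φ.Nonempty
  ne_zero : ∀ a ∈ Φ, a ≠ 0
  int : ∀ a ∈ Φ, ∀ b ∈ Φ, ∃ k : ℤ, co a b = k
  refl : ∀ a ∈ Φ, ∀ b ∈ Φ, b - co a b • a ∈ Φ
  red : ∀ a ∈ Φ, ∀ c : ℝ, c • a ∈ Φ → c = 1 ∨ c = -1
  irr : ∀ S ⊆ Φ, S.Nonempty → (∀ a ∈ S, ∀ b ∈ Φ, b ∉ S → inner ℝ a b = 0) → S = Φ

/-- The minimal square length of a root is `2`. -/
structure NRS (Φ : Finset E) : Prop extends RS Φ where
  two_le : ∀ a ∈ Φ, 2 ≤ inner ℝ a a
  ex_two : ∃ a ∈ Φ, inner ℝ a a = 2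

/-- The set of weights of a self-dual module: integral, closed under root strings, symmetric, in one coset of
the root lattice. -/
structure Sat (Φ X : Finset E) : Prop where
  nonempty : X.Nonempty
  int : ∀ a ∈ Φ, ∀ x ∈ X, ∃ k : ℤ, co a x = k
  str : ∀ a ∈ Φ, ∀ x ∈ X, ∀ j : ℕ, (j : ℝ) ≤ co a x → x - (j : ℝ) • a ∈ X
  neg : ∀ x ∈ X, -x ∈ X
  coset : ∀ x ∈ X, ∀ y ∈ X, x - y ∈ AddSubgroup.closure (Φ : Set E)

open Classical in
/-- The short roots. -/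
noncomputable def Psi (Φ : Finset E) : Finset E := Φ.filter fun a => inner ℝ a a = (2 : ℝ)

open Classical in
/-- The short roots with inner product `1` with `g`. -/
noncomputable def Nb (Φ : Finset E) (g : E) : Finset E := (Psi Φ).filter fun d => inner ℝ d g = (1 : ℝ)

/-- A quarter of the sum of the absolute values of the pairings with `a^∨`. -/
noncomputable def qs (Φ : Finset E) (a : E) : ℝ := (1 / 4) * ∑ g ∈ Φ, |co a g|

/-- `Φ` is of type `B_N`, `X` is zero and the short roots. -/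
def TypeB (Φ X : Finset E) : Prop :=
  ∃ (N : ℕ) (x : Fin N → E), Orthonormal ℝ x ∧ ∃ c : ℝ, 0 < c ∧
    (∀ y, y ∈ X ↔ y = 0 ∨ ∃ i, y = c • x i ∨ y = -(c • x i)) ∧
    (∀ y, y ∈ Φ ↔ (∃ i, y = c • x i ∨ y = -(c • x i)) ∨
      ∃ i j, i ≠ j ∧ (y = c • (x i + x j) ∨ y = c • (x i - x j) ∨ y = -(c • (x i + x j))))

/-- `X` is an orthogonal frame and its opposite, all sums and differences are roots. -/
def TypeD (Φ X : Finset E) : Prop :=
  ∃ (N : ℕ) (x : Fin N → E), Orthonormal ℝ x ∧ ∃ c : ℝ, 0 < c ∧ 3 ≤ N ∧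
    (∀ y, y ∈ X ↔ ∃ i, y = c • x i ∨ y = -(c • x i)) ∧
    (∀ i j, i ≠ j → c • (x i + x j) ∈ Φ ∧ c • (x i - x j) ∈ Φ ∧ -(c • (x i + x j)) ∈ Φ)

/-- `Φ` has rank one. -/
def TypeA (Φ : Finset E) : Prop := ∃ a, ∀ y, y ∈ Φ ↔ y = a ∨ y = -a

end PF
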