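import Pool.Agent.Helper3.PF.WDefs
import Pool.Agent.Helper88.MT.Top

/-!
Project PF / L: the character of a module with a basis of weight vectors.
-/

open Module LieModule LieAlgebra LieAlgebra.IsKilling AddMonoidAlgebra MTP.MF PF.W

namespace PF.L

variable {K : Type*} [Field K] [CharZero K] [IsAlgClosed K]
  {L : Type*} [LieRing L] [LieAlgebra K L] [FiniteDimensional K L] [IsKilling K L]
  {H : LieSubalgebra K L} [H.IsCartanSubalgebra]
  {V : Type*} [AddCommGroup V] [Module K V] [FiniteDimensional K V]
  [LieRingModule L V] [LieModule K L V] {I : Type*} [Fintype I]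

/-- The character. -/
noncomputable def chi (B : WB (V := V) H I) : AddMonoidAlgebra K (Dual K H) := ∑ i, single (B.w i) (1 : K)

end PF.L
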