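import Pool.Agent.Helper3.PF.WFree

/-!
Project PF / W, block W3: antisymmetric elements of the group ring.

`exists_dom`: take `g` in the (finite) Weyl group for which the integral value of `g μ` on the sum of the positive
coroots is maximal; a simple reflection changes the sum of the positive coroots by twice the simple coroot.
`alt_eq`: compare coefficients.
-/

open Module AddMonoidAlgebra

namespace PF.W

variable {ι K M N : Type*} [Field K] [CharZero K] [AddCommGroup M] [Module K M] [AddCommGroup N] [Module K N]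
  [Fintype ι] {P : RootPairing ι K M N}

private theorem mem_pos56 (b : P.Base) {i : ι} : i ∈ pos b ↔ b.IsPos i := by
  classical
  unfold pos
  simp

private theorem integral_G56 {g : (M ≃ₗ[K] M) × (N ≃ₗ[K] N)} (hg : g ∈ G P) {μ : M}
    (hμ : Integral P μ) : Integral P (g.1 μ) := by
  intro i
  obtain ⟨j, -, hj⟩ := map_root (inv_mem hg) i
  obtain ⟨k, hk⟩ := hμ j
  refine ⟨k, ?_⟩
  have h1 := pairing_inv hg μ (P.coroot j)
  have h2 : g.2 (P.coroot j) = P.coroot i := by
    rw [← hj]
    exact LinearEquiv.apply_symm_apply g.2 (P.coroot i)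
  rw [h2] at h1
  rw [h1, hk]

/-- A simple reflection and the sum of the positive coroots. -/
private theorem corefl_sum56 [P.IsCrystallographic] [P.IsReduced] (b : P.Base) {i : ι}
    (hi : i ∈ b.support) :
    P.coreflection i (∑ j ∈ pos b, P.coroot j) = ∑ j ∈ pos b, P.coroot j - (2 : K) • P.coroot i := by
  classical
  have hip : i ∈ pos b := (mem_pos56 b).2 (b.isPos_of_mem_support hi)
  have hperm : ∀ j ∈ (pos b).erase i, P.reflectionPerm i j ∈ (pos b).erase i := by
    intro j hj
    rw [Finset.mem_erase, mem_pos56] at hj ⊢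
    refine ⟨?_, RootPairing.Base.IsPos.reflectionPerm hj.2 hi hj.1⟩
    intro h3
    have h4 : j = P.reflectionPerm i i := by
      have h5 := congrArg (P.reflectionPerm i) h3
      rwa [P.reflectionPerm_self] at h5
    rw [h4] at hj
    exact (RootPairing.Base.IsPos.neg_iff_not b i).1 hj.2 (b.isPos_of_mem_support hi)
  have h1 : ∑ j ∈ (pos b).erase i, P.coreflection i (P.coroot j) = ∑ j ∈ (pos b).erase i, P.coroot j := by
    refine Finset.sum_bij' (fun j _ => P.reflectionPerm i j) (fun j _ => P.reflectionPerm i j) ?_ ?_ ?_ ?_ ?_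
    · intro j hj
      exact hperm j hj
    · intro j hj
      exact hperm j hj
    · intro j _
      exact P.reflectionPerm_self i j
    · intro j _
      exact P.reflectionPerm_self i j
    · intro j _
      rw [P.coroot_reflectionPerm]
  rw [← Finset.add_sum_erase _ _ hip, map_add, map_sum, h1]
  have h2 : P.coreflection i (P.coroot i) = - P.coroot i := P.coreflection_apply_self i
  rw [h2]
  module

theorem exists_dom [P.IsRootSystem] [P.IsCrystallographic] [P.IsReduced] (b : P.Base) {μ : M}
    (hμ : Integral P μ) : ∃ g ∈ G P, ∀ i ∈ b.support, ∃ k : ℤ, 0 ≤ k ∧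
      P.toLinearMap (g.1 μ) (P.coroot i) = (k : K) := by
  classical
  have hfin : Finite (G P) := finite_G
  obtain ⟨S, hS⟩ : ∃ S : N, S = ∑ j ∈ pos b, P.coroot j := ⟨_, rfl⟩
  have hn : ∀ g : G P, ∃ n : ℤ, P.toLinearMap (g.1.1 μ) S = (n : K) := by
    intro g
    choose f hf using integral_G56 g.2 hμ
    refine ⟨∑ j ∈ pos b, f j, ?_⟩
    rw [hS, map_sum, Int.cast_sum]
    exact Finset.sum_congr rfl fun j _ => hf j
  choose n hn using hn
  obtain ⟨g, hg⟩ := Finite.exists_max n
  refine ⟨g.1, g.2, ?_⟩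
  intro i hi
  obtain ⟨k, hk⟩ := integral_G56 g.2 hμ i
  refine ⟨k, ?_, hk⟩
  have h1 := hg (⟨(P.reflection i, P.coreflection i), refl_mem i⟩ * g)
  have h2 : P.toLinearMap (P.reflection i (g.1.1 μ)) S = P.toLinearMap (g.1.1 μ) S - 2 * (k : K) := by
    have h3 := pairing_inv (refl_mem (P := P) i) (g.1.1 μ) (P.coreflection i S)
    have h4 : P.coreflection i (P.coreflection i S) = S := P.coreflection_same i S
    change P.toLinearMap (P.reflection i (g.1.1 μ)) (P.coreflection i (P.coreflection i S)) =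
      P.toLinearMap (g.1.1 μ) (P.coreflection i S) at h3
    rw [h4] at h3
    rw [h3, hS, corefl_sum56 b hi, map_sub, map_smul, hk, smul_eq_mul]
  have h5 := hn (⟨(P.reflection i, P.coreflection i), refl_mem i⟩ * g)
  change P.toLinearMap (P.reflection i (g.1.1 μ)) S = _ at h5
  rw [h5, hn g] at h2
  have h6 : n (⟨(P.reflection i, P.coreflection i), refl_mem i⟩ * g) = n g - 2 * k := by
    exact_mod_cast h2
  omega

private theorem coeff_G56 [P.IsRootSystem] {F : AddMonoidAlgebra K M}
    (hF : ∀ i, act (P.reflection i) F = -F) {g : (M ≃ₗ[K] M) × (N ≃ₗ[K] N)} (hg : g ∈ G P) :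
    ∀ μ : M, F.coeff (g.1 μ) = sg g * F.coeff μ := by
  have hr : ∀ (i : ι) (μ : M), F.coeff (P.reflection i μ) = - F.coeff μ := by
    intro i μ
    have h1 := congrArg (fun H : AddMonoidAlgebra K M => H.coeff (P.reflection i μ)) (hF i)
    simp only [act_coeff, LinearEquiv.symm_apply_apply] at h1
    rw [AddMonoidAlgebra.coeff_neg, Finsupp.neg_apply] at h1
    rw [h1, neg_neg]
  unfold G at hg
  induction hg using Subgroup.closure_induction with
  | mem x hx =>
    obtain ⟨i, rfl⟩ := hx
    intro μ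
    rw [sg_refl, neg_one_mul]
    exact hr i μ
  | one =>
    intro μ
    have h1 : sg (1 : (M ≃ₗ[K] M) × (N ≃ₗ[K] N)) = (1 : K) := by
      unfold sg
      exact LinearMap.det_id
    rw [h1, one_mul]
    rfl
  | mul x y _ _ hx hy =>
    intro μ
    rw [sg_mul, mul_assoc, ← hy μ, ← hx (y.1 μ)]
    rfl
  | inv x hx' hx =>
    intro μ
    have h1 := hx (x⁻¹.1 μ)
    have h2 : x.1 (x⁻¹.1 μ) = μ := LinearEquiv.apply_symm_apply x.1 μ
    rw [h2] at h1
    have h3 : sg x⁻¹ * sg x = (1 : K) := by
      rw [← sg_mul, inv_mul_cancel]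
      unfold sg
      exact LinearMap.det_id
    rw [h1, ← mul_assoc, h3, one_mul]

theorem alt_eq [P.IsRootSystem] [P.IsCrystallographic] [P.IsReduced] (b : P.Base) [Fintype (G P)]
    (F : AddMonoidAlgebra K M) (hF : ∀ i, act (P.reflection i) F = -F)
    (hint : ∀ μ, F.coeff μ ≠ 0 → Integral P μ) {Λ : M} (hΛ : SDom b Λ)
    (hdom : ∀ μ, F.coeff μ ≠ 0 → SDom b μ → μ = Λ) :
    F = ∑ g : G P, single (g.1.1 Λ) (sg g.1 * F.coeff Λ) := by
  classical
  ext ν
  have hR : (∑ g : G P, single (g.1.1 Λ) (sg g.1 * F.coeff Λ)).coeff ν =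
      ∑ g : G P, if g.1.1 Λ = ν then sg g.1 * F.coeff Λ else 0 := by
    rw [AddMonoidAlgebra.coeff_sum, Finsupp.finsetSum_apply]
    apply Finset.sum_congr rfl
    intro g _
    rw [AddMonoidAlgebra.coeff_single, Finsupp.single_apply]
  rw [hR]
  by_cases h : ∃ g : G P, g.1.1 Λ = ν
  · obtain ⟨g, hg⟩ := h
    have huniq : ∀ g' : G P, g'.1.1 Λ = ν → g' = g := by
      intro g' hg'
      have h1 : (g⁻¹ * g').1.1 Λ = Λ := by
        change g.1.1.symm (g'.1.1 Λ) = Λ
        rw [hg', ← hg, LinearEquiv.symm_apply_apply]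
      have h2 : (g⁻¹ * g').1 = 1 := eq_one_of_sdom b (g⁻¹ * g').2 hΛ h1
      have h3 : g⁻¹ * g' = 1 := Subtype.ext h2
      exact (inv_mul_eq_one.1 h3).symm
    rw [Finset.sum_eq_single g]
    · rw [if_pos hg, ← hg]
      exact coeff_G56 hF g.2 Λ
    · intro g' _ hne
      rw [if_neg]
      intro h1
      exact hne (huniq g' h1)
    · intro h1
      exact absurd (Finset.mem_univ g) h1
  · push Not at h
    rw [Finset.sum_eq_zero fun g _ => if_neg (h g)]
    by_contra hν
    obtain ⟨g, hg, hd⟩ := exists_dom b (hint ν hν)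
    have hc := coeff_G56 hF hg ν
    have hsg : sg g ≠ (0 : K) := by
      rcases sg_sq hg with h1 | h1
      · rw [h1]; exact one_ne_zero
      · rw [h1]; exact neg_ne_zero.2 one_ne_zero
    have hgν : F.coeff (g.1 ν) ≠ 0 := by
      rw [hc]
      exact mul_ne_zero hsg hν
    have hsd : SDom b (g.1 ν) := by
      intro i hi
      obtain ⟨k, hk, hke⟩ := hd i hi
      refine ⟨k, lt_of_le_of_ne hk ?_, hke⟩
      rintro rfl
      have h1 : P.reflection i (g.1 ν) = g.1 ν := by
        rw [P.reflection_apply]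
        change g.1 ν - P.toLinearMap (g.1 ν) (P.coroot i) • P.root i = g.1 ν
        rw [hke, Int.cast_zero, zero_smul, sub_zero]
      have h2 := coeff_G56 hF (refl_mem (P := P) i) (g.1 ν)
      change F.coeff (P.reflection i (g.1 ν)) = _ at h2
      rw [h1, sg_refl, neg_one_mul] at h2
      apply hgν
      have h3 : (2 : K) * F.coeff (g.1 ν) = 0 := by linear_combination h2
      exact (mul_eq_zero.1 h3).resolve_left two_ne_zero
    have h1 := hdom _ hgν hsd
    apply h (⟨g, hg⟩⁻¹)
    change g.1.symm Λ = ν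
    rw [← h1, LinearEquiv.symm_apply_apply]

end PF.W
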