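import Mathlib

/-!
Project PF / W (Weyl's dimension formula). Definitions: the Weyl group acting on both spaces, the sign, half the
sum of the positive roots, the denominator, the Laplacian on the group ring.
-/

open Module AddMonoidAlgebra

namespace PF.W

variable {ι K M N : Type*} [Field K] [AddCommGroup M] [Module K M] [AddCommGroup N] [Module K N]

/-- The Weyl group, acting on both spaces. -/
def G (P : RootPairing ι K M N) : Subgroup ((M ≃ₗ[K] M) × (N ≃ₗ[K] N)) :=
  Subgroup.closure (Set.range fun i => (P.reflection i, P.coreflection i))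

/-- The sign (determinant) of an element of the Weyl group. -/
noncomputable def sg (g : (M ≃ₗ[K] M) × (N ≃ₗ[K] N)) : K := LinearMap.det (g.1 : M →ₗ[K] M)

/-- The group ring acted on by a linear automorphism. -/
noncomputable def act (e : M ≃ₗ[K] M) : AddMonoidAlgebra K M ≃ₐ[K] AddMonoidAlgebra K M :=
  AddMonoidAlgebra.domCongr K K e.toAddEquiv

section base

variable [CharZero K] [Fintype ι] {P : RootPairing ι K M N} (b : P.Base)

open Classical in
/-- The positive roots. -/
noncomputable def pos : Finset ι := Finset.univ.filter fun i => b.IsPos i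

/-- Half the sum of the positive roots. -/
noncomputable def rho : M := (2⁻¹ : K) • ∑ i ∈ pos b, P.root i

/-- Half the sum of the positive coroots. -/
noncomputable def crho : N := (2⁻¹ : K) • ∑ i ∈ pos b, P.coroot i

/-- The Weyl denominator. -/
noncomputable def delta : AddMonoidAlgebra K M :=
  ∏ i ∈ pos b, (single ((2⁻¹ : K) • P.root i) (1 : K) - single (-((2⁻¹ : K) • P.root i)) (1 : K))

/-- The weight `μ` has integral pairings with the coroots. -/
def Integral (P : RootPairing ι K M N) (μ : M) : Prop := ∀ i, ∃ k : ℤ, P.toLinearMap μ (P.coroot i) = (k : K)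

/-- The pairings of `μ` with the simple coroots are positive integers. -/
def SDom (μ : M) : Prop := ∀ i ∈ b.support, ∃ k : ℤ, 0 < k ∧ P.toLinearMap μ (P.coroot i) = (k : K)

/-- `μ` is `Λ` minus a combination of simple roots with natural coefficients. -/
def Below (Λ μ : M) : Prop := ∃ κ : ι → ℕ, μ = Λ - ∑ i ∈ b.support, (κ i : K) • P.root i

end base

/-- The Laplacian of the bilinear form `B` on the group ring. -/
noncomputable def lap (B : M →ₗ[K] M →ₗ[K] K) : AddMonoidAlgebra K M →ₗ[K] AddMonoidAlgebra K M :=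
  (AddMonoidAlgebra.coeffLinearEquiv K (M := M)).symm.toLinearMap ∘ₗ
    Finsupp.lsum K (fun μ => B μ μ • Finsupp.lsingle μ) ∘ₗ (AddMonoidAlgebra.coeffLinearEquiv K (M := M)).toLinearMap

/-- The derivation `e^μ ↦ (μ, a) e^μ` of the group ring. -/
noncomputable def dd (B : M →ₗ[K] M →ₗ[K] K) (a : M) : AddMonoidAlgebra K M →ₗ[K] AddMonoidAlgebra K M :=
  (AddMonoidAlgebra.coeffLinearEquiv K (M := M)).symm.toLinearMap ∘ₗ
    Finsupp.lsum K (fun μ => B μ a • Finsupp.lsingle μ) ∘ₗ (AddMonoidAlgebra.coeffLinearEquiv K (M := M)).toLinearMap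

theorem lap_single (B : M →ₗ[K] M →ₗ[K] K) (μ : M) (c : K) : lap B (single μ c) = single μ (B μ μ * c) := by
  ext ν
  simp [lap, AddMonoidAlgebra.coeffLinearEquiv]

theorem dd_single (B : M →ₗ[K] M →ₗ[K] K) (a μ : M) (c : K) : dd B a (single μ c) = single μ (B μ a * c) := by
  ext ν
  simp [dd, AddMonoidAlgebra.coeffLinearEquiv]

theorem act_single (e : M ≃ₗ[K] M) (μ : M) (c : K) : act e (single μ c) = single (e μ) c := by
  simp [act]

theorem act_coeff (e : M ≃ₗ[K] M) (F : AddMonoidAlgebra K M) (μ : M) :
    (act e F).coeff μ = F.coeff (e.symm μ) := by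
  simp [act]

end PF.W
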