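import Pool.Agent.Helper94.PF.Trans

/-!
Project PF / W4: see Helper94/PF/Trans.lean.
-/
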