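import Pool.Agent.Helper14.PF.WGroup

/-!
Project PF / W, block W2: the Weyl group acts freely on strictly dominant weights.

`Wd n` is the set of the products of `n` simple reflections. Exchange: if `g ∈ Wd n` maps the simple root `j` to a
negative root then `g s_j ∈ Wd (n - 1)`: write `g = s_i h`; if `h` maps `j` to a negative root use induction,
otherwise `h` maps `j` to `i` and `s_i h = h s_j`.
-/

set_option linter.unusedSectionVars false

open Module AddMonoidAlgebra

namespace PF.W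

variable {ι K M N : Type*} [Field K] [CharZero K] [AddCommGroup M] [Module K M] [AddCommGroup N] [Module K N]
  [Fintype ι] {P : RootPairing ι K M N}

/-- the reflection in both spaces -/
private def rf (P : RootPairing ι K M N) (i : ι) : (M ≃ₗ[K] M) × (N ≃ₗ[K] N) := (P.reflection i, P.coreflection i)

private lemma rf_mul_self (i : ι) : rf P i * rf P i = 1 := by
  ext x
  · exact P.reflection_same i x
  · exact P.coreflection_same i x

private lemma rf_inv (i : ι) : (rf P i)⁻¹ = rf P i := inv_eq_of_mul_eq_one_right (rf_mul_self i)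

private lemma rf_mem (i : ι) : rf P i ∈ G P := Subgroup.subset_closure ⟨i, rfl⟩

/-- products of `n` simple reflections -/
private def Wd (b : P.Base) : ℕ → Set ((M ≃ₗ[K] M) × (N ≃ₗ[K] N))
  | 0 => {1}
  | n + 1 => {g | ∃ i ∈ b.support, ∃ h ∈ Wd b n, g = rf P i * h}

private lemma wd_le (b : P.Base) : ∀ (n : ℕ) (g : (M ≃ₗ[K] M) × (N ≃ₗ[K] N)), g ∈ Wd b n → g ∈ G P
  | 0, g, hg => by
    rw [Wd, Set.mem_singleton_iff] at hg
    rw [hg]
    exact one_mem _
  | n + 1, g, hg => by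
    obtain ⟨i, -, h, hh, rfl⟩ := hg
    exact mul_mem (rf_mem i) (wd_le b n h hh)

private lemma wd_right (b : P.Base) : ∀ (n : ℕ) (g : (M ≃ₗ[K] M) × (N ≃ₗ[K] N)), g ∈ Wd b (n + 1) →
    ∃ h ∈ Wd b n, ∃ j ∈ b.support, g = h * rf P j
  | 0, g, hg => by
    obtain ⟨i, hi, h, hh, rfl⟩ := hg
    rw [Wd, Set.mem_singleton_iff] at hh
    exact ⟨1, rfl, i, hi, by rw [hh, one_mul, mul_one]⟩
  | n + 1, g, hg => by
    obtain ⟨i, hi, h, hh, rfl⟩ := hg
    obtain ⟨h', hh', j, hj, rfl⟩ := wd_right b n h hh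
    exact ⟨rf P i * h', ⟨i, hi, h', hh', rfl⟩, j, hj, (mul_assoc _ _ _).symm⟩

private lemma wd_mul (b : P.Base) : ∀ (n m : ℕ) (g h : (M ≃ₗ[K] M) × (N ≃ₗ[K] N)), g ∈ Wd b n → h ∈ Wd b m →
    g * h ∈ Wd b (n + m)
  | 0, m, g, h, hg, hh => by
    rw [Wd, Set.mem_singleton_iff] at hg
    rw [hg, one_mul, zero_add]
    exact hh
  | n + 1, m, g, h, hg, hh => by
    obtain ⟨i, hi, g', hg', rfl⟩ := hg
    rw [mul_assoc, Nat.succ_add]
    exact ⟨i, hi, g' * h, wd_mul b n m g' h hg' hh, rfl⟩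

private lemma wd_inv (b : P.Base) : ∀ (n : ℕ) (g : (M ≃ₗ[K] M) × (N ≃ₗ[K] N)), g ∈ Wd b n → g⁻¹ ∈ Wd b n
  | 0, g, hg => by
    rw [Wd, Set.mem_singleton_iff] at hg ⊢
    rw [hg, inv_one]
  | n + 1, g, hg => by
    obtain ⟨i, hi, h, hh, rfl⟩ := hg
    rw [mul_inv_rev, rf_inv]
    have h1 : rf P i ∈ Wd b 1 := ⟨i, hi, 1, rfl, (mul_one _).symm⟩
    exact wd_mul b n 1 _ _ (wd_inv b n h hh) h1

private lemma exists_wd [P.IsRootSystem] [P.IsCrystallographic] [P.IsReduced] (b : P.Base)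
    {g : (M ≃ₗ[K] M) × (N ≃ₗ[K] N)} (hg : g ∈ G P) : ∃ n, g ∈ Wd b n := by
  rw [← closure_simple b] at hg
  induction hg using Subgroup.closure_induction with
  | mem x hx =>
    obtain ⟨i, hi, rfl⟩ := hx
    exact ⟨1, i, hi, 1, rfl, (mul_one _).symm⟩
  | one => exact ⟨0, rfl⟩
  | mul x y _ _ hx hy =>
    obtain ⟨n, hn⟩ := hx
    obtain ⟨m, hm⟩ := hy
    exact ⟨n + m, wd_mul b n m x y hn hm⟩
  | inv x _ hx =>
    obtain ⟨n, hn⟩ := hx
    exact ⟨n, wd_inv b n x hn⟩

private lemma map_coroot {g : (M ≃ₗ[K] M) × (N ≃ₗ[K] N)} (hg : g ∈ G P) {i j : ι} (h : g.1 (P.root i) = P.root j) :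
    g.2 (P.coroot i) = P.coroot j := by
  obtain ⟨k, h1, h2⟩ := map_root hg i
  rw [h] at h1
  rw [h2, P.root.injective h1]

private lemma conj_rf {g : (M ≃ₗ[K] M) × (N ≃ₗ[K] N)} (hg : g ∈ G P) {i j : ι} (h : g.1 (P.root j) = P.root i) :
    rf P i * g = g * rf P j := by
  have h2 := map_coroot hg h
  ext x
  · change P.reflection i (g.1 x) = g.1 (P.reflection j x)
    rw [RootPairing.reflection_apply, RootPairing.reflection_apply, map_sub, map_smul, h]
    congr 2
    have := pairing_inv hg x (P.coroot j)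
    rw [h2] at this
    exact this
  · change P.coreflection i (g.2 x) = g.2 (P.coreflection j x)
    rw [RootPairing.coreflection_apply, RootPairing.coreflection_apply, map_sub, map_smul, h2]
    congr 2
    have := pairing_inv hg (P.root j) x
    rw [h] at this
    exact this

/-- the exchange lemma -/
private lemma exch [P.IsCrystallographic] [P.IsReduced] (b : P.Base) : ∀ (n : ℕ) (g : (M ≃ₗ[K] M) × (N ≃ₗ[K] N)),
    g ∈ Wd b n → ∀ j ∈ b.support, ∀ k, g.1 (P.root j) = P.root k → ¬ b.IsPos k → ∃ m, n = m + 1 ∧ g * rf P j ∈ Wd b m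
  | 0, g, hg, j, hj, k, hk, hn => by
    rw [Wd, Set.mem_singleton_iff] at hg
    rw [hg] at hk
    have : P.root j = P.root k := hk
    rw [← P.root.injective this] at hn
    exact absurd (RootPairing.Base.isPos_of_mem_support hj) hn
  | n + 1, g, hg, j, hj, k, hk, hn => by
    obtain ⟨i, hi, h, hh, rfl⟩ := hg
    have hG := wd_le b n h hh
    obtain ⟨l, h1, h2⟩ := map_root hG j
    refine ⟨n, rfl, ?_⟩
    by_cases hl : b.IsPos l
    · have hil : l = i := by
        by_contra hne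
        have h3 := RootPairing.Base.IsPos.reflectionPerm hl hi hne
        have h4 : P.root (P.reflectionPerm i l) = P.root k := by
          rw [P.root_reflectionPerm, ← h1]
          exact hk
        rw [P.root.injective h4] at h3
        exact hn h3
      rw [hil] at h1
      rw [conj_rf hG h1, mul_assoc, rf_mul_self, mul_one]
      exact hh
    · obtain ⟨m, rfl, hm⟩ := exch b n h hh j hj l h1 hl
      rw [mul_assoc]
      exact ⟨i, hi, _, hm, rfl⟩

theorem eq_one_of_pos [P.IsRootSystem] [P.IsCrystallographic] [P.IsReduced] (b : P.Base)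
    {g : (M ≃ₗ[K] M) × (N ≃ₗ[K] N)} (hg : g ∈ G P)
    (h : ∀ i, b.IsPos i → ∀ j, g.1 (P.root i) = P.root j → b.IsPos j) : g = 1 := by
  classical
  have hex := exists_wd b hg
  obtain ⟨n, hn, hmin⟩ : ∃ n, g ∈ Wd b n ∧ ∀ m, m < n → g ∉ Wd b m :=
    ⟨Nat.find hex, Nat.find_spec hex, fun m hm => Nat.find_min hex hm⟩
  rcases n with - | n
  · exact hn
  · exfalso
    obtain ⟨g', hg', j, hj, rfl⟩ := wd_right b n g hn
    obtain ⟨k, h1, -⟩ := map_root (wd_le b n g' hg') j
    let := P.indexNeg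
    have h2 : (g' * rf P j).1 (P.root j) = P.root (-k) := by
      change g'.1 (P.reflection j (P.root j)) = P.root (-k)
      rw [P.reflection_apply_self, map_neg, h1]
      simp
    have h3 := h j (RootPairing.Base.isPos_of_mem_support hj) (-k) h2
    rw [RootPairing.Base.IsPos.neg_iff_not] at h3
    obtain ⟨m, rfl, hm⟩ := exch b n g' hg' j hj k h1 h3
    exact hmin m (by omega) hm

private lemma pos_pair [P.IsRootSystem] [P.IsCrystallographic] [P.IsReduced] (b : P.Base) {Λ : M} (hΛ : SDom b Λ)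
    {i : ι} (hi : b.IsPos i) : ∃ k : ℤ, 0 < k ∧ P.toLinearMap Λ (P.coroot i) = (k : K) := by
  rw [← isPos_flip b] at hi
  obtain ⟨f, hf0, hf1, hf2⟩ := b.flip.exists_root_eq_sum_int i
  replace hf1 : 0 < f := by
    refine hf1.resolve_right ?_
    rw [RootPairing.Base.isPos_iff, RootPairing.Base.height_eq_sum hf2] at hi
    contrapose! hi
    exact Finset.sum_nonpos fun i _ => hi.le i
  have hf2' : P.coroot i = ∑ j ∈ b.support, f j • P.coroot j := hf2
  have hk : ∀ j, ∃ k : ℤ, j ∈ b.support → (0 < k ∧ P.toLinearMap Λ (P.coroot j) = (k : K)) := by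
    intro j
    by_cases hj : j ∈ b.support
    · obtain ⟨k, hk⟩ := hΛ j hj
      exact ⟨k, fun _ => hk⟩
    · exact ⟨0, fun h => absurd h hj⟩
  choose k hk using hk
  refine ⟨∑ j ∈ b.support, f j * k j, ?_, ?_⟩
  · refine Finset.sum_pos' (fun j hj => mul_nonneg (hf1.le j) (hk j hj).1.le) ?_
    obtain ⟨-, j, hj⟩ := Pi.lt_def.1 hf1
    have hj' : j ∈ b.support := hf0 (by
      rw [Function.mem_support]
      exact ne_of_gt hj)
    exact ⟨j, hj', mul_pos hj (hk j hj').1⟩
  · rw [hf2', map_sum, Int.cast_sum]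
    refine Finset.sum_congr rfl fun j hj => ?_
    rw [map_zsmul, (hk j hj).2, zsmul_eq_mul, Int.cast_mul]

theorem eq_one_of_sdom [P.IsRootSystem] [P.IsCrystallographic] [P.IsReduced] (b : P.Base)
    {g : (M ≃ₗ[K] M) × (N ≃ₗ[K] N)} (hg : g ∈ G P) {Λ : M} (hΛ : SDom b Λ) (h : g.1 Λ = Λ) : g = 1 := by
  refine eq_one_of_pos b hg fun i hi j hij => ?_
  by_contra hj
  let := P.indexNeg
  obtain ⟨k, hk, h1⟩ := pos_pair b hΛ hi
  obtain ⟨l, hl, h2⟩ := pos_pair b hΛ ((RootPairing.Base.IsPos.neg_iff_not b j).2 hj)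
  have h3 := pairing_inv hg Λ (P.coroot i)
  rw [h, map_coroot hg hij, h1] at h3
  have h4 : P.toLinearMap Λ (P.coroot (-j)) = -P.toLinearMap Λ (P.coroot j) := by
    have : P.coroot (-j) = -P.coroot j := by simp
    rw [this, map_neg]
  rw [h4, h3] at h2
  have h5 : ((k + l : ℤ) : K) = 0 := by
    rw [Int.cast_add, ← h2, add_neg_cancel]
  have h6 : k + l = 0 := by exact_mod_cast h5
  omega

end PF.W
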